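import Pool.Agent.H917R3.Elim

/-!
# The associated form and the discriminant
-/

open MvPolynomial

namespace Pool.Agent.H917R3

theorem homogeneousComponent_mul_homog {n : ℕ} (b g : MvPolynomial (Fin n) ℂ) {e N : ℕ}
    (hg : g.IsHomogeneous e) (he : e ≤ N) :
    homogeneousComponent N (b * g) = homogeneousComponent (N - e) b * g := by
  classical
  have h1 : b * g = ∑ k ∈ Finset.range (b.totalDegree + 1), homogeneousComponent k b * g := by
    rw [← Finset.sum_mul, sum_homogeneousComponent]
  have h2 : ∀ k, homogeneousComponent N (homogeneousComponent k b * g) =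
      if k = N - e then homogeneousComponent k b * g else 0 := by
    intro k
    have hk : (homogeneousComponent k b * g).IsHomogeneous (k + e) :=
      (homogeneousComponent_isHomogeneous k b).mul hg
    rw [homogeneousComponent_of_mem hk]
    by_cases h : k = N - e
    · rw [if_pos h, if_pos (by omega)]
    · rw [if_neg h, if_neg (by omega)]
  rw [h1, map_sum, Finset.sum_congr rfl fun k _ => h2 k, Finset.sum_ite_eq']
  split_ifs with h
  · rfl
  · rw [homogeneousComponent_eq_zero, zero_mul]
    rw [Finset.mem_range] at h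
    omega

theorem exists_homog_repr {n d N : ℕ} (hN : d - 1 ≤ N) (u : Expo n d → ℂ)
    (p : MvPolynomial (Fin n) ℂ) (hp : p.IsHomogeneous N) (hJ : p ∈ jacobianIdeal (formOf u)) :
    ∃ a : Fin n → MvPolynomial (Fin n) ℂ, (∀ i, (a i).IsHomogeneous (N - (d - 1))) ∧
      p = ∑ i, a i * pderiv i (formOf u) := by
  unfold jacobianIdeal at hJ
  rw [Ideal.mem_span_range_iff_exists_fun] at hJ
  obtain ⟨b, hb⟩ := hJ
  refine ⟨fun i => homogeneousComponent (N - (d - 1)) (b i),
    fun i => homogeneousComponent_isHomogeneous _ _, ?_⟩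
  have h1 := congrArg (homogeneousComponent N) hb
  rw [homogeneousComponent_eq_self hp, map_sum] at h1
  rw [← h1]
  exact Finset.sum_congr rfl fun i _ =>
    homogeneousComponent_mul_homog _ _ (formOf_isHomogeneous u).pderiv hN

theorem lin_smul_sum {n d : ℕ} (a : Fin n → MvPolynomial (Fin n) ℂ) :
    (lin (fun α => ∑ i, a i * pderiv i (monomial α.1 1)) : UR n d) =
      ∑ i, rename Sum.inr (a i) * df i := by
  simp_rw [df_eq]
  unfold lin
  simp_rw [map_sum, map_mul, Finset.mul_sum]
  rw [Finset.sum_comm]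
  refine Finset.sum_congr rfl fun i _ => Finset.sum_congr rfl fun α _ => ?_
  ring

theorem lin_expand {n d N : ℕ} (q : Expo n d → MvPolynomial (Fin n) ℂ)
    (hq : ∀ α, (q α).IsHomogeneous N) :
    (lin q : UR n d) = ∑ γ : Expo n N,
      rename Sum.inl (∑ α : Expo n d, C ((q α).coeff γ.1) * X α) *
        rename Sum.inr (monomial γ.1 1) := by
  unfold lin
  simp_rw [map_sum, Finset.sum_mul]
  rw [Finset.sum_comm]
  refine Finset.sum_congr rfl fun α _ => ?_
  have h1 : rename Sum.inr (q α) = (∑ γ : Expo n N, (C ((q α).coeff γ.1) : UR n d) *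
      rename Sum.inr (monomial γ.1 1)) := by
    conv_lhs => rw [← formOf_coeffVec (q α) (hq α)]
    unfold formOf coeffVec
    rw [map_sum]
    refine Finset.sum_congr rfl fun γ _ => ?_
    rw [rename_monomial, rename_monomial, C_mul_monomial, mul_one]
  rw [h1, Finset.mul_sum]
  refine Finset.sum_congr rfl fun γ _ => ?_
  rw [map_mul, rename_C, rename_X]
  ring

/-- If all forms of degree `N` lie in the Jacobian ideal of `formOf u`, then a polynomial in the
coefficients not vanishing at `u` multiplies all forms of degree `N` into the generic Jacobian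
ideal. -/
theorem exists_multiplier {n d N : ℕ} (hN : d - 1 ≤ N) (u : Expo n d → ℂ)
    (h : ∀ p : MvPolynomial (Fin n) ℂ, p.IsHomogeneous N → p ∈ jacobianIdeal (formOf u)) :
    ∃ a : MvPolynomial (Expo n d) ℂ, eval u a = 1 ∧ ∀ γ : Expo n N,
      rename Sum.inl a * rename Sum.inr (monomial γ.1 1) ∈ jac n d := by
  classical
  have hrep : ∀ β : Expo n N, ∃ a : Fin n → MvPolynomial (Fin n) ℂ,
      (∀ i, (a i).IsHomogeneous (N - (d - 1))) ∧
      monomial β.1 (1 : ℂ) = ∑ i, a i * pderiv i (formOf u) := fun β =>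
    exists_homog_repr hN u _ (isHomogeneous_monomial _ β.2) (h _ (isHomogeneous_monomial _ β.2))
  choose a ha1 ha2 using hrep
  let q : Expo n N → Expo n d → MvPolynomial (Fin n) ℂ :=
    fun β α => ∑ i, a β i * pderiv i (monomial α.1 1)
  have hq : ∀ β α, (q β α).IsHomogeneous N := by
    intro β α
    refine IsHomogeneous.sum _ _ _ fun i _ => ?_
    have h1 := (ha1 β i).mul ((isHomogeneous_monomial (1 : ℂ) α.2).pderiv (i := i))
    have h2 : N - (d - 1) + (d - 1) = N := by omega
    rwa [h2] at h1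
  let ℓ : Matrix (Expo n N) (Expo n N) (MvPolynomial (Expo n d) ℂ) :=
    Matrix.of fun β γ => ∑ α : Expo n d, C ((q β α).coeff γ.1) * X α
  have hℓeval : (eval u).mapMatrix ℓ = 1 := by
    ext1 β γ
    rw [RingHom.mapMatrix_apply, Matrix.map_apply]
    change eval u (∑ α : Expo n d, C ((q β α).coeff γ.1) * X α) = _
    rw [map_sum]
    simp only [map_mul, eval_C, eval_X]
    have h1 : ∑ α : Expo n d, coeff γ.1 (q β α) * u α =
        coeff γ.1 (∑ i, a β i * pderiv i (formOf u)) := by
      unfold formOf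
      simp_rw [map_sum, Finset.mul_sum]
      rw [Finset.sum_comm, coeff_sum]
      refine Finset.sum_congr rfl fun α _ => ?_
      simp only [q]
      rw [coeff_sum, coeff_sum, Finset.sum_mul]
      refine Finset.sum_congr rfl fun i _ => ?_
      have h2 : (monomial α.1 (u α) : MvPolynomial (Fin n) ℂ) = C (u α) * monomial α.1 1 := by
        rw [C_mul_monomial, mul_one]
      rw [h2, pderiv_C_mul, mul_left_comm, coeff_C_mul, mul_comm]
    rw [h1, ← ha2, coeff_monomial, Matrix.one_apply]
    by_cases hβγ : β = γ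
    · rw [if_pos (by rw [hβγ]), if_pos hβγ]
    · rw [if_neg (fun h => hβγ (Subtype.ext h)), if_neg hβγ]
  let v : Expo n N → UR n d := fun γ => rename Sum.inr (monomial γ.1 1)
  let ℓ' : Matrix (Expo n N) (Expo n N) (UR n d) := (rename Sum.inl).toRingHom.mapMatrix ℓ
  have hℓv : ∀ β, ℓ'.mulVec v β ∈ jac n d := by
    intro β
    have h1 : ℓ'.mulVec v β = lin (q β) := by
      rw [lin_expand (q β) (hq β)]
      rfl
    rw [h1, lin_smul_sum]
    exact Ideal.sum_mem _ fun i _ => Ideal.mul_mem_left _ _ (df_mem_jac i)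
  refine ⟨ℓ.det, ?_, fun γ => ?_⟩
  · rw [RingHom.map_det, hℓeval, Matrix.det_one]
  · have h1 : rename Sum.inl ℓ.det = ℓ'.det := by
      have := RingHom.map_det (rename Sum.inl : MvPolynomial (Expo n d) ℂ →ₐ[ℂ] UR n d).toRingHom ℓ
      exact this
    have h2 : ℓ'.adjugate.mulVec (ℓ'.mulVec v) = fun i => ℓ'.det * v i := by
      rw [Matrix.mulVec_mulVec, Matrix.adjugate_mul]
      ext1 i
      rw [Matrix.smul_mulVec, Matrix.one_mulVec]
      rfl
    have h3 := congrFun h2 γ
    rw [h1]
    change ℓ'.det * v γ ∈ jac n d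
    rw [← h3]
    simp only [Matrix.mulVec, dotProduct]
    exact Ideal.sum_mem _ fun β _ => Ideal.mul_mem_left _ _ (hℓv β)

theorem mul_mem_of_monomials {n d N : ℕ} (a : MvPolynomial (Expo n d) ℂ)
    (h : ∀ γ : Expo n N, rename Sum.inl a * rename Sum.inr (monomial γ.1 1) ∈ jac n d)
    (g : UR n d) (hg : IsWeightedHomogeneous (wz n d) g N) :
    rename Sum.inl a * g ∈ jac n d := by
  classical
  rw [g.as_sum, Finset.mul_sum]
  refine Ideal.sum_mem _ fun μ hμ => ?_
  have hw : Finsupp.weight (wz n d) μ = N := hg (mem_support_iff.mp hμ)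
  rw [weight_wz] at hw
  let μ1 : Expo n d →₀ ℕ := μ.comapDomain Sum.inl Sum.inl_injective.injOn
  let μ2 : Fin n →₀ ℕ := μ.comapDomain Sum.inr Sum.inr_injective.injOn
  have hμ2 : μ2.degree = N := by
    rw [Finsupp.degree_eq_sum, ← hw]
    rfl
  have hsplit : μ = μ1.mapDomain Sum.inl + μ2.mapDomain Sum.inr := by
    ext x
    rcases x with x | x
    · rw [Finsupp.add_apply, Finsupp.mapDomain_apply Sum.inl_injective,
        Finsupp.mapDomain_of_notMem_range _ _ (by simp), add_zero]
      rfl
    · rw [Finsupp.add_apply, Finsupp.mapDomain_apply Sum.inr_injective,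
        Finsupp.mapDomain_of_notMem_range _ _ (by simp), zero_add]
      rfl
  have h1 : monomial μ (coeff μ g) = monomial (μ1.mapDomain Sum.inl) (coeff μ g) *
      (rename Sum.inr (monomial μ2 1) : UR n d) := by
    rw [rename_monomial, monomial_mul, mul_one, ← hsplit]
  rw [h1, mul_left_comm]
  exact Ideal.mul_mem_left _ _ (h ⟨μ2, hμ2⟩)

/-- The key congruence in critical degree. -/
theorem crit_congr {n d : ℕ} (hn : 1 ≤ n) (hd : 3 ≤ d) (D : MvPolynomial (Expo n d) ℂ)
    (hD : ∀ f : MvPolynomial (Fin n) ℂ, f.IsHomogeneous d → Degenerate f →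
      eval (coeffVec d f) D = 0) (p : MvPolynomial (Fin n) ℂ) (hp : p.IsHomogeneous (n * (d - 2))) :
    ∃ c : MvPolynomial (Expo n d) ℂ,
      rename Sum.inl D * rename Sum.inr p - rename Sum.inl c * hess n d ∈ jac n d := by
  refine crit hd hn _ ?_ fun i => ?_
  · have h1 : IsWeightedHomogeneous (wz n d) (rename Sum.inl D : UR n d) 0 := by
      intro μ hμ
      rw [← mem_support_iff, support_rename_of_injective Sum.inl_injective, Finset.mem_image] at hμ
      obtain ⟨ν, -, rfl⟩ := hμ
      rw [weight_wz, Finset.sum_eq_zero]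
      intro i _
      exact Finsupp.mapDomain_of_notMem_range _ _ (by simp)
    have h2 : IsWeightedHomogeneous (wz n d) (rename Sum.inr p : UR n d) (n * (d - 2)) := by
      intro μ hμ
      rw [← mem_support_iff, support_rename_of_injective Sum.inr_injective, Finset.mem_image] at hμ
      obtain ⟨ν, hν, rfl⟩ := hμ
      rw [weight_wz]
      have : ∀ i : Fin n, (Finsupp.mapDomain Sum.inr ν : (Expo n d ⊕ Fin n) →₀ ℕ) (Sum.inr i) =
          ν i := fun i => Finsupp.mapDomain_apply Sum.inr_injective _ _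
      simp_rw [this]
      have h3 := hp (mem_support_iff.mp hν)
      rw [← Finsupp.degree_eq_sum, ← h3, Finsupp.degree_eq_weight_one]
      rfl
    have := h1.mul h2
    rwa [zero_add] at this
  · obtain ⟨s, hs⟩ := inertia_of_vanish (by omega) D hD i
    refine ⟨s, ?_⟩
    rw [← mul_assoc]
    exact Ideal.mul_mem_right _ _ hs

/-- For a nondegenerate form the Hessian does not lie in the Jacobian ideal. -/
theorem hessian_notMem {n d : ℕ} (hn : 2 ≤ n) (hd : 3 ≤ d) (D : MvPolynomial (Expo n d) ℂ)
    (hD : ∀ f : MvPolynomial (Fin n) ℂ, f.IsHomogeneous d → Degenerate f →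
      eval (coeffVec d f) D = 0) (u : Expo n d → ℂ) (hu : eval u D ≠ 0) :
    hessian (formOf u) ∉ jacobianIdeal (formOf u) := by
  intro hmem
  have hall : ∀ p : MvPolynomial (Fin n) ℂ, p.IsHomogeneous (n * (d - 2)) →
      p ∈ jacobianIdeal (formOf u) := by
    intro p hp
    obtain ⟨c, hc⟩ := crit_congr (by omega) hd D hD p hp
    have h1 := spec_jac u hc
    rw [map_sub, map_mul, map_mul, spec_rename_inl, spec_rename_inl, spec_rename_inr,
      spec_hess] at h1
    have h2 : C (eval u D) * p ∈ jacobianIdeal (formOf u) := by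
      have := Ideal.add_mem _ h1 (Ideal.mul_mem_left _ (C (eval u c)) hmem)
      rwa [sub_add_cancel] at this
    have h3 : p = C (eval u D)⁻¹ * (C (eval u D) * p) := by
      rw [← mul_assoc, ← C_mul, inv_mul_cancel₀ hu, C_1, one_mul]
    rw [h3]
    exact Ideal.mul_mem_left _ _ h2
  have hN : d - 1 ≤ n * (d - 2) := by
    calc d - 1 ≤ 2 * (d - 2) := by omega
      _ ≤ n * (d - 2) := Nat.mul_le_mul_right _ hn
  obtain ⟨a, ha, haJ⟩ := exists_multiplier hN u hall
  have h4 := hess_torsionfree (by omega) a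
    (mul_mem_of_monomials a haJ (hess n d) (hess_wh (by omega)))
  rw [h4, map_zero] at ha
  exact zero_ne_one ha

/-- A polynomial family of forms of degree `n * (d - 2)` representing `D` times the associated
form. -/
theorem exists_family {n d : ℕ} (hn : 1 ≤ n) (hd : 3 ≤ d) (D : MvPolynomial (Expo n d) ℂ)
    (hD : ∀ f : MvPolynomial (Fin n) ℂ, f.IsHomogeneous d → Degenerate f →
      eval (coeffVec d f) D = 0) :
    ∃ Ψ : MvPolynomial (Fin n) (MvPolynomial (Expo n d) ℂ), Ψ.IsHomogeneous (n * (d - 2)) ∧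
      ∀ (u : Expo n d → ℂ) (w : Fin n → ℂ),
        C (eval u D) * (∑ i : Fin n, C (w i) * X i) ^ (n * (d - 2)) -
          C (eval w (map (eval u) Ψ)) * hessian (formOf u) ∈ jacobianIdeal (formOf u) := by
  classical
  set N := n * (d - 2) with hN
  have hz : ∀ k : Fin n → ℕ, k ∈ Finset.univ.piAntidiag N →
      (∏ i : Fin n, (X i : MvPolynomial (Fin n) ℂ) ^ k i).IsHomogeneous N := by
    intro k hk
    rw [Finset.mem_piAntidiag] at hk
    rw [← hk.1]
    refine IsHomogeneous.prod _ _ _ fun i _ => ?_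
    have := (isHomogeneous_X ℂ i).pow (k i)
    rwa [one_mul] at this
  have hc : ∀ k : Fin n → ℕ, ∃ c : MvPolynomial (Expo n d) ℂ, k ∈ Finset.univ.piAntidiag N →
      rename Sum.inl D * rename Sum.inr (∏ i : Fin n, (X i : MvPolynomial (Fin n) ℂ) ^ k i) -
        rename Sum.inl c * hess n d ∈ jac n d := by
    intro k
    by_cases hk : k ∈ Finset.univ.piAntidiag N
    · obtain ⟨c, hc⟩ := crit_congr hn hd D hD _ (hz k hk)
      exact ⟨c, fun _ => hc⟩
    · exact ⟨0, fun h => absurd h hk⟩
  choose c hc using hc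
  refine ⟨∑ k ∈ Finset.univ.piAntidiag N,
    C ((Nat.multinomial Finset.univ k : MvPolynomial (Expo n d) ℂ) * c k) *
      ∏ i : Fin n, X i ^ k i, ?_, ?_⟩
  · refine IsHomogeneous.sum _ _ _ fun k hk => ?_
    refine IsHomogeneous.C_mul ?_ _
    rw [Finset.mem_piAntidiag] at hk
    rw [← hk.1]
    refine IsHomogeneous.prod _ _ _ fun i _ => ?_
    have := (isHomogeneous_X (MvPolynomial (Expo n d) ℂ) i).pow (k i)
    rwa [one_mul] at this
  · intro u w
    have h1 : eval w (map (eval u) (∑ k ∈ Finset.univ.piAntidiag N,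
        C ((Nat.multinomial Finset.univ k : MvPolynomial (Expo n d) ℂ) * c k) *
          ∏ i : Fin n, X i ^ k i)) =
        ∑ k ∈ Finset.univ.piAntidiag N, (Nat.multinomial Finset.univ k : ℂ) * eval u (c k) *
          ∏ i : Fin n, w i ^ k i := by
      simp only [map_sum, map_mul, map_C, map_prod, map_pow, map_X, eval_C, eval_X, map_natCast]
    rw [h1, Finset.sum_pow_eq_sum_piAntidiag, Finset.mul_sum, map_sum, Finset.sum_mul,
      ← Finset.sum_sub_distrib]
    refine Ideal.sum_mem _ fun k hk => ?_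
    have h2 := spec_jac u (hc k hk)
    rw [map_sub, map_mul, map_mul, spec_rename_inl, spec_rename_inl, spec_rename_inr,
      spec_hess] at h2
    have h3 : C (eval u D) * ((Nat.multinomial Finset.univ k : MvPolynomial (Fin n) ℂ) *
          ∏ i : Fin n, (C (w i) * X i) ^ k i) -
        C ((Nat.multinomial Finset.univ k : ℂ) * eval u (c k) * ∏ i : Fin n, w i ^ k i) *
          hessian (formOf u) =
        C ((Nat.multinomial Finset.univ k : ℂ) * ∏ i : Fin n, w i ^ k i) *
          (C (eval u D) * ∏ i : Fin n, X i ^ k i - C (eval u (c k)) * hessian (formOf u)) := by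
      simp only [mul_pow, Finset.prod_mul_distrib, C_mul, map_natCast, map_prod, map_pow]
      ring
    rw [h3]
    exact Ideal.mul_mem_left _ _ h2

end Pool.Agent.H917R3
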