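import Pool.Agent.H917R3.Inertia

/-!
# Definitions: coefficient vectors, degenerate forms, discriminants, associated forms
-/

open MvPolynomial

namespace Pool.Agent.H917R3

/-- The vector of coefficients of a form of degree `d` (a point of the affine space of all forms
of degree `d` in `n` variables). -/
noncomputable def coeffVec {n : ℕ} (d : ℕ) (f : MvPolynomial (Fin n) ℂ) : Expo n d → ℂ :=
  fun α => f.coeff α.1

/-- A form is degenerate if its partial derivatives have a common zero different from the
origin. -/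
def Degenerate {n : ℕ} (f : MvPolynomial (Fin n) ℂ) : Prop :=
  ∃ q : Fin n → ℂ, q ≠ 0 ∧ ∀ i : Fin n, eval q (pderiv i f) = 0

/-- `Δ` is a discriminant of forms of degree `d` in `n` variables: an irreducible polynomial in
the coefficients which vanishes exactly on the degenerate forms. -/
structure IsDiscriminant (n d : ℕ) (Δ : MvPolynomial (Expo n d) ℂ) : Prop where
  irreducible : Irreducible Δ
  eval_eq_zero_iff : ∀ f : MvPolynomial (Fin n) ℂ, f.IsHomogeneous d →
    (eval (coeffVec d f) Δ = 0 ↔ Degenerate f)

/-- The ideal generated by the partial derivatives of `f`. -/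
noncomputable def jacobianIdeal {n : ℕ} (f : MvPolynomial (Fin n) ℂ) :
    Ideal (MvPolynomial (Fin n) ℂ) :=
  Ideal.span (Set.range fun i : Fin n => pderiv i f)

/-- The Hessian determinant of `f`. -/
noncomputable def hessian {n : ℕ} (f : MvPolynomial (Fin n) ℂ) : MvPolynomial (Fin n) ℂ :=
  (Matrix.of fun i j : Fin n => pderiv i (pderiv j f)).det

/-- `F` is the associated form of `f` (of degree `d`): a form of degree `n * (d - 2)` whose value
at every `w` is the scalar `c` with `(w_1 z_1 + ... + w_n z_n) ^ (n * (d - 2)) = c * Hess f` modulo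
the partial derivatives of `f`. -/
def IsAssociatedForm {n : ℕ} (d : ℕ) (f F : MvPolynomial (Fin n) ℂ) : Prop :=
  F.IsHomogeneous (n * (d - 2)) ∧ ∀ w : Fin n → ℂ,
    (∑ i : Fin n, C (w i) * X i) ^ (n * (d - 2)) - C (eval w F) * hessian f ∈ jacobianIdeal f

/-- The form with given coefficients. -/
noncomputable def formOf {n d : ℕ} (u : Expo n d → ℂ) : MvPolynomial (Fin n) ℂ :=
  ∑ α : Expo n d, monomial α.1 (u α)

theorem formOf_isHomogeneous {n d : ℕ} (u : Expo n d → ℂ) : (formOf u).IsHomogeneous d := by
  unfold formOf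
  exact IsHomogeneous.sum _ _ _ fun α _ => isHomogeneous_monomial _ α.2

theorem coeff_formOf {n d : ℕ} (u : Expo n d → ℂ) (α : Expo n d) :
    (formOf u).coeff α.1 = u α := by
  classical
  unfold formOf
  rw [coeff_sum, Finset.sum_eq_single α]
  · simp
  · intro β _ hβ
    rw [coeff_monomial, if_neg]
    exact fun h => hβ (Subtype.ext h)
  · simp

theorem coeffVec_formOf {n d : ℕ} (u : Expo n d → ℂ) : coeffVec d (formOf u) = u := by
  funext α
  exact coeff_formOf u α

theorem formOf_coeffVec {n d : ℕ} (f : MvPolynomial (Fin n) ℂ) (hf : f.IsHomogeneous d) :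
    formOf (coeffVec d f) = f := by
  classical
  ext β
  by_cases hβ : β.degree = d
  · exact coeff_formOf (coeffVec d f) ⟨β, hβ⟩
  · rw [hf.coeff_eq_zero hβ, (formOf_isHomogeneous _).coeff_eq_zero hβ]

/-- specialisation of the universal form -/
noncomputable def spec {n d : ℕ} (u : Expo n d → ℂ) : UR n d →ₐ[ℂ] MvPolynomial (Fin n) ℂ :=
  aeval (Sum.elim (fun α => C (u α)) X)

theorem spec_rename_inr {n d : ℕ} (u : Expo n d → ℂ) (p : MvPolynomial (Fin n) ℂ) :
    spec u (rename Sum.inr p) = p := by
  unfold spec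
  rw [aeval_rename]
  simp

theorem spec_rename_inl {n d : ℕ} (u : Expo n d → ℂ) (p : MvPolynomial (Expo n d) ℂ) :
    spec u (rename Sum.inl p) = C (eval u p) := by
  unfold spec
  rw [aeval_rename, Sum.elim_comp_inl]
  induction p using MvPolynomial.induction_on with
  | C a => simp
  | add p q hp hq => rw [map_add, hp, hq, map_add, C_add]
  | mul_X p i hp => rw [map_mul, hp, aeval_X, map_mul, eval_X, C_mul]

theorem spec_univF {n d : ℕ} (u : Expo n d → ℂ) : spec u (univF n d) = formOf u := by
  unfold univF lin formOf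
  rw [map_sum]
  refine Finset.sum_congr rfl fun α _ => ?_
  rw [map_mul, spec_rename_inr]
  unfold spec
  rw [aeval_X, Sum.elim_inl, C_mul_monomial, mul_one]

theorem spec_X_inl {n d : ℕ} (u : Expo n d → ℂ) (α : Expo n d) :
    spec u (X (Sum.inl α)) = C (u α) := by
  unfold spec
  rw [aeval_X, Sum.elim_inl]

theorem spec_X_inr {n d : ℕ} (u : Expo n d → ℂ) (i : Fin n) :
    spec u (X (Sum.inr i) : UR n d) = X i := by
  unfold spec
  rw [aeval_X, Sum.elim_inr]

theorem spec_pderiv_X {n d : ℕ} (u : Expo n d → ℂ) (i : Fin n) (j : Expo n d ⊕ Fin n) :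
    spec u (pderiv (Sum.inr i) (X j : UR n d)) = pderiv i (spec u (X j)) := by
  classical
  rcases j with α | j
  · rw [pderiv_X_of_ne (by simp), map_zero, spec_X_inl, pderiv_C]
  · by_cases hij : j = i
    · subst hij
      rw [pderiv_X_self, map_one, spec_X_inr, pderiv_X_self]
    · rw [pderiv_X_of_ne (by simpa using hij), map_zero, spec_X_inr, pderiv_X_of_ne hij]

theorem spec_pderiv {n d : ℕ} (u : Expo n d → ℂ) (i : Fin n) (p : UR n d) :
    spec u (pderiv (Sum.inr i) p) = pderiv i (spec u p) := by
  induction p using MvPolynomial.induction_on with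
  | C a =>
    have h : spec u (C a : UR n d) = C a := (spec u).commutes a
    rw [pderiv_C, map_zero, h, pderiv_C]
  | add p q hp hq =>
    have h1 : pderiv (Sum.inr i) (p + q) = pderiv (Sum.inr i) p + pderiv (Sum.inr i) q :=
      map_add _ _ _
    rw [h1, map_add, hp, hq, map_add, map_add]
  | mul_X p j hp =>
    have h1 : pderiv (Sum.inr i) (p * X j) =
      pderiv (Sum.inr i) p * X j + p * pderiv (Sum.inr i) (X j) := pderiv_mul
    have h2 : pderiv i (spec u p * spec u (X j)) =
      pderiv i (spec u p) * spec u (X j) + spec u p * pderiv i (spec u (X j)) := pderiv_mul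
    rw [h1, map_add, map_mul, map_mul, hp, spec_pderiv_X, map_mul, h2]

theorem spec_df {n d : ℕ} (u : Expo n d → ℂ) (i : Fin n) :
    spec u (df i) = pderiv i (formOf u) := by
  rw [df, spec_pderiv, spec_univF]

theorem spec_hess {n d : ℕ} (u : Expo n d → ℂ) : spec u (hess n d) = hessian (formOf u) := by
  unfold hess hessian
  rw [AlgHom.map_det]
  congr 1
  ext1 i j
  rw [AlgHom.mapMatrix_apply, Matrix.map_apply, Matrix.of_apply, hessMat, Matrix.of_apply,
    spec_pderiv, spec_pderiv, spec_univF]

theorem spec_jac {n d : ℕ} (u : Expo n d → ℂ) {p : UR n d} (hp : p ∈ jac n d) :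
    spec u p ∈ jacobianIdeal (formOf u) := by
  have h : (jac n d).map (spec u) ≤ jacobianIdeal (formOf u) := by
    rw [jac, Ideal.map_span, Ideal.span_le]
    rintro _ ⟨_, ⟨i, rfl⟩, rfl⟩
    have : (spec u) (df i : UR n d) = pderiv i (formOf u) := spec_df u i
    rw [this]
    exact Ideal.subset_span ⟨i, rfl⟩
  exact h (Ideal.mem_map_of_mem _ hp)

/-- evaluation at a point of the incidence space -/
theorem eval_spec {n d : ℕ} (u : Expo n d → ℂ) (q : Fin n → ℂ) (p : UR n d) :
    eval q (spec u p) = eval (Sum.elim u q) p := by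
  induction p using MvPolynomial.induction_on with
  | C a => simp [spec]
  | add p q hp hq => simp only [map_add, hp, hq]
  | mul_X p j hp =>
    rw [map_mul, map_mul, hp, map_mul, eval_X]
    congr 1
    rcases j with α | j <;> simp [spec]

end Pool.Agent.H917R3
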