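import Mathlib

/-!
# Leading monomials of ideals generated by polynomials with coprime leading monomials
-/

open MvPolynomial

namespace Pool.Agent.H917R3

section Groebner

variable {σ k ι : Type*} [Field k] (m : MonomialOrder σ)

/-- If the leading monomials of the `f i` are pairwise coprime, then the leading monomial of every
nonzero element of the ideal they generate is divisible by the leading monomial of some `f i`. -/
theorem exists_degree_le_of_mem_span (f : ι → MvPolynomial σ k) (hf : ∀ i, f i ≠ 0)
    (hcop : ∀ i j, i ≠ j → Disjoint (m.degree (f i)).support (m.degree (f j)).support)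
    (s : Finset ι) :
    ∀ g ∈ Ideal.span (f '' (s : Set ι)), g ≠ 0 → ∃ i ∈ s, m.degree (f i) ≤ m.degree g := by
  classical
  induction s using Finset.induction_on with
  | empty =>
    intro g hg h0
    simp at hg
    exact absurd hg h0
  | insert a s ha ih =>
    have key : ∀ (x : m.syn) (b a' : MvPolynomial σ k), m.toSyn (m.degree b) = x →
        a' ∈ Ideal.span (f '' (s : Set ι)) → b * f a + a' ≠ 0 →
        ∃ i ∈ insert a s, m.degree (f i) ≤ m.degree (b * f a + a') := by
      intro x
      induction x using WellFoundedLT.induction with
      | ind x IH =>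
        intro b a' hx ha' hne
        by_cases hb : b = 0
        · subst hb
          rw [zero_mul, zero_add] at hne ⊢
          obtain ⟨i, hi, hle⟩ := ih a' ha' hne
          exact ⟨i, Finset.mem_insert_of_mem hi, hle⟩
        have hp : b * f a ≠ 0 := mul_ne_zero hb (hf a)
        have hdp : m.degree (b * f a) = m.degree b + m.degree (f a) := m.degree_mul hb (hf a)
        rcases lt_trichotomy (m.toSyn (m.degree a')) (m.toSyn (m.degree (b * f a))) with h | h | h
        · refine ⟨a, Finset.mem_insert_self _ _, ?_⟩
          rw [MonomialOrder.degree_add_of_lt h, hdp]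
          exact le_add_self
        · by_cases ha0 : a' = 0
          · subst ha0
            refine ⟨a, Finset.mem_insert_self _ _, ?_⟩
            rw [add_zero, hdp]
            exact le_add_self
          obtain ⟨i, hi, hle⟩ := ih a' ha' ha0
          by_cases hdi : m.degree (f i) = 0
          · refine ⟨i, Finset.mem_insert_of_mem hi, ?_⟩
            rw [hdi]
            exact bot_le
          have hia : i ≠ a := fun h => ha (h ▸ hi)
          have heq : m.degree a' = m.degree b + m.degree (f a) := by
            rw [← hdp]
            exact m.toSyn.injective h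
          have hleb : m.degree (f i) ≤ m.degree b := by
            intro j
            by_cases hj : j ∈ (m.degree (f i)).support
            · have hj' : j ∉ (m.degree (f a)).support :=
                fun h' => (Finset.disjoint_left.mp (hcop i a hia)) hj h'
              have h1 := hle j
              rw [heq, Finsupp.add_apply, Finsupp.notMem_support_iff.mp hj', add_zero] at h1
              exact h1
            · rw [Finsupp.notMem_support_iff.mp hj]
              exact Nat.zero_le _
          have hu : IsUnit (m.leadingCoeff (f i)) :=
            (MonomialOrder.leadingCoeff_ne_zero_iff.mpr (hf i)).isUnit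
          have hb0 : m.degree b ≠ 0 := by
            intro h0
            rw [h0] at hleb
            exact hdi (le_antisymm hleb bot_le)
          have hlt := MonomialOrder.degree_reduce_lt hu hleb hb0
          set q := monomial (m.degree b - m.degree (f i)) (hu.unit⁻¹ * m.leadingCoeff b) with hq
          have hred : m.reduce hu b = b - q * f i := rfl
          have hsum : b * f a + a' = m.reduce hu b * f a + (a' + q * f a * f i) := by
            rw [hred]
            ring
          rw [hsum] at hne ⊢
          refine IH (m.toSyn (m.degree (m.reduce hu b))) (hx ▸ hlt) _ _ rfl ?_ hne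
          refine Ideal.add_mem _ ha' (Ideal.mul_mem_left _ _ (Ideal.subset_span ?_))
          exact ⟨i, hi, rfl⟩
        · have ha0 : a' ≠ 0 := by
            rintro rfl
            rw [MonomialOrder.degree_zero, map_zero] at h
            exact absurd h (not_lt.mpr (MonomialOrder.zero_le m _))
          obtain ⟨i, hi, hle⟩ := ih a' ha' ha0
          refine ⟨i, Finset.mem_insert_of_mem hi, ?_⟩
          rw [MonomialOrder.degree_add_eq_right_of_lt h]
          exact hle
    intro g hg hg0
    rw [Finset.coe_insert, Set.image_insert_eq, Ideal.mem_span_insert] at hg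
    obtain ⟨b, a', ha', rfl⟩ := hg
    exact key _ b a' rfl ha' hg0

end Groebner

end Pool.Agent.H917R3

namespace Pool.Agent.H917R3

/-- A monomial order in which every monomial involving a variable in `P` is larger than every
monomial not involving such variables. -/
theorem exists_monomialOrder {σ : Type} [Finite σ] (P : σ → Prop) :
    ∃ m : MonomialOrder.{0, 0} σ, ∀ μ ν : σ →₀ ℕ, (∀ x, P x → μ x = 0) → (∃ x, P x ∧ ν x ≠ 0) →
      m.toSyn μ < m.toSyn ν := by
  classical
  obtain ⟨N, ⟨e⟩⟩ := Finite.exists_equiv_fin σ
  let key : σ → ℕ ×ₗ ℕ := fun x => toLex (if P x then 0 else 1, (e x : ℕ))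
  have hkey : Function.Injective key := by
    intro x y h
    have h2 : (ofLex (key x)).2 = (ofLex (key y)).2 := by rw [h]
    exact e.injective (Fin.ext h2)
  let _ : LinearOrder σ := LinearOrder.lift' key hkey
  have _ : WellFoundedGT σ := Finite.to_wellFoundedGT
  have hlt : ∀ x y : σ, x < y ↔ key x < key y := fun x y => Iff.rfl
  have hP : ∀ x y : σ, x ≤ y → P y → P x := by
    intro x y hxy hy
    rcases hxy.lt_or_eq with h | h
    · rw [hlt, Prod.Lex.lt_iff] at h
      simp only [key, ofLex_toLex, if_pos hy] at h
      by_contra hx
      simp [if_neg hx] at h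
    · rwa [h]
  refine ⟨MonomialOrder.lex, ?_⟩
  intro μ ν hμ ⟨x0, hx0, hν⟩
  rw [MonomialOrder.lex_lt_iff, Finsupp.Lex.lt_iff]
  have hwf : WellFounded (fun x y : σ => x < y) := (inferInstance : WellFoundedLT σ).wf
  have hne : {x : σ | μ x ≠ ν x}.Nonempty := ⟨x0, by
    show μ x0 ≠ ν x0
    rw [hμ x0 hx0]
    exact hν.symm⟩
  obtain ⟨i, hi, hmin⟩ := hwf.has_min _ hne
  have hile : i ≤ x0 := by
    by_contra hcon
    refine hmin x0 ?_ (not_le.mp hcon)
    show μ x0 ≠ ν x0
    rw [hμ x0 hx0]
    exact hν.symm
  have hPi : P i := hP i x0 hile hx0
  refine ⟨i, ?_, ?_⟩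
  · intro j hj
    by_contra hcon
    exact hmin j hcon hj
  · have h1 : μ i = 0 := hμ i hPi
    have h2 : μ i ≠ ν i := hi
    show μ i < ν i
    omega

end Pool.Agent.H917R3
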