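import Pool.Agent.H917R3.Triang

/-!
# All directions of mutation are visible in triangulation charts
-/

set_option linter.unusedSectionVars false
set_option linter.unusedSimpArgs false

namespace Pool.Agent.H917R3.XC

section

variable {H V : Type} [DecidableEq H]

theorem prv_nxt {Δ : Tri H V} (hΔ : Δ.IsIdeal) (x : H) : Δ.prv (Δ.nxt x) = x := hΔ.nxt_three x

theorem nxt_prv {Δ : Tri H V} (hΔ : Δ.IsIdeal) (x : H) : Δ.nxt (Δ.prv x) = x := hΔ.nxt_three x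

theorem prv_prv {Δ : Tri H V} (hΔ : Δ.IsIdeal) (x : H) : Δ.prv (Δ.prv x) = Δ.nxt x := by
  show Δ.nxt (Δ.nxt (Δ.nxt (Δ.nxt x))) = Δ.nxt x
  rw [hΔ.nxt_three]

theorem eq_prv {Δ : Tri H V} (hΔ : Δ.IsIdeal) {x y : H} (h : x = Δ.nxt y) : y = Δ.prv x := by
  rw [h, prv_nxt hΔ]

theorem eq_nxt {Δ : Tri H V} (hΔ : Δ.IsIdeal) {x y : H} (h : x = Δ.prv y) : y = Δ.nxt x := by
  rw [h, nxt_prv hΔ]

theorem eq_opp {Δ : Tri H V} (hΔ : Δ.IsIdeal) {x y : H} (h : x = Δ.opp y) : y = Δ.opp x := by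
  rw [h, hΔ.opp_opp]

theorem prv_ne {Δ : Tri H V} (hΔ : Δ.IsIdeal) (x : H) : Δ.prv x ≠ x := by
  intro h
  have := eq_nxt hΔ h.symm
  exact hΔ.nxt_ne x this.symm

theorem prv_ne_nxt {Δ : Tri H V} (hΔ : Δ.IsIdeal) (x : H) : Δ.prv x ≠ Δ.nxt x := by
  intro h
  exact hΔ.nxt_ne (Δ.nxt x) h

theorem opp_ne_prv {Δ : Tri H V} (hΔ : Δ.IsIdeal) (x : H) : Δ.opp x ≠ Δ.prv x := by
  intro h
  have h1 := eq_opp hΔ h.symm
  have h2 := hΔ.not_self_folded (Δ.prv x)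
  rw [nxt_prv hΔ] at h2
  exact h2 h1.symm

/-- the configuration of two triangles with two common sides -/
structure Conf (Δ : Tri H V) (x : H) : Prop where
  e : Δ.opp (Δ.prv x) = Δ.nxt (Δ.opp x)
  n : Δ.opp (Δ.nxt x) ≠ Δ.prv (Δ.opp x)

theorem Conf.flippable_nxt {Δ : Tri H V} (hΔ : Δ.IsIdeal) {x : H} (c : Conf Δ x) :
    Δ.Flippable (Δ.nxt x) := by
  refine ⟨fun h => ?_, fun h => ?_⟩
  · rw [prv_nxt hΔ] at h
    exact c.n (eq_prv hΔ h)
  · have h1 := eq_opp hΔ h.symm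
    have h2 : Δ.prv (Δ.opp (Δ.nxt x)) = Δ.opp (Δ.prv x) := h1
    rw [c.e] at h2
    have h3 := eq_nxt hΔ h2.symm
    exact c.n h3

theorem Conf.flippable_prv {Δ : Tri H V} (hΔ : Δ.IsIdeal) {x : H} (c : Conf Δ x) :
    Δ.Flippable (Δ.prv (Δ.opp x)) := by
  refine ⟨fun h => ?_, fun h => ?_⟩
  · rw [prv_prv hΔ, ← c.e, hΔ.opp_opp] at h
    have h1 := eq_prv hΔ h
    rw [prv_prv hΔ] at h1
    exact c.n (eq_opp hΔ h1.symm).symm
  · rw [nxt_prv hΔ] at h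
    have h1 := eq_opp hΔ h.symm
    rw [hΔ.opp_opp] at h1
    have h2 := eq_nxt hΔ h1.symm
    exact c.n (eq_opp hΔ h2.symm).symm

theorem face_nxt {Δ : Tri H V} (hΔ : Δ.IsIdeal) (x : H) : Δ.face (Δ.nxt x) = Δ.face x :=
  ((hΔ.face_iff _ _).mpr (Or.inr (Or.inl rfl))).symm

theorem face_prv {Δ : Tri H V} (hΔ : Δ.IsIdeal) (x : H) : Δ.face (Δ.prv x) = Δ.face x :=
  ((hΔ.face_iff _ _).mpr (Or.inr (Or.inr rfl))).symm

theorem ne_opp_nxt {Δ : Tri H V} (hΔ : Δ.IsIdeal) (x : H) : x ≠ Δ.opp (Δ.nxt x) := by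
  intro h
  exact hΔ.not_self_folded x (eq_opp hΔ h).symm

theorem opp_inj {Δ : Tri H V} (hΔ : Δ.IsIdeal) {x y : H} (h : Δ.opp x = Δ.opp y) : x = y := by
  rw [← hΔ.opp_opp x, h, hΔ.opp_opp]

theorem nxt_inj {Δ : Tri H V} (hΔ : Δ.IsIdeal) {x y : H} (h : Δ.nxt x = Δ.nxt y) : x = y :=
  IsIdeal_inj hΔ _ _ h

theorem prv_inj {Δ : Tri H V} (hΔ : Δ.IsIdeal) {x y : H} (h : Δ.prv x = Δ.prv y) : x = y :=
  nxt_inj hΔ (nxt_inj hΔ h)

/-- the quadrilateral around `nxt x` -/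
theorem quadA {Δ : Tri H V} (hΔ : Δ.IsIdeal) (x : H) :
    Quad Δ (Δ.nxt x) (Δ.prv x) x (Δ.opp (Δ.nxt x)) (Δ.nxt (Δ.opp (Δ.nxt x)))
      (Δ.prv (Δ.opp (Δ.nxt x))) := by
  have h := hΔ.quad (Δ.nxt x)
  rw [prv_nxt hΔ] at h
  exact h

theorem Conf.not_InQ {Δ : Tri H V} (hΔ : Δ.IsIdeal) {x : H} (c : Conf Δ x) :
    ¬ InQ (Δ.nxt x) (Δ.prv x) x (Δ.opp (Δ.nxt x)) (Δ.nxt (Δ.opp (Δ.nxt x)))
      (Δ.prv (Δ.opp (Δ.nxt x))) (Δ.opp x) := by
  rintro ((h | h | h) | (h | h | h))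
  · exact c.n (eq_prv hΔ h)
  · exact hΔ.nxt_ne x (opp_inj hΔ h).symm
  · exact hΔ.opp_ne x h
  · have h1 := eq_nxt hΔ h
    rw [← c.e] at h1
    exact prv_ne_nxt hΔ x (opp_inj hΔ h1).symm
  · exact opp_ne_prv hΔ x h
  · exact hΔ.not_self_folded x h

/-- after the flip at `nxt x`, the edge `x` can be flipped, in the first case -/
theorem Conf.flippable_after {Δ : Tri H V} (hΔ : Δ.IsIdeal) {x : H} (c : Conf Δ x)
    (h1 : Δ.opp (Δ.prv (Δ.opp x)) ≠ Δ.nxt (Δ.opp (Δ.nxt x))) :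
    (Δ.flip (Δ.nxt x)).Flippable x := by
  have q := quadA hΔ x
  have v := q.vals
  have o := c.not_InQ hΔ
  have o1 := q.out hΔ o
  refine ⟨?_, ?_⟩
  · simp only [Tri.prv]
    rw [v.opp, v.vb, v.vc, hΔ.opp_opp, v.else1 o]
    intro h
    exact hΔ.opp_ne x (nxt_inj hΔ h).symm
  · simp only [Tri.prv]
    rw [v.opp, v.vb, v.else1 o, v.else1 o1]
    exact h1

end

section

variable {H V : Type} [DecidableEq H] [Fintype V] [DecidableEq V] {K : Type} [Field K] [Algebra ℂ K]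

/-- The pairs (ideal triangulation, seed) obtained from `(Δ₀, s₀)` by sequences of flips. -/
inductive TriChart (Δ₀ : Tri H V) (s₀ : Seed V K) : Tri H V → Seed V K → Prop
  | base : TriChart Δ₀ s₀ Δ₀ s₀
  | flip (Δ : Tri H V) (s : Seed V K) (h : H) : TriChart Δ₀ s₀ Δ s → Δ.Flippable h →
      TriChart Δ₀ s₀ (Δ.flip h) ((Δ.flipNodes h).foldl Seed.mutate s)

theorem TriChart.trans {Δ Δ' Δ'' : Tri H V} {s s' s'' : Seed V K} (h1 : TriChart Δ s Δ' s')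
    (h2 : TriChart Δ' s' Δ'' s'') : TriChart Δ s Δ'' s'' := by
  induction h2 with
  | base => exact h1
  | flip Δ₁ s₁ h _ hf ih => exact TriChart.flip Δ₁ s₁ h ih hf

theorem visible_flippable {Δ : Tri H V} (hΔ : Δ.IsIdeal) {s : Seed V K} (hs : s.Good) {f : K}
    (hreg : ∀ Δ' s', TriChart Δ s Δ' s' → s'.Regular f) {h : H} (hf : Δ.Flippable h) (k : V)
    (hk : k ∈ Δ.flipNodes h) : (s.mutate k).Regular f :=
  regular_of_foldl _ hs (hΔ.nodup h) (hreg _ _ TriChart.base)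
    (hreg _ _ (TriChart.flip _ _ h TriChart.base hf)) k hk

theorem edge_not_mem {Δ : Tri H V} (hΔ : Δ.IsIdeal) {x h : H} (h1 : x ≠ h) (h2 : x ≠ Δ.opp h) :
    Δ.edge x ∉ Δ.flipNodes h := by
  simp only [Tri.flipNodes, List.mem_cons, List.not_mem_nil, or_false, not_or]
  exact ⟨fun k => h1 (hΔ.edge_inj _ _ k), fun k => h2 (hΔ.edge_inj _ _ k), hΔ.edge_ne_face _ _,
    hΔ.edge_ne_face _ _⟩

theorem edge_flip {Δ : Tri H V} {x h : H} (h1 : x ≠ h) (h2 : x ≠ Δ.opp h) :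
    (Δ.flip h).edge x = Δ.edge x := by
  simp only [Tri.flip]
  rw [if_neg h1, if_neg h2]

/-- Transport of visibility of an edge node through a flip. -/
theorem visible_transport {Δ : Tri H V} (hΔ : Δ.IsIdeal) {s : Seed V K} (hs : s.Good) {f : K}
    (hreg : ∀ Δ' s', TriChart Δ s Δ' s' → s'.Regular f) {h x : H} (hf : Δ.Flippable h)
    (h1 : x ≠ h) (h2 : x ≠ Δ.opp h)
    (h3 : (((Δ.flipNodes h).foldl Seed.mutate s).mutate ((Δ.flip h).edge x)).Regular f) :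
    (s.mutate (Δ.edge x)).Regular f := by
  rw [edge_flip h1 h2] at h3
  exact regular_transport _ hs (hΔ.nodup h) (hreg _ _ TriChart.base)
    (hreg _ _ (TriChart.flip _ _ h TriChart.base hf)) _ (edge_not_mem hΔ h1 h2) h3

/-- First case. -/
theorem Conf.visible1 {Δ : Tri H V} (hΔ : Δ.IsIdeal) {s : Seed V K} (hs : s.Good) {f : K}
    (hreg : ∀ Δ' s', TriChart Δ s Δ' s' → s'.Regular f) {x : H} (c : Conf Δ x)
    (h1 : Δ.opp (Δ.prv (Δ.opp x)) ≠ Δ.nxt (Δ.opp (Δ.nxt x))) :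
    (s.mutate (Δ.edge x)).Regular f ∧ (s.mutate (Δ.edge (Δ.opp x))).Regular f := by
  have hf := c.flippable_nxt hΔ
  have hf' := c.flippable_after hΔ h1
  have hΔ' := hΔ.flip hf
  have hs' : ((Δ.flipNodes (Δ.nxt x)).foldl Seed.mutate s).Good := hs.foldl _
  have hreg' : ∀ Δ' s', TriChart (Δ.flip (Δ.nxt x))
      ((Δ.flipNodes (Δ.nxt x)).foldl Seed.mutate s) Δ' s' → s'.Regular f := fun Δ' s' h =>
    hreg Δ' s' ((TriChart.flip _ _ _ TriChart.base hf).trans h)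
  have hv := visible_flippable hΔ' hs' hreg' hf'
  have ho : (Δ.flip (Δ.nxt x)).opp = Δ.opp := rfl
  refine ⟨?_, ?_⟩
  · apply visible_transport hΔ hs hreg hf (hΔ.nxt_ne x).symm (ne_opp_nxt hΔ x)
    exact hv _ List.mem_cons_self
  · apply visible_transport hΔ hs hreg hf (hΔ.not_self_folded x)
      (fun h => hΔ.nxt_ne x (opp_inj hΔ h).symm)
    exact hv _ (List.mem_cons_of_mem _ List.mem_cons_self)

/-- Second case. -/
theorem Conf.visible2 {Δ : Tri H V} (hΔ : Δ.IsIdeal) {s : Seed V K} (hs : s.Good) {f : K}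
    (hreg : ∀ Δ' s', TriChart Δ s Δ' s' → s'.Regular f) {x : H} (c : Conf Δ x)
    (h2 : Δ.opp (Δ.prv (Δ.opp x)) = Δ.nxt (Δ.opp (Δ.nxt x))) :
    (s.mutate (Δ.edge x)).Regular f ∧ (s.mutate (Δ.edge (Δ.opp x))).Regular f := by
  -- the third side of the outer triangle
  obtain ⟨q, hq⟩ : ∃ q, q = Δ.prv (Δ.opp (Δ.nxt x)) := ⟨_, rfl⟩
  have hnq : Δ.nxt q = Δ.opp (Δ.nxt x) := by rw [hq, nxt_prv hΔ]
  have hpq : Δ.prv q = Δ.nxt (Δ.opp (Δ.nxt x)) := by rw [hq, prv_prv hΔ]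
  have hf : Δ.Flippable q := by
    refine ⟨fun h => ?_, fun h => ?_⟩
    · rw [hpq, ← h2, hΔ.opp_opp] at h
      have e1 : Δ.prv (Δ.opp x) = Δ.nxt (Δ.nxt (Δ.opp x)) := rfl
      rw [e1] at h
      have e2 := nxt_inj hΔ h
      rw [← c.e] at e2
      have e3 := opp_inj hΔ e2
      rw [hq] at e3
      have e4 := prv_inj hΔ e3
      exact ne_opp_nxt hΔ x e4
    · rw [hnq] at h
      have e1 := opp_inj hΔ h
      have e2 := eq_nxt hΔ e1.symm
      have e3 := eq_opp hΔ e2.symm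
      have e4 : Δ.nxt (Δ.nxt x) = Δ.prv x := rfl
      rw [e4, c.e] at e3
      rw [hq] at e3
      have e5 := eq_nxt hΔ e3.symm
      exact c.n e5
  have Q := hΔ.quad q
  rw [hnq, hpq] at Q
  have v := Q.vals
  obtain ⟨r, hr⟩ : ∃ r, r = Δ.nxt (Δ.opp q) := ⟨_, rfl⟩
  obtain ⟨t, ht⟩ : ∃ t, t = Δ.prv (Δ.opp q) := ⟨_, rfl⟩
  rw [← hr, ← ht] at Q v
  have hxq : x ≠ q := by
    intro h
    rw [← h] at hnq
    exact hΔ.opp_ne _ hnq.symm
  have hxq' : x ≠ Δ.opp q := by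
    intro h
    have e1 := eq_opp hΔ h
    rw [e1, ← c.e] at hnq
    exact prv_ne_nxt hΔ x (opp_inj hΔ hnq)
  have ox : ¬ InQ q (Δ.opp (Δ.nxt x)) (Δ.nxt (Δ.opp (Δ.nxt x))) (Δ.opp q) r t x := by
    rintro ((h | h | h) | (h | h | h))
    · rw [hr] at h
      have e2 := eq_opp hΔ (eq_prv hΔ h).symm
      rw [c.e] at e2
      rw [e2] at hnq
      exact c.n hnq.symm
    · exact hxq' h
    · have e1 := eq_prv hΔ h
      exact hΔ.not_self_folded (Δ.nxt x) e1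
    · rw [ht] at h
      have e2 := eq_opp hΔ (eq_nxt hΔ h).symm
      rw [← e2] at hnq
      exact hΔ.nxt_ne _ hnq
    · exact ne_opp_nxt hΔ x h
    · exact hxq h
  have oox : ¬ InQ q (Δ.opp (Δ.nxt x)) (Δ.nxt (Δ.opp (Δ.nxt x))) (Δ.opp q) r t (Δ.opp x) := by
    rintro ((h | h | h) | (h | h | h))
    · rw [hr] at h
      have e2 := eq_opp hΔ (eq_prv hΔ h).symm
      rw [h2, ← hpq] at e2
      exact prv_ne hΔ _ e2.symm
    · exact hxq (opp_inj hΔ h)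
    · exact c.n (eq_prv hΔ h)
    · rw [ht] at h
      have e1 := eq_nxt hΔ h
      rw [← c.e] at e1
      have e2 := opp_inj hΔ e1
      rw [e2, nxt_prv hΔ] at hnq
      exact ne_opp_nxt hΔ x hnq
    · exact hΔ.nxt_ne x (opp_inj hΔ h).symm
    · rw [← h, ← c.e] at hnq
      exact prv_ne_nxt hΔ x (opp_inj hΔ hnq)
  have hΔ' := hΔ.flip hf
  have hs' : ((Δ.flipNodes q).foldl Seed.mutate s).Good := hs.foldl _
  have hreg' : ∀ Δ' s', TriChart (Δ.flip q)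
      ((Δ.flipNodes q).foldl Seed.mutate s) Δ' s' → s'.Regular f := fun Δ' s' h =>
    hreg Δ' s' ((TriChart.flip _ _ _ TriChart.base hf).trans h)
  have ho : (Δ.flip q).opp = Δ.opp := rfl
  have hn1 : (Δ.flip q).nxt x = Δ.nxt x := v.else1 ox
  have hn2 : (Δ.flip q).nxt (Δ.nxt x) = Δ.prv x := v.else1 (Q.out hΔ ox)
  have hn3 : (Δ.flip q).nxt (Δ.opp x) = Δ.nxt (Δ.opp x) := v.else1 oox
  have hn4 : (Δ.flip q).nxt (Δ.nxt (Δ.opp x)) = Δ.prv (Δ.opp x) := v.else1 (Q.out hΔ oox)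
  have c' : Conf (Δ.flip q) x := by
    refine ⟨?_, ?_⟩
    · simp only [Tri.prv]
      rw [ho, hn1, hn2, hn3]
      exact c.e
    · simp only [Tri.prv]
      rw [ho, hn1, hn3, hn4]
      exact c.n
  have h1' : (Δ.flip q).opp ((Δ.flip q).prv ((Δ.flip q).opp x)) ≠
      (Δ.flip q).nxt ((Δ.flip q).opp ((Δ.flip q).nxt x)) := by
    simp only [Tri.prv]
    rw [ho, hn3, hn4, hn1, v.va, h2]
    exact Q.hb.symm
  have hv := c'.visible1 hΔ' hs' hreg' h1'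
  refine ⟨?_, ?_⟩
  · exact visible_transport hΔ hs hreg hf hxq hxq' hv.1
  · apply visible_transport hΔ hs hreg hf _ _ hv.2
    · intro h
      exact hxq' (eq_opp hΔ h.symm)
    · intro h
      exact hxq (opp_inj hΔ h)

/-- In the configuration of two triangles with exactly two common sides all the nodes are
visible. -/
theorem Conf.visible {Δ : Tri H V} (hΔ : Δ.IsIdeal) {s : Seed V K} (hs : s.Good) {f : K}
    (hreg : ∀ Δ' s', TriChart Δ s Δ' s' → s'.Regular f) {x : H} (c : Conf Δ x) :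
    ∀ k ∈ Δ.flipNodes x, (s.mutate k).Regular f := by
  have h1 : (s.mutate (Δ.edge x)).Regular f ∧ (s.mutate (Δ.edge (Δ.opp x))).Regular f := by
    by_cases h : Δ.opp (Δ.prv (Δ.opp x)) = Δ.nxt (Δ.opp (Δ.nxt x))
    · exact c.visible2 hΔ hs hreg h
    · exact c.visible1 hΔ hs hreg h
  have h2 := visible_flippable hΔ hs hreg (c.flippable_nxt hΔ) (Δ.face (Δ.nxt x))
    (by simp [Tri.flipNodes])
  have h3 := visible_flippable hΔ hs hreg (c.flippable_prv hΔ) (Δ.face (Δ.prv (Δ.opp x)))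
    (by simp [Tri.flipNodes])
  rw [face_nxt hΔ] at h2
  rw [face_prv hΔ] at h3
  intro k hk
  simp only [Tri.flipNodes, List.mem_cons, List.not_mem_nil, or_false] at hk
  rcases hk with rfl | rfl | rfl | rfl
  · exact h1.1
  · exact h1.2
  · exact h2
  · exact h3

/-- The triangulation is not the one of the thrice-punctured sphere: no two triangles with three
common sides glued in opposite cyclic orders. -/
def Tri.NotPillow (Δ : Tri H V) : Prop :=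
  ∀ x, ¬ (Δ.opp (Δ.prv x) = Δ.nxt (Δ.opp x) ∧ Δ.opp (Δ.nxt x) = Δ.prv (Δ.opp x))

theorem visible_all {Δ : Tri H V} (hΔ : Δ.IsIdeal) (hnp : Δ.NotPillow) {s : Seed V K}
    (hs : s.Good) {f : K} (hreg : ∀ Δ' s', TriChart Δ s Δ' s' → s'.Regular f) (v : V) :
    (s.mutate v).Regular f := by
  have key : ∀ x, ∀ k ∈ Δ.flipNodes x, (s.mutate k).Regular f := by
    intro x
    by_cases h1 : Δ.Flippable x
    · exact visible_flippable hΔ hs hreg h1
    · by_cases h2 : Δ.opp (Δ.prv x) = Δ.nxt (Δ.opp x)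
      · have c : Conf Δ x := ⟨h2, fun h3 => hnp x ⟨h2, h3⟩⟩
        exact c.visible hΔ hs hreg
      · have h3 : Δ.opp (Δ.prv (Δ.opp x)) = Δ.nxt x := by
          by_contra h3
          exact h1 ⟨h2, h3⟩
        have h4 : Δ.opp (Δ.prv (Δ.opp x)) = Δ.nxt (Δ.opp (Δ.opp x)) := by
          rw [hΔ.opp_opp]
          exact h3
        have c : Conf Δ (Δ.opp x) := ⟨h4, fun h5 => hnp (Δ.opp x) ⟨h4, h5⟩⟩
        have h6 := c.visible hΔ hs hreg
        intro k hk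
        apply h6 k
        simp only [Tri.flipNodes, List.mem_cons, List.not_mem_nil, or_false] at hk ⊢
        rw [hΔ.opp_opp]
        rcases hk with rfl | rfl | rfl | rfl
        · exact Or.inr (Or.inl rfl)
        · exact Or.inl rfl
        · exact Or.inr (Or.inr (Or.inr rfl))
        · exact Or.inr (Or.inr (Or.inl rfl))
  rcases hΔ.node v with ⟨x, rfl⟩ | ⟨x, rfl⟩
  · exact key x _ (by simp [Tri.flipNodes])
  · exact key x _ (by simp [Tri.flipNodes])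

/-- The positive answer: regularity on the charts of the ideal triangulations implies regularity on
all cluster charts. -/
theorem positive {Δ : Tri H V} (hΔ : Δ.IsIdeal) (hnp : Δ.NotPillow) {s : Seed V K}
    (hs : s.Good) {f : K} (hreg : ∀ Δ' s', TriChart Δ s Δ' s' → s'.Regular f) (t : Seed V K)
    (ht : MutEquiv s t) : t.Regular f :=
  regular_all hs (hreg _ _ TriChart.base) (visible_all hΔ hnp hs hreg) t ht

end

end Pool.Agent.H917R3.XC
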