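import Pool.Agent.H917R3.Assembly

/-!
# Existence of the discriminant
-/

open MvPolynomial

namespace Pool.Agent.H917R3

section loc

variable {n d : ℕ} {i : Fin n} {L : Type} [CommRing L] [Algebra (UR n d) L]

/-- substitution of the modified coefficients, on the full ring -/
noncomputable def modHomU (i : Fin n) (L : Type) [CommRing L] [Algebra (UR n d) L] (t : L) :
    UR n d →+* L :=
  eval₂Hom ((algebraMap (UR n d) L).comp C)
    (Sum.elim (modCoeff (n := n) (d := d) i L t) (fun j => algebraMap (UR n d) L (X (Sum.inr j))))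

theorem modHomU_congr (hd : 1 ≤ d) (t : L) (p : UR n d) :
    algebraMap (UR n d) L p - modHomU i L t p ∈ (jac n d).map (algebraMap (UR n d) L) := by
  set J := (jac n d).map (algebraMap (UR n d) L) with hJ
  induction p using MvPolynomial.induction_on with
  | C r =>
    have h1 : modHomU (n := n) (d := d) i L t (C r) = algebraMap (UR n d) L (C r) := by
      unfold modHomU
      rw [coe_eval₂Hom, eval₂_C, RingHom.comp_apply]
    rw [h1, sub_self]
    exact J.zero_mem
  | add p q hp hq =>
    rw [map_add, map_add, add_sub_add_comm]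
    exact J.add_mem hp hq
  | mul_X p x hp =>
    have h2 : algebraMap (UR n d) L (X x) - modHomU i L t (X x) ∈ J := by
      unfold modHomU
      rw [coe_eval₂Hom, eval₂_X]
      rcases x with α | j
      · rw [Sum.elim_inl, modCoeff, sub_sub_cancel]
        exact corr_coeff_mem i _ _ _ _ J
          (fun j => Ideal.mem_map_of_mem _ (df_mem_jac j))
          (Ideal.mem_map_of_mem _ (univF_mem_jac hd)) _
      · rw [Sum.elim_inr, sub_self]
        exact J.zero_mem
    have h3 : algebraMap (UR n d) L (p * X x) - modHomU i L t (p * X x) =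
        (algebraMap (UR n d) L p - modHomU i L t p) *
          algebraMap (UR n d) L (X x) +
        modHomU i L t p * (algebraMap (UR n d) L (X x) - modHomU i L t (X x)) := by
      rw [map_mul, map_mul]
      ring
    rw [h3]
    exact J.add_mem (J.mul_mem_right _ hp) (J.mul_mem_left _ h2)

theorem modHomU_eval (hd : 1 ≤ d) (t : L)
    (ht : algebraMap (UR n d) L (X (Sum.inr i)) * t = 1) (p : UR n d)
    (hp : ∀ (u : Expo n d → ℂ) (q : Fin n → ℂ), q i ≠ 0 →
      (∀ j, eval q (pderiv j (formOf u)) = 0) → eval (Sum.elim u q) p = 0)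
    (u : Expo n d → ℂ) (q : Fin n → ℂ) (hq : q i ≠ 0)
    (ev : L →+* ℂ) (hev : ∀ p, ev (algebraMap (UR n d) L p) = eval (Sum.elim u q) p) :
    ev (modHomU i L t p) = 0 := by
  have hevt : ev t = (q i)⁻¹ := by
    have h := congrArg ev ht
    rw [map_mul, hev, eval_X, map_one] at h
    exact eq_inv_of_mul_eq_one_right h
  set g := formOf u -
      corr d i (fun k => eval q (pderiv k (formOf u))) (eval q (formOf u)) q (q i)⁻¹ with hg
  have hgh : g.IsHomogeneous d :=
    (formOf_isHomogeneous u).sub (corr_isHomogeneous hd _ _ _ _ _)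
  have heva : (fun α => ev (modCoeff i L t α)) = coeffVec d g := by
    funext α
    unfold modCoeff coeffVec
    rw [map_sub, hev, eval_X, hg, coeff_sub, coeff_formOf, ← coeff_map, map_corr]
    have e1 : (fun j => ev (algebraMap (UR n d) L (df j))) =
        fun k => eval q (pderiv k (formOf u)) := by
      funext k
      rw [hev, ← eval_spec, spec_df]
    have e2 : ev (algebraMap (UR n d) L (univF n d)) = eval q (formOf u) := by
      rw [hev, ← eval_spec, spec_univF]
    have e3 : (fun j => ev (algebraMap (UR n d) L (X (Sum.inr j)))) = q := by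
      funext k
      rw [hev, eval_X]
      rfl
    rw [e1, e2, e3, hevt]
    rfl
  have hevθ : ev (modHomU i L t p) = eval (Sum.elim (coeffVec d g) q) p := by
    unfold modHomU
    rw [coe_eval₂Hom, hom_eval₂]
    have h1 : (ev.comp ((algebraMap (UR n d) L).comp C)) = RingHom.id ℂ := by
      apply RingHom.ext
      intro r
      rw [RingHom.comp_apply, RingHom.comp_apply, hev, eval_C]
      rfl
    have h2 : (fun x => ev (Sum.elim (modCoeff i L t)
        (fun j => algebraMap (UR n d) L (X (Sum.inr j))) x)) =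
        Sum.elim (coeffVec d g) q := by
      funext x
      rcases x with α | j
      · exact congrFun heva α
      · simp only [Sum.elim_inr]
        rw [hev, eval_X]
        rfl
    rw [h1, h2]
    rfl
  rw [hevθ]
  refine hp _ q hq fun j => ?_
  rw [formOf_coeffVec g hgh]
  exact corr_spec hd _ (formOf_isHomogeneous u) q i hq j

theorem modHomU_eq_zero (hd : 1 ≤ d) [IsLocalization.Away (X (Sum.inr i) : UR n d) L] (t : L)
    (ht : algebraMap (UR n d) L (X (Sum.inr i)) * t = 1) (p : UR n d)
    (hp : ∀ (u : Expo n d → ℂ) (q : Fin n → ℂ), q i ≠ 0 →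
      (∀ j, eval q (pderiv j (formOf u)) = 0) → eval (Sum.elim u q) p = 0) :
    modHomU i L t p = 0 := by
  obtain ⟨s, G, hG⟩ := IsLocalization.Away.surj (X (Sum.inr i) : UR n d) (modHomU i L t p)
  have hGz : G * X (Sum.inr i) = 0 := by
    apply MvPolynomial.funext
    intro x
    rw [map_mul, map_zero, eval_X]
    have hx : x = Sum.elim (fun α => x (Sum.inl α)) (fun j => x (Sum.inr j)) := by
      funext y
      rcases y with y | y <;> rfl
    by_cases hq : x (Sum.inr i) = 0
    · rw [hq, mul_zero]
    have hunit : IsUnit (eval x (X (Sum.inr i))) := by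
      rw [eval_X]
      exact isUnit_iff_ne_zero.mpr hq
    have hev : ∀ p, IsLocalization.Away.lift (S := L) (X (Sum.inr i) : UR n d) hunit
        (algebraMap (UR n d) L p) =
        eval (Sum.elim (fun α => x (Sum.inl α)) (fun j => x (Sum.inr j))) p := by
      intro p
      rw [IsLocalization.Away.lift_eq, ← hx]
    have hvan := modHomU_eval hd t ht p hp (fun α => x (Sum.inl α)) (fun j => x (Sum.inr j)) hq
      _ hev
    have h1 := congrArg (IsLocalization.Away.lift (S := L) (X (Sum.inr i) : UR n d) hunit) hG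
    rw [map_mul, hvan, zero_mul, IsLocalization.Away.lift_eq] at h1
    rw [← h1, zero_mul]
  have hG0 : G = 0 := by
    rcases mul_eq_zero.mp hGz with h | h
    · exact h
    · exact absurd h (X_ne_zero _)
  rw [hG0, map_zero] at hG
  have h4 : modHomU i L t p * (algebraMap (UR n d) L (X (Sum.inr i)) ^ s * t ^ s) = 0 := by
    rw [← mul_assoc, hG, zero_mul]
  rwa [← mul_pow, ht, one_pow, mul_one] at h4

/-- kernel of the substitution -/
theorem mem_of_modHomU_eq_zero (hd : 1 ≤ d) [IsLocalization.Away (X (Sum.inr i) : UR n d) L]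
    (t : L) (p : UR n d) (h0 : modHomU i L t p = 0) :
    ∃ s : ℕ, (X (Sum.inr i)) ^ s * p ∈ jac n d := by
  have hmem := modHomU_congr (i := i) hd t p
  rw [h0, sub_zero,
    IsLocalization.mem_map_algebraMap_iff (Submonoid.powers (X (Sum.inr i) : UR n d))] at hmem
  obtain ⟨⟨⟨p', hp'⟩, ⟨_, s, rfl⟩⟩, h⟩ := hmem
  simp only at h
  have hinj : Function.Injective (algebraMap (UR n d) L) := by
    apply IsLocalization.injective L (M := Submonoid.powers (X (Sum.inr i) : UR n d))
    exact powers_le_nonZeroDivisors_of_noZeroDivisors (X_ne_zero _)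
  refine ⟨s, ?_⟩
  have h3 : (X (Sum.inr i) : UR n d) ^ s * p = p' := by
    apply hinj
    rw [← h, mul_comm, map_mul]
  rw [h3]
  exact hp'

theorem modHomU_jac (hd : 1 ≤ d) [IsLocalization.Away (X (Sum.inr i) : UR n d) L] (t : L)
    (ht : algebraMap (UR n d) L (X (Sum.inr i)) * t = 1) (p : UR n d) (hp : p ∈ jac n d) :
    modHomU i L t p = 0 := by
  have h : jac n d ≤ RingHom.ker (modHomU i L t : UR n d →+* L) := by
    rw [jac, Ideal.span_le]
    rintro _ ⟨j, rfl⟩
    show (df j : UR n d) ∈ RingHom.ker (modHomU i L t : UR n d →+* L)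
    rw [RingHom.mem_ker]
    refine modHomU_eq_zero hd t ht _ fun u q _ hs => ?_
    rw [← eval_spec, spec_df]
    exact hs j
  exact RingHom.mem_ker.mp (h hp)

end loc

/-- the ideal of polynomials vanishing on the degenerate forms -/
def vanIdeal (n d : ℕ) : Ideal (MvPolynomial (Expo n d) ℂ) where
  carrier := {D | ∀ f : MvPolynomial (Fin n) ℂ, f.IsHomogeneous d → Degenerate f →
      eval (coeffVec d f) D = 0}
  zero_mem' := fun f _ _ => map_zero _
  add_mem' := by
    intro a b ha hb f hf hdeg
    rw [map_add, ha f hf hdeg, hb f hf hdeg, add_zero]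
  smul_mem' := by
    intro c a ha f hf hdeg
    rw [smul_eq_mul, map_mul, ha f hf hdeg, mul_zero]

theorem mem_vanIdeal {n d : ℕ} {D : MvPolynomial (Expo n d) ℂ} : D ∈ vanIdeal n d ↔
    ∀ f : MvPolynomial (Fin n) ℂ, f.IsHomogeneous d → Degenerate f →
      eval (coeffVec d f) D = 0 := Iff.rfl

theorem mem_vanIdeal_of_inertia {n d : ℕ} (D : MvPolynomial (Expo n d) ℂ)
    (h : ∀ i : Fin n, ∃ s : ℕ, (X (Sum.inr i)) ^ s * rename Sum.inl D ∈ jac n d) :
    D ∈ vanIdeal n d := by
  rw [mem_vanIdeal]
  rintro f hf ⟨q, hq0, hq⟩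
  obtain ⟨i, hi⟩ := Function.ne_iff.mp hq0
  obtain ⟨s, hs⟩ := h i
  have h1 := spec_jac (coeffVec d f) hs
  rw [formOf_coeffVec f hf] at h1
  have h2 : ∀ p ∈ jacobianIdeal f, eval q p = 0 := by
    intro p hp
    have : jacobianIdeal f ≤ RingHom.ker (eval q) := by
      rw [jacobianIdeal, Ideal.span_le]
      rintro _ ⟨j, rfl⟩
      exact hq j
    exact this hp
  have h3 := h2 _ h1
  rw [map_mul, spec_rename_inl, map_pow, spec_X_inr, map_mul, map_pow, eval_X, eval_C] at h3
  rcases mul_eq_zero.mp h3 with h4 | h4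
  · exact absurd h4 (pow_ne_zero s hi)
  · exact h4

theorem inertia_transfer {n d : ℕ} (hd : 1 ≤ d) (D : MvPolynomial (Expo n d) ℂ) (i j : Fin n)
    (h : ∃ s : ℕ, (X (Sum.inr i)) ^ s * rename Sum.inl D ∈ jac n d) :
    ∃ s : ℕ, (X (Sum.inr j)) ^ s * rename Sum.inl D ∈ jac n d := by
  obtain ⟨s, hs⟩ := h
  have key : ∀ (L : Type) [CommRing L] [Algebra (UR n d) L]
      [IsLocalization.Away (X (Sum.inr j) : UR n d) L],
      ∃ s : ℕ, (X (Sum.inr j)) ^ s * rename Sum.inl D ∈ jac n d := by
    intro L _ _ _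
    have hle : Submonoid.powers (X (Sum.inr j) : UR n d) ≤ nonZeroDivisors (UR n d) :=
      powers_le_nonZeroDivisors_of_noZeroDivisors (X_ne_zero _)
    have : IsDomain L := IsLocalization.isDomain_of_le_nonZeroDivisors L hle
    have hinj : Function.Injective (algebraMap (UR n d) L) := IsLocalization.injective L hle
    have ht := IsLocalization.Away.mul_invSelf (S := L) (X (Sum.inr j) : UR n d)
    have h1 := modHomU_jac (i := j) hd _ ht _ hs
    rw [map_mul, map_pow] at h1
    have h2 : modHomU (n := n) (d := d) j L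
        (IsLocalization.Away.invSelf (S := L) (X (Sum.inr j) : UR n d))
        (X (Sum.inr i)) = algebraMap (UR n d) L (X (Sum.inr i)) := by
      unfold modHomU
      rw [coe_eval₂Hom, eval₂_X, Sum.elim_inr]
    rw [h2] at h1
    rcases mul_eq_zero.mp h1 with h3 | h3
    · exfalso
      refine pow_ne_zero s ?_ h3
      rw [Ne, map_eq_zero_iff _ hinj]
      exact X_ne_zero _
    · exact mem_of_modHomU_eq_zero hd _ _ h3
  exact key (Localization.Away (X (Sum.inr j) : UR n d))

theorem vanIdeal_isPrime {n d : ℕ} (hn : 1 ≤ n) (hd : 1 ≤ d) : (vanIdeal n d).IsPrime := by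
  have key : ∀ (L : Type) [CommRing L] [Algebra (UR n d) L]
      [IsLocalization.Away (X (Sum.inr ⟨0, hn⟩) : UR n d) L], (vanIdeal n d).IsPrime := by
    intro L _ _ _
    have hle : Submonoid.powers (X (Sum.inr ⟨0, hn⟩) : UR n d) ≤ nonZeroDivisors (UR n d) :=
      powers_le_nonZeroDivisors_of_noZeroDivisors (X_ne_zero _)
    have : IsDomain L := IsLocalization.isDomain_of_le_nonZeroDivisors L hle
    have ht := IsLocalization.Away.mul_invSelf (S := L) (X (Sum.inr ⟨0, hn⟩) : UR n d)
    have h1 : vanIdeal n d = RingHom.ker ((modHomU ⟨0, hn⟩ L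
        (IsLocalization.Away.invSelf (S := L) (X (Sum.inr ⟨0, hn⟩) : UR n d))).comp
        (rename Sum.inl : MvPolynomial (Expo n d) ℂ →ₐ[ℂ] UR n d).toRingHom) := by
      ext D
      rw [RingHom.mem_ker]
      constructor
      · intro hD
        obtain ⟨s, hs⟩ := inertia_of_vanish hd D hD ⟨0, hn⟩
        have h2 := modHomU_jac (i := ⟨0, hn⟩) hd _ ht _ hs
        rw [map_mul, map_pow] at h2
        have h3 : modHomU (n := n) (d := d) ⟨0, hn⟩ L (IsLocalization.Away.invSelf (S := L)
            (X (Sum.inr ⟨0, hn⟩) : UR n d)) (X (Sum.inr ⟨0, hn⟩)) =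
            algebraMap (UR n d) L (X (Sum.inr ⟨0, hn⟩)) := by
          unfold modHomU
          rw [coe_eval₂Hom, eval₂_X, Sum.elim_inr]
        rw [h3] at h2
        have hu : IsUnit (algebraMap (UR n d) L (X (Sum.inr ⟨0, hn⟩)) ^ s) :=
          (IsUnit.of_mul_eq_one _ ht).pow s
        exact (hu.mul_right_eq_zero).mp h2
      · intro hD
        have h2 := mem_of_modHomU_eq_zero (i := ⟨0, hn⟩) hd _ (rename Sum.inl D) hD
        exact mem_vanIdeal_of_inertia D fun j => inertia_transfer hd D ⟨0, hn⟩ j h2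
    rw [h1]
    exact RingHom.ker_isPrime _
  exact key (Localization.Away (X (Sum.inr ⟨0, hn⟩) : UR n d))

end Pool.Agent.H917R3
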