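import Pool.Agent.H917R3.Disc

/-!
# Existence of the discriminant, continued
-/

open MvPolynomial

namespace Pool.Agent.H917R3

/-- For a nondegenerate form all forms of large degree lie in the Jacobian ideal. -/
theorem exists_large {n : ℕ} (hn : 1 ≤ n) (f : MvPolynomial (Fin n) ℂ) (hf : ¬ Degenerate f) :
    ∃ M0 : ℕ, ∀ M, M0 ≤ M → ∀ p : MvPolynomial (Fin n) ℂ, p.IsHomogeneous M →
      p ∈ jacobianIdeal f := by
  classical
  have hrad : ∀ i : Fin n, (X i : MvPolynomial (Fin n) ℂ) ∈ (jacobianIdeal f).radical := by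
    intro i
    rw [← vanishingIdeal_zeroLocus_eq_radical (K := ℂ), mem_vanishingIdeal_iff]
    intro q hq
    rw [mem_zeroLocus_iff] at hq
    have hq0 : q = 0 := by
      by_contra hne
      apply hf
      refine ⟨q, hne, fun j => ?_⟩
      have := hq (pderiv j f) (Ideal.subset_span ⟨j, rfl⟩)
      rwa [aeval_eq_eval] at this
    rw [hq0, aeval_X]
    rfl
  choose s hs using hrad
  refine ⟨∑ i, s i, fun M hM p hp => ?_⟩
  rw [p.as_sum]
  refine Ideal.sum_mem _ fun γ hγ => ?_
  have hdeg : ∑ i, γ i = M := by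
    have h3 := hp (mem_support_iff.mp hγ)
    rw [← Finsupp.degree_eq_sum, ← h3, Finsupp.degree_eq_weight_one]
    rfl
  by_cases hex : ∃ i, s i ≤ γ i
  · obtain ⟨i, hi⟩ := hex
    have h1 : (monomial γ (coeff γ p) : MvPolynomial (Fin n) ℂ) =
        monomial (γ - Finsupp.single i (s i)) (coeff γ p) * X i ^ s i := by
      rw [X_pow_eq_monomial, monomial_mul, mul_one, tsub_add_cancel_of_le]
      rw [Finsupp.single_le_iff]
      exact hi
    rw [h1]
    exact Ideal.mul_mem_left _ _ (hs i)
  · push Not at hex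
    exfalso
    have : ∑ i, γ i < ∑ i, s i := by
      refine Finset.sum_lt_sum_of_nonempty ?_ fun i _ => hex i
      exact ⟨⟨0, hn⟩, Finset.mem_univ _⟩
    omega

/-- The discriminant locus is closed: a nondegenerate form is separated from the degenerate ones
by a polynomial. -/
theorem exists_vanIdeal_ne {n d : ℕ} (hn : 1 ≤ n) (f : MvPolynomial (Fin n) ℂ)
    (hfd : f.IsHomogeneous d) (hf : ¬ Degenerate f) :
    ∃ a ∈ vanIdeal n d, eval (coeffVec d f) a ≠ 0 := by
  obtain ⟨M0, hM0⟩ := exists_large hn f hf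
  have h := exists_multiplier (N := M0 + d) (by omega) (coeffVec d f) (fun p hp => by
    rw [formOf_coeffVec f hfd]
    exact hM0 (M0 + d) (by omega) p hp)
  obtain ⟨a, ha1, ha2⟩ := h
  refine ⟨a, mem_vanIdeal_of_inertia a fun i => ⟨M0 + d, ?_⟩, by rw [ha1]; exact one_ne_zero⟩
  have h1 := ha2 ⟨Finsupp.single i (M0 + d), by simp⟩
  rw [rename_monomial, Finsupp.mapDomain_single, ← X_pow_eq_monomial] at h1
  rwa [mul_comm]

theorem fermat_nondegenerate {n d : ℕ} (hd : 2 ≤ d) :
    ¬ Degenerate (∑ i : Fin n, (X i : MvPolynomial (Fin n) ℂ) ^ d) := by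
  classical
  rintro ⟨q, hq0, hq⟩
  apply hq0
  funext i
  have h1 := hq i
  rw [map_sum, map_sum, Finset.sum_eq_single i] at h1
  · rw [pderiv_pow, pderiv_X_self] at h1
    simp only [map_mul, map_natCast, map_pow, eval_X, mul_one] at h1
    rcases mul_eq_zero.mp h1 with h2 | h2
    · exfalso
      have : d = 0 := by exact_mod_cast h2
      omega
    · by_contra hne
      exact pow_ne_zero _ hne h2
  · intro j _ hj
    rw [pderiv_pow, pderiv_X_of_ne hj]
    simp
  · simp

theorem vanIdeal_ne_bot {n d : ℕ} (hn : 1 ≤ n) (hd : 2 ≤ d) : vanIdeal n d ≠ ⊥ := by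
  have hh : (∑ i : Fin n, (X i : MvPolynomial (Fin n) ℂ) ^ d).IsHomogeneous d := by
    refine IsHomogeneous.sum _ _ _ fun i _ => ?_
    have := (isHomogeneous_X ℂ i).pow d
    rwa [one_mul] at this
  obtain ⟨a, ha, ha'⟩ := exists_vanIdeal_ne hn _ hh (fermat_nondegenerate hd)
  intro h
  rw [h, Ideal.mem_bot] at ha
  rw [ha, map_zero] at ha'
  exact ha' rfl

/-- weight counting the degree in the coefficients -/
def wu (n d : ℕ) : Expo n d ⊕ Fin n → ℕ := Sum.elim (fun _ => 1) (fun _ => 0)

theorem univF_wu {n d : ℕ} : IsWeightedHomogeneous (wu n d) (univF n d) 1 := by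
  unfold univF lin
  refine IsWeightedHomogeneous.sum _ _ _ fun α _ => ?_
  have h1 : IsWeightedHomogeneous (wu n d) (X (Sum.inl α) : UR n d) 1 :=
    isWeightedHomogeneous_X _ _ _
  have h2 : IsWeightedHomogeneous (wu n d) (rename Sum.inr (monomial α.1 (1 : ℂ)) : UR n d) 0 := by
    rw [rename_monomial]
    refine isWeightedHomogeneous_monomial _ _ _ ?_
    rw [Finsupp.weight_apply, Finsupp.sum_fintype _ _ (by simp), Fintype.sum_sum_type]
    have : ∀ β : Expo n d, (Finsupp.mapDomain Sum.inr α.1 : (Expo n d ⊕ Fin n) →₀ ℕ) (Sum.inl β) =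
        0 := fun i => Finsupp.mapDomain_of_notMem_range _ _ (by simp)
    simp [wu, this]
  have := h1.mul h2
  rwa [add_zero] at this

theorem hess_wu {n d : ℕ} : IsWeightedHomogeneous (wu n d) (hess n d) n := by
  rw [hess, Matrix.det_apply]
  have hM : ∀ i j : Fin n, IsWeightedHomogeneous (wu n d) (hessMat n d i j) 1 := by
    intro i j
    have h1 : IsWeightedHomogeneous (wu n d) (df j : UR n d) 1 :=
      univF_wu.pderiv (i := Sum.inr j) (by simp [wu])
    exact h1.pderiv (i := Sum.inr i) (by simp [wu])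
  refine IsWeightedHomogeneous.sum _ _ _ fun π _ => ?_
  have h : IsWeightedHomogeneous (wu n d) (∏ i : Fin n, hessMat n d (π i) i) n := by
    have := IsWeightedHomogeneous.prod Finset.univ (fun i : Fin n => hessMat n d (π i) i)
      (fun _ => 1) (w := wu n d) (fun i _ => hM _ _)
    simpa using this
  rcases Int.units_eq_one_or (Equiv.Perm.sign π) with h1 | h1
  · rw [h1, one_smul]
    exact h
  · rw [h1, Units.neg_smul, one_smul]
    exact h.neg

/-- The coefficients of the key congruence are not all divisible by `P`. -/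
theorem exists_not_dvd {n d : ℕ} (hn : 1 ≤ n) (hd : 3 ≤ d) (P : MvPolynomial (Expo n d) ℂ)
    (hP : P ≠ 0) (c : Expo n (n * (d - 2)) → MvPolynomial (Expo n d) ℂ)
    (hc : ∀ γ, rename Sum.inl P * rename Sum.inr (monomial γ.1 1) -
      rename Sum.inl (c γ) * hess n d ∈ jac n d) : ∃ γ, ¬ P ∣ c γ := by
  classical
  by_contra hcon
  push Not at hcon
  choose e he using hcon
  -- for every monomial of critical degree
  have key : ∀ μ : (Expo n d ⊕ Fin n) →₀ ℕ, μ ∈ (hess n d).support →
      ∃ E : MvPolynomial (Expo n d) ℂ, eval 0 E = 0 ∧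
        rename Sum.inl P * monomial μ (coeff μ (hess n d)) -
          rename Sum.inl (P * E) * hess n d ∈ jac n d := by
    intro μ hμ
    have hw : Finsupp.weight (wz n d) μ = n * (d - 2) :=
      hess_wh (by omega) (mem_support_iff.mp hμ)
    rw [weight_wz] at hw
    have hwu : Finsupp.weight (wu n d) μ = n := hess_wu (mem_support_iff.mp hμ)
    let μ1 : Expo n d →₀ ℕ := μ.comapDomain Sum.inl Sum.inl_injective.injOn
    let μ2 : Fin n →₀ ℕ := μ.comapDomain Sum.inr Sum.inr_injective.injOn
    have hμ2 : μ2.degree = n * (d - 2) := by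
      rw [Finsupp.degree_eq_sum, ← hw]
      rfl
    have hsplit : μ = μ1.mapDomain Sum.inl + μ2.mapDomain Sum.inr := by
      ext x
      rcases x with x | x
      · rw [Finsupp.add_apply, Finsupp.mapDomain_apply Sum.inl_injective,
          Finsupp.mapDomain_of_notMem_range _ _ (by simp), add_zero]
        rfl
      · rw [Finsupp.add_apply, Finsupp.mapDomain_apply Sum.inr_injective,
          Finsupp.mapDomain_of_notMem_range _ _ (by simp), zero_add]
        rfl
    have hμ1 : μ1 ≠ 0 := by
      intro h0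
      have h1 : ∀ α : Expo n d, μ (Sum.inl α) = 0 := by
        intro α
        have := DFunLike.congr_fun h0 α
        exact this
      rw [Finsupp.weight_apply, Finsupp.sum_fintype _ _ (by simp), Fintype.sum_sum_type] at hwu
      simp [wu, h1] at hwu
      omega
    refine ⟨monomial μ1 (coeff μ (hess n d)) * e ⟨μ2, hμ2⟩, ?_, ?_⟩
    · have : eval (0 : Expo n d → ℂ) (monomial μ1 (coeff μ (hess n d))) = 0 := by
        obtain ⟨α, hα⟩ := Finsupp.ne_iff.mp hμ1
        rw [eval_monomial, Finsupp.prod]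
        rw [Finset.prod_eq_zero (i := α) (Finsupp.mem_support_iff.mpr hα), mul_zero]
        exact zero_pow hα
      rw [map_mul, this, zero_mul]
    · have h1 : (monomial μ (coeff μ (hess n d)) : UR n d) =
          rename Sum.inl (monomial μ1 (coeff μ (hess n d))) *
          (rename Sum.inr (monomial μ2 1) : UR n d) := by
        rw [rename_monomial, rename_monomial, monomial_mul, mul_one, ← hsplit]
      have h2 := Ideal.mul_mem_left _ (rename Sum.inl (monomial μ1 (coeff μ (hess n d))))
        (hc ⟨μ2, hμ2⟩)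
      rw [he ⟨μ2, hμ2⟩] at h2
      rw [h1]
      convert h2 using 1
      simp only [map_mul]
      ring
  choose! E hE1 hE2 using key
  have hsum : rename Sum.inl P * hess n d -
      rename Sum.inl (P * ∑ μ ∈ (hess n d).support, E μ) * hess n d ∈ jac n d := by
    have h1 : rename Sum.inl P * hess n d -
        rename Sum.inl (P * ∑ μ ∈ (hess n d).support, E μ) * hess n d =
        ∑ μ ∈ (hess n d).support, (rename Sum.inl P * monomial μ (coeff μ (hess n d)) -
          rename Sum.inl (P * E μ) * hess n d) := by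
      rw [Finset.sum_sub_distrib, ← Finset.mul_sum, ← Finset.sum_mul, ← map_sum, ← Finset.mul_sum,
        support_sum_monomial_coeff]
    rw [h1]
    exact Ideal.sum_mem _ hE2
  rw [← sub_mul, ← map_sub] at hsum
  have h0 := hess_torsionfree (by omega) _ hsum
  have h1 : P * (1 - ∑ μ ∈ (hess n d).support, E μ) = 0 := by
    rw [mul_sub, mul_one]
    exact h0
  rcases mul_eq_zero.mp h1 with h2 | h2
  · exact hP h2
  · have h3 := congrArg (eval 0) h2
    rw [map_sub, map_one, map_sum, Finset.sum_eq_zero hE1, map_zero, sub_zero] at h3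
    exact one_ne_zero h3

/-- The discriminant exists. -/
theorem exists_isDiscriminant {n d : ℕ} (hn : 1 ≤ n) (hd : 3 ≤ d) :
    ∃ Δ : MvPolynomial (Expo n d) ℂ, IsDiscriminant n d Δ := by
  classical
  obtain ⟨P, hPmem, hPprime⟩ :=
    (vanIdeal_isPrime (n := n) (d := d) hn (by omega)).exists_mem_prime_of_ne_bot
      (vanIdeal_ne_bot hn (by omega))
  have hcong := fun (D : MvPolynomial (Expo n d) ℂ) (hD : D ∈ vanIdeal n d)
    (γ : Expo n (n * (d - 2))) =>
    crit_congr hn hd D hD (monomial γ.1 1) (isHomogeneous_monomial _ γ.2)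
  choose c hc using hcong
  obtain ⟨γ, hγ⟩ := exists_not_dvd hn hd P hPprime.ne_zero (c P hPmem) (hc P hPmem)
  have hgen : ∀ D ∈ vanIdeal n d, P ∣ D := by
    intro D hD
    have h1 := Ideal.mul_mem_left _ (rename Sum.inl P) (hc D hD γ)
    have h2 := Ideal.mul_mem_left _ (rename Sum.inl D) (hc P hPmem γ)
    have h3 := Ideal.sub_mem _ h2 h1
    have h4 : rename Sum.inl (P * c D hD γ - D * c P hPmem γ) * hess n d ∈ jac n d := by
      convert h3 using 1
      simp only [map_mul, map_sub]
      ring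
    have h5 := hess_torsionfree (by omega) _ h4
    have h6 : P ∣ D * c P hPmem γ := ⟨c D hD γ, (sub_eq_zero.mp h5).symm⟩
    exact (hPprime.dvd_or_dvd h6).resolve_right hγ
  refine ⟨P, hPprime.irreducible, fun f hf => ⟨fun h => ?_, fun h => hPmem f hf h⟩⟩
  by_contra hnd
  obtain ⟨a, ha, ha'⟩ := exists_vanIdeal_ne hn f hf hnd
  obtain ⟨b, rfl⟩ := hgen a ha
  rw [map_mul, h, zero_mul] at ha'
  exact ha' rfl

end Pool.Agent.H917R3
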