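import Pool.Agent.H917R3.AssocDefs

/-!
# Polynomials vanishing on the degenerate forms are inertia forms
-/

open MvPolynomial

namespace Pool.Agent.H917R3

section corr

variable {n : ℕ} {R : Type*} [CommRing R]

/-- The correction making a form singular at a given point. -/
noncomputable def corr (d : ℕ) (i : Fin n) (c : Fin n → R) (F : R) (z : Fin n → R) (t : R) :
    MvPolynomial (Fin n) R :=
  (∑ j ∈ Finset.univ.erase i, C (c j * t ^ (d - 1)) * (X i ^ (d - 1) * (X j - C (z j * t) * X i)))
    + C (F * t ^ d) * X i ^ d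

theorem corr_isHomogeneous {d : ℕ} (hd : 1 ≤ d) (i : Fin n) (c : Fin n → R) (F : R)
    (z : Fin n → R) (t : R) : (corr d i c F z t).IsHomogeneous d := by
  unfold corr
  refine IsHomogeneous.add (IsHomogeneous.sum _ _ _ fun j _ => ?_) ?_
  · have h1 : (X i ^ (d - 1) * (X j - C (z j * t) * X i) : MvPolynomial (Fin n) R).IsHomogeneous
        ((d - 1) + 1) := by
      refine IsHomogeneous.mul ?_ ?_
      · have := (isHomogeneous_X R i).pow (d - 1)
        rwa [one_mul] at this
      · exact (isHomogeneous_X R j).sub ((isHomogeneous_X R i).C_mul _)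
    have h2 : d - 1 + 1 = d := by omega
    rw [h2] at h1
    exact h1.C_mul _
  · have := (isHomogeneous_X R i).pow d
    rw [one_mul] at this
    exact this.C_mul _

theorem map_corr {S : Type*} [CommRing S] (φ : R →+* S) (d : ℕ) (i : Fin n) (c : Fin n → R) (F : R)
    (z : Fin n → R) (t : R) : map φ (corr d i c F z t) =
      corr d i (fun j => φ (c j)) (φ F) (fun j => φ (z j)) (φ t) := by
  unfold corr
  simp [map_sum]

theorem corr_coeff_mem {d : ℕ} (i : Fin n) (c : Fin n → R) (F : R)
    (z : Fin n → R) (t : R) (J : Ideal R) (hc : ∀ j, c j ∈ J) (hF : F ∈ J) (α : Fin n →₀ ℕ) :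
    (corr d i c F z t).coeff α ∈ J := by
  have h : corr d i c F z t ∈ Ideal.map (C : R →+* MvPolynomial (Fin n) R) J := by
    unfold corr
    refine Ideal.add_mem _ (Ideal.sum_mem _ fun j _ => Ideal.mul_mem_right _ _ ?_)
      (Ideal.mul_mem_right _ _ ?_)
    · exact Ideal.mem_map_of_mem _ (Ideal.mul_mem_right _ _ (hc j))
    · exact Ideal.mem_map_of_mem _ (Ideal.mul_mem_right _ _ hF)
  exact mem_map_C_iff.mp h α

end corr

theorem corr_spec {n d : ℕ} (hd : 1 ≤ d) (f : MvPolynomial (Fin n) ℂ) (hf : f.IsHomogeneous d)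
    (q : Fin n → ℂ) (i : Fin n) (hi : q i ≠ 0) (j : Fin n) :
    eval q (pderiv j (f - corr d i (fun k => eval q (pderiv k f)) (eval q f) q (q i)⁻¹)) = 0 := by
  classical
  set K := corr d i (fun k => eval q (pderiv k f)) (eval q f) q (q i)⁻¹ with hK
  have hne : ∀ j, j ≠ i → eval q (pderiv j K) = eval q (pderiv j f) := by
    intro j hj
    have h1 : ∀ k ∈ Finset.univ.erase i, eval q (pderiv j
        (C (eval q (pderiv k f) * (q i)⁻¹ ^ (d - 1)) * (X i ^ (d - 1) * (X k - C (q k * (q i)⁻¹) * X i))))
          = if k = j then eval q (pderiv k f) else 0 := by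
      intro k _
      have hXi : pderiv j (X i : MvPolynomial (Fin n) ℂ) = 0 := pderiv_X_of_ne (Ne.symm hj)
      have hXi' : pderiv j ((X i : MvPolynomial (Fin n) ℂ) ^ (d - 1)) = 0 := by
        rw [pderiv_pow, hXi, mul_zero]
      rw [pderiv_C_mul, pderiv_mul, hXi', zero_mul, zero_add, map_sub, pderiv_C_mul, hXi,
        mul_zero, sub_zero]
      by_cases hkj : k = j
      · subst hkj
        rw [pderiv_X_self, if_pos rfl]
        simp only [map_mul, eval_C, map_pow, eval_X, mul_one]
        rw [mul_assoc, ← mul_pow, inv_mul_cancel₀ hi, one_pow, mul_one]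
      · rw [if_neg hkj, pderiv_X_of_ne hkj]
        simp
    have h2 : eval q (pderiv j (C (eval q f * (q i)⁻¹ ^ d) * X i ^ d : MvPolynomial (Fin n) ℂ)) = 0 := by
      rw [pderiv_C_mul, pderiv_pow, pderiv_X_of_ne (Ne.symm hj)]
      simp
    rw [hK, corr, map_add, map_sum, map_add, map_sum, h2, Finset.sum_congr rfl h1,
      Finset.sum_ite_eq', if_pos (Finset.mem_erase.mpr ⟨hj, Finset.mem_univ _⟩), add_zero]
  have hval : eval q K = eval q f := by
    rw [hK, corr, map_add, map_sum, Finset.sum_eq_zero, zero_add]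
    · simp only [map_mul, eval_C, map_pow, eval_X]
      rw [mul_assoc, ← mul_pow, inv_mul_cancel₀ hi, one_pow, mul_one]
    · intro k _
      simp only [map_mul, eval_C, map_pow, eval_X, map_sub]
      rw [mul_assoc (q k), inv_mul_cancel₀ hi, mul_one, sub_self, mul_zero, mul_zero]
  have hKh : K.IsHomogeneous d := corr_isHomogeneous hd _ _ _ _ _
  have e1 := congrArg (eval q) hf.sum_X_mul_pderiv
  have e2 := congrArg (eval q) hKh.sum_X_mul_pderiv
  rw [map_sum, map_nsmul, ← Finset.add_sum_erase _ _ (Finset.mem_univ i)] at e1 e2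
  have hsum : ∑ x ∈ Finset.univ.erase i, eval q (X x * pderiv x K) =
      ∑ x ∈ Finset.univ.erase i, eval q (X x * pderiv x f) := by
    refine Finset.sum_congr rfl fun x hx => ?_
    rw [map_mul, map_mul, hne x (Finset.mem_erase.mp hx).1]
  rw [hval, ← e1, hsum] at e2
  have e3 : eval q (X i * pderiv i K) = eval q (X i * pderiv i f) := add_right_cancel e2
  rw [map_mul, map_mul, eval_X] at e3
  have e4 : eval q (pderiv i K) = eval q (pderiv i f) := mul_left_cancel₀ hi e3
  rw [map_sub, map_sub, sub_eq_zero]
  by_cases hj : j = i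
  · rw [hj, e4]
  · exact (hne j hj).symm

section loc

variable {n d : ℕ} {i : Fin n} {L : Type} [CommRing L] [Algebra (UR n d) L]

/-- The coefficients of the generic form modified so as to be singular at the generic point. -/
noncomputable def modCoeff (i : Fin n) (L : Type) [CommRing L] [Algebra (UR n d) L] (t : L) :
    Expo n d → L :=
  fun α => algebraMap (UR n d) L (X (Sum.inl α)) -
    (corr d i (fun j => algebraMap (UR n d) L (df (n := n) (d := d) j))
      (algebraMap (UR n d) L (univF n d)) (fun j => algebraMap (UR n d) L (X (Sum.inr j))) t).coeff α.1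

/-- substitution of the modified coefficients -/
noncomputable def modHom (i : Fin n) (L : Type) [CommRing L] [Algebra (UR n d) L] (t : L) :
    MvPolynomial (Expo n d) ℂ →+* L :=
  eval₂Hom ((algebraMap (UR n d) L).comp C) (modCoeff (n := n) (d := d) i L t)

theorem modHom_congr (hd : 1 ≤ d) (t : L) (D : MvPolynomial (Expo n d) ℂ) :
    algebraMap (UR n d) L (rename Sum.inl D) - modHom i L t D ∈
      (jac n d).map (algebraMap (UR n d) L) := by
  set J := (jac n d).map (algebraMap (UR n d) L) with hJ
  induction D using MvPolynomial.induction_on with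
  | C r =>
    have h1 : modHom (n := n) (d := d) i L t (C r) = algebraMap (UR n d) L (C r) := by
      unfold modHom
      rw [coe_eval₂Hom, eval₂_C, RingHom.comp_apply]
    rw [rename_C, h1, sub_self]
    exact J.zero_mem
  | add p q hp hq =>
    rw [map_add, map_add, map_add, add_sub_add_comm]
    exact J.add_mem hp hq
  | mul_X p α hp =>
    have h1 : modHom (n := n) (d := d) i L t (X α) = modCoeff i L t α := by
      unfold modHom
      rw [coe_eval₂Hom, eval₂_X]
    have h2 : algebraMap (UR n d) L (rename Sum.inl (X α)) - modHom i L t (X α) ∈ J := by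
      rw [h1, rename_X, modCoeff, sub_sub_cancel]
      exact corr_coeff_mem i _ _ _ _ J
        (fun j => Ideal.mem_map_of_mem _ (df_mem_jac j)) (Ideal.mem_map_of_mem _ (univF_mem_jac hd)) _
    have h3 : algebraMap (UR n d) L (rename Sum.inl (p * X α)) - modHom i L t (p * X α) =
        (algebraMap (UR n d) L (rename Sum.inl p) - modHom i L t p) *
          algebraMap (UR n d) L (rename Sum.inl (X α)) +
        modHom i L t p *
          (algebraMap (UR n d) L (rename Sum.inl (X α)) - modHom i L t (X α)) := by
      rw [map_mul, map_mul, map_mul]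
      ring
    rw [h3]
    exact J.add_mem (J.mul_mem_right _ hp) (J.mul_mem_left _ h2)

theorem modHom_eval (hd : 1 ≤ d) (t : L)
    (ht : algebraMap (UR n d) L (X (Sum.inr i)) * t = 1) (D : MvPolynomial (Expo n d) ℂ)
    (hD : ∀ f : MvPolynomial (Fin n) ℂ, f.IsHomogeneous d → Degenerate f →
      eval (coeffVec d f) D = 0) (u : Expo n d → ℂ) (q : Fin n → ℂ) (hq : q i ≠ 0)
    (ev : L →+* ℂ) (hev : ∀ p, ev (algebraMap (UR n d) L p) = eval (Sum.elim u q) p) :
    ev (modHom i L t D) = 0 := by
  have hevt : ev t = (q i)⁻¹ := by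
    have h := congrArg ev ht
    rw [map_mul, hev, eval_X, map_one] at h
    exact eq_inv_of_mul_eq_one_right h
  have hevθ : ev (modHom i L t D) = eval (fun α => ev (modCoeff i L t α)) D := by
    unfold modHom
    rw [coe_eval₂Hom, hom_eval₂]
    have : (ev.comp ((algebraMap (UR n d) L).comp C)) = RingHom.id ℂ := by
      apply RingHom.ext
      intro r
      rw [RingHom.comp_apply, RingHom.comp_apply, hev, eval_C]
      rfl
    rw [this]
    rfl
  have heva : (fun α => ev (modCoeff i L t α)) = coeffVec d (formOf u -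
      corr d i (fun k => eval q (pderiv k (formOf u))) (eval q (formOf u)) q (q i)⁻¹) := by
    funext α
    unfold modCoeff coeffVec
    rw [map_sub, hev, eval_X, coeff_sub, coeff_formOf, ← coeff_map, map_corr]
    have e1 : (fun j => ev (algebraMap (UR n d) L (df j))) =
        fun k => eval q (pderiv k (formOf u)) := by
      funext k
      rw [hev, ← eval_spec, spec_df]
    have e2 : ev (algebraMap (UR n d) L (univF n d)) = eval q (formOf u) := by
      rw [hev, ← eval_spec, spec_univF]
    have e3 : (fun j => ev (algebraMap (UR n d) L (X (Sum.inr j)))) = q := by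
      funext k
      rw [hev, eval_X]
      rfl
    rw [e1, e2, e3, hevt]
    rfl
  rw [hevθ, heva]
  refine hD _ ((formOf_isHomogeneous u).sub (corr_isHomogeneous hd _ _ _ _ _))
    ⟨q, fun h => hq (by rw [h]; rfl), fun j => ?_⟩
  exact corr_spec hd _ (formOf_isHomogeneous u) q i hq j

theorem modHom_eq_zero (hd : 1 ≤ d) [IsLocalization.Away (X (Sum.inr i) : UR n d) L] (t : L)
    (ht : algebraMap (UR n d) L (X (Sum.inr i)) * t = 1) (D : MvPolynomial (Expo n d) ℂ)
    (hD : ∀ f : MvPolynomial (Fin n) ℂ, f.IsHomogeneous d → Degenerate f →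
      eval (coeffVec d f) D = 0) : modHom i L t D = 0 := by
  obtain ⟨s, G, hG⟩ := IsLocalization.Away.surj (X (Sum.inr i) : UR n d) (modHom i L t D)
  have hGz : G * X (Sum.inr i) = 0 := by
    apply MvPolynomial.funext
    intro x
    rw [map_mul, map_zero, eval_X]
    have hx : x = Sum.elim (fun α => x (Sum.inl α)) (fun j => x (Sum.inr j)) := by
      funext y
      rcases y with y | y <;> rfl
    by_cases hq : x (Sum.inr i) = 0
    · rw [hq, mul_zero]
    have hunit : IsUnit (eval x (X (Sum.inr i))) := by
      rw [eval_X]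
      exact isUnit_iff_ne_zero.mpr hq
    have hev : ∀ p, IsLocalization.Away.lift (S := L) (X (Sum.inr i) : UR n d) hunit
        (algebraMap (UR n d) L p) =
        eval (Sum.elim (fun α => x (Sum.inl α)) (fun j => x (Sum.inr j))) p := by
      intro p
      rw [IsLocalization.Away.lift_eq, ← hx]
    have hvan := modHom_eval hd t ht D hD (fun α => x (Sum.inl α)) (fun j => x (Sum.inr j)) hq
      _ hev
    have h1 := congrArg (IsLocalization.Away.lift (S := L) (X (Sum.inr i) : UR n d) hunit) hG
    rw [map_mul, hvan, zero_mul, IsLocalization.Away.lift_eq] at h1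
    rw [← h1, zero_mul]
  have hG0 : G = 0 := by
    rcases mul_eq_zero.mp hGz with h | h
    · exact h
    · exact absurd h (X_ne_zero _)
  rw [hG0, map_zero] at hG
  have h4 : modHom i L t D * (algebraMap (UR n d) L (X (Sum.inr i)) ^ s * t ^ s) = 0 := by
    rw [← mul_assoc, hG, zero_mul]
  rwa [← mul_pow, ht, one_pow, mul_one] at h4

end loc

/-- Every polynomial in the coefficients vanishing on all degenerate forms is an inertia form. -/
theorem inertia_of_vanish {n d : ℕ} (hd : 1 ≤ d) (D : MvPolynomial (Expo n d) ℂ)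
    (hD : ∀ f : MvPolynomial (Fin n) ℂ, f.IsHomogeneous d → Degenerate f →
      eval (coeffVec d f) D = 0) (i : Fin n) :
    ∃ s : ℕ, (X (Sum.inr i)) ^ s * rename Sum.inl D ∈ jac n d := by
  have key : ∀ (L : Type) [CommRing L] [Algebra (UR n d) L]
      [IsLocalization.Away (X (Sum.inr i) : UR n d) L],
      ∃ s : ℕ, (X (Sum.inr i)) ^ s * rename Sum.inl D ∈ jac n d := by
    intro L _ _ _
    have ht := IsLocalization.Away.mul_invSelf (S := L) (X (Sum.inr i) : UR n d)
    have hmem := modHom_congr (i := i) hd (IsLocalization.Away.invSelf (S := L)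
      (X (Sum.inr i) : UR n d)) D
    rw [modHom_eq_zero hd _ ht D hD, sub_zero,
      IsLocalization.mem_map_algebraMap_iff (Submonoid.powers (X (Sum.inr i) : UR n d))] at hmem
    obtain ⟨⟨⟨p, hp⟩, ⟨_, s, rfl⟩⟩, h⟩ := hmem
    simp only at h
    have hinj : Function.Injective (algebraMap (UR n d) L) := by
      apply IsLocalization.injective L (M := Submonoid.powers (X (Sum.inr i) : UR n d))
      exact powers_le_nonZeroDivisors_of_noZeroDivisors (X_ne_zero _)
    refine ⟨s, ?_⟩
    have h3 : (X (Sum.inr i) : UR n d) ^ s * rename Sum.inl D = p := by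
      apply hinj
      rw [← h, mul_comm, map_mul]
    rw [h3]
    exact hp
  exact key (Localization.Away (X (Sum.inr i) : UR n d))

end Pool.Agent.H917R3
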