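import Pool.Agent.H917R3.Folding

/-!
# A flip acts on the exchange matrix of a triangulation by four mutations
-/

set_option linter.unusedSectionVars false
set_option linter.unusedSimpArgs false

namespace Pool.Agent.H917R3.XC

section

variable {H V : Type} [Fintype H] [DecidableEq H] [Fintype V] [DecidableEq V]

/-- the contribution of an arrow -/
def arr (v w p q : V) : ℤ :=
  (if v = p ∧ w = q then (1 : ℤ) else 0) - (if w = p ∧ v = q then (1 : ℤ) else 0)

/-- the contribution of a side -/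
def term (Δ : Tri H V) (v w : V) (x : H) : ℤ :=
  arr v w (Δ.edge (Δ.opp (Δ.prv x))) (Δ.edge x) + arr v w (Δ.edge x) (Δ.face x) +
    arr v w (Δ.face x) (Δ.edge (Δ.opp x))

theorem exchange_term {Δ : Tri H V} (hΔ : Δ.IsIdeal) (v w : V) :
    Δ.exchange v w = ∑ x : H, term Δ v w x := exchange_eq hΔ v w

/-- the nodes of the quadrilateral -/
def quadNodes (Δ : Tri H V) (h a b h' c d : H) : Fin 12 → V :=
  ![Δ.edge a, Δ.edge (Δ.opp a), Δ.edge b, Δ.edge (Δ.opp b), Δ.edge c, Δ.edge (Δ.opp c),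
    Δ.edge d, Δ.edge (Δ.opp d), Δ.edge h, Δ.edge h', Δ.face h, Δ.face h']

instance (h a b h' c d x : H) : Decidable (InQ h a b h' c d x) := by
  unfold InQ
  infer_instance

/-- the contribution of the other triangles -/
def rest (Δ : Tri H V) (h a b h' c d : H) (v w : V) : ℤ :=
  ∑ x ∈ Finset.univ.filter (fun x => ¬ InQ h a b h' c d x), term Δ v w x

theorem sum_quad {Δ : Tri H V} {h a b h' c d : H} (q : Quad Δ h a b h' c d) (g : H → ℤ) :
    ∑ x ∈ Finset.univ.filter (fun x => InQ h a b h' c d x), g x =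
      g h + g a + g b + g h' + g c + g d := by
  have h1 : Finset.univ.filter (fun x => InQ h a b h' c d x) = {h, a, b, h', c, d} := by
    ext x
    simp only [Finset.mem_filter, Finset.mem_univ, true_and, Finset.mem_insert,
      Finset.mem_singleton, InQ]
    tauto
  rw [h1, Finset.sum_insert, Finset.sum_insert, Finset.sum_insert, Finset.sum_insert,
    Finset.sum_insert, Finset.sum_singleton]
  · ring
  · simp only [Finset.mem_singleton]
    exact q.cd
  · simp only [Finset.mem_insert, Finset.mem_singleton, not_or]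
    exact ⟨q.hc', q.hd'⟩
  · simp only [Finset.mem_insert, Finset.mem_singleton, not_or]
    exact ⟨q.bh', q.bc, q.bd⟩
  · simp only [Finset.mem_insert, Finset.mem_singleton, not_or]
    exact ⟨q.ab, q.ah', q.ac, q.ad⟩
  · simp only [Finset.mem_insert, Finset.mem_singleton, not_or]
    exact ⟨q.ha, q.hb, q.hh', q.hc, q.hd⟩

theorem split_sum (h a b h' c d : H) (g : H → ℤ) :
    ∑ x : H, g x = ∑ x ∈ Finset.univ.filter (fun x => ¬ InQ h a b h' c d x), g x +
      ∑ x ∈ Finset.univ.filter (fun x => InQ h a b h' c d x), g x := by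
  rw [add_comm]
  exact (Finset.sum_filter_add_sum_filter_not _ _ _).symm

theorem prvs {Δ : Tri H V} {h a b h' c d : H} (q : Quad Δ h a b h' c d) :
    Δ.prv h = b ∧ Δ.prv a = h ∧ Δ.prv b = a ∧ Δ.prv h' = d ∧ Δ.prv c = h' ∧ Δ.prv d = c := by
  simp only [Tri.prv]
  rw [q.nh, q.na, q.nb, q.nh, q.nh', q.nc, q.nd, q.nh']
  exact ⟨rfl, rfl, rfl, rfl, rfl, rfl⟩

theorem exchange_split {Δ : Tri H V} (hΔ : Δ.IsIdeal) {h a b h' c d : H}
    (q : Quad Δ h a b h' c d) (v w : V) : Δ.exchange v w =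
      rest Δ h a b h' c d v w + fold (quadNodes Δ h a b h' c d) (ofArrows L0) v w := by
  rw [exchange_term hΔ, split_sum h a b h' c d]
  congr 1
  rw [sum_quad q, fold_ofArrows]
  obtain ⟨p1, p2, p3, p4, p5, p6⟩ := prvs q
  have f1 : Δ.face a = Δ.face h := by rw [← q.nh, face_nxt hΔ]
  have f2 : Δ.face b = Δ.face h := by rw [← q.na, face_nxt hΔ, f1]
  have f3 : Δ.face c = Δ.face h' := by rw [← q.nh', face_nxt hΔ]
  have f4 : Δ.face d = Δ.face h' := by rw [← q.nc, face_nxt hΔ, f3]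
  simp only [term, p1, p2, p3, p4, p5, p6, f1, f2, f3, f4, q.oh, q.oh']
  simp only [L0, List.map_cons, List.map_nil, List.sum_cons, List.sum_nil, quadNodes]
  simp only [arr, Matrix.cons_val]
  ring_nf

theorem flip_quad {Δ : Tri H V} (hΔ : Δ.IsIdeal) {h a b h' c d : H}
    (q : Quad Δ h a b h' c d) (v w : V) :
    ∑ x ∈ Finset.univ.filter (fun x => InQ h a b h' c d x), term (Δ.flip h) v w x =
      fold (quadNodes Δ h a b h' c d) (ofArrows L4) v w := by
  rw [sum_quad q, fold_ofArrows]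
  have V := q.vals
  have p1 : (Δ.flip h).prv h = a := by
    simp only [Tri.prv]
    rw [V.vh, V.vd]
  have p2 : (Δ.flip h).prv a = d := by
    simp only [Tri.prv]
    rw [V.va, V.vh]
  have p3 : (Δ.flip h).prv d = h := by
    simp only [Tri.prv]
    rw [V.vd, V.va]
  have p4 : (Δ.flip h).prv h' = c := by
    simp only [Tri.prv]
    rw [V.vh', V.vb]
  have p5 : (Δ.flip h).prv b = h' := by
    simp only [Tri.prv]
    rw [V.vb, V.vc]
  have p6 : (Δ.flip h).prv c = b := by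
    simp only [Tri.prv]
    rw [V.vc, V.vh']
  have ho : ∀ x, x ≠ h → x ≠ h' → (Δ.flip h).edge (Δ.opp x) = Δ.edge (Δ.opp x) := by
    intro x h1 h2
    apply V.eelse
    · intro h3
      exact h2 (by rw [← hΔ.opp_opp x, h3, q.oh])
    · intro h3
      exact h1 (by rw [← hΔ.opp_opp x, h3, q.oh'])
  have e1 := ho a q.ha.symm q.ah'
  have e2 := ho b q.hb.symm q.bh'
  have e3 := ho c q.hc.symm q.hc'.symm
  have e4 := ho d q.hd.symm q.hd'.symm
  have e5 := V.eelse a q.ha.symm q.ah'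
  have e6 := V.eelse b q.hb.symm q.bh'
  have e7 := V.eelse c q.hc.symm q.hc'.symm
  have e8 := V.eelse d q.hd.symm q.hd'.symm
  simp only [term, p1, p2, p3, p4, p5, p6, V.opp, q.oh, q.oh', e1, e2, e3, e4, e5, e6, e7, e8,
    V.eh, V.eh', V.fa, V.fb, V.fc, V.fd, V.fh, V.fh']
  simp only [L4, List.map_cons, List.map_nil, List.sum_cons, List.sum_nil, quadNodes]
  simp only [arr, Matrix.cons_val]
  ring_nf

theorem opp_ne_of_not_InQ {Δ : Tri H V} (hΔ : Δ.IsIdeal) {h a b h' c d : H}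
    (q : Quad Δ h a b h' c d) {x : H} (hx : ¬ InQ h a b h' c d x) :
    Δ.opp x ≠ h ∧ Δ.opp x ≠ h' := by
  obtain ⟨k1, k2, k3, k4, k5, k6⟩ := not_InQ hx
  constructor
  · intro h3
    exact k2 (by rw [← hΔ.opp_opp x, h3, q.oh])
  · intro h3
    exact k6 (by rw [← hΔ.opp_opp x, h3, q.oh'])

theorem flip_rest {Δ : Tri H V} (hΔ : Δ.IsIdeal) {h a b h' c d : H}
    (q : Quad Δ h a b h' c d) (v w : V) {x : H} (hx : ¬ InQ h a b h' c d x) :
    term (Δ.flip h) v w x = term Δ v w x := by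
  have V := q.vals
  have hx1 := q.out hΔ hx
  have hx2 := q.out hΔ hx1
  have p : (Δ.flip h).prv x = Δ.prv x := by
    simp only [Tri.prv]
    rw [V.else1 hx, V.else1 hx1]
  have e1 : (Δ.flip h).edge x = Δ.edge x := by
    obtain ⟨k1, k2, k3, k4, k5, k6⟩ := not_InQ hx
    exact V.eelse x k6 k2
  have e2 : (Δ.flip h).edge (Δ.opp x) = Δ.edge (Δ.opp x) :=
    V.eelse _ (opp_ne_of_not_InQ hΔ q hx).1 (opp_ne_of_not_InQ hΔ q hx).2
  have e3 : (Δ.flip h).edge (Δ.opp (Δ.prv x)) = Δ.edge (Δ.opp (Δ.prv x)) :=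
    V.eelse _ (opp_ne_of_not_InQ hΔ q hx2).1 (opp_ne_of_not_InQ hΔ q hx2).2
  unfold term
  rw [V.opp, p, e1, e2, e3, V.else2 hx]

theorem flip_split {Δ : Tri H V} (hΔ : Δ.IsIdeal) {h a b h' c d : H}
    (q : Quad Δ h a b h' c d) (hf : Δ.Flippable h) (v w : V) : (Δ.flip h).exchange v w =
      rest Δ h a b h' c d v w + fold (quadNodes Δ h a b h' c d) (ofArrows L4) v w := by
  rw [exchange_term (hΔ.flip hf), split_sum h a b h' c d, flip_quad hΔ q]
  congr 1
  unfold rest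
  refine Finset.sum_congr rfl fun x hx => ?_
  rw [Finset.mem_filter] at hx
  exact flip_rest hΔ q v w hx.2

/-- the inner nodes -/
def Inner (Δ : Tri H V) (h h' : H) (k : V) : Prop :=
  (k = Δ.edge h ∨ k = Δ.edge h') ∨ (k = Δ.face h ∨ k = Δ.face h')

theorem arr_zero_left {k p q : V} (v : V) (h1 : k ≠ p) (h2 : k ≠ q) : arr k v p q = 0 := by
  unfold arr
  rw [if_neg (fun h => h1 h.1), if_neg (fun h => h2 h.2), sub_zero]

theorem arr_zero_right {k p q : V} (v : V) (h1 : k ≠ p) (h2 : k ≠ q) : arr v k p q = 0 := by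
  unfold arr
  rw [if_neg (fun h => h2 h.2), if_neg (fun h => h1 h.1), sub_zero]

theorem face_ne_of_not_InQ {Δ : Tri H V} (hΔ : Δ.IsIdeal) {h a b h' c d : H}
    (q : Quad Δ h a b h' c d) {x : H} (hx : ¬ InQ h a b h' c d x) :
    Δ.face h ≠ Δ.face x ∧ Δ.face h' ≠ Δ.face x := by
  obtain ⟨k1, k2, k3, k4, k5, k6⟩ := not_InQ hx
  constructor
  · intro k
    have k3' := (hΔ.face_iff h x).mp k
    rw [q.ph, q.nh] at k3'
    rcases k3' with k' | k' | k'
    · exact k6 k'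
    · exact k5 k'
    · exact k3 k'
  · intro k
    have k3' := (hΔ.face_iff h' x).mp k
    rw [q.ph', q.nh'] at k3'
    rcases k3' with k' | k' | k'
    · exact k2 k'
    · exact k1 k'
    · exact k4 k'

theorem inner_ne {Δ : Tri H V} (hΔ : Δ.IsIdeal) {h a b h' c d : H}
    (q : Quad Δ h a b h' c d) {k : V} (hk : Inner Δ h h' k) {x : H}
    (hx : ¬ InQ h a b h' c d x) : k ≠ Δ.edge x ∧ k ≠ Δ.edge (Δ.opp x) ∧ k ≠ Δ.face x := by
  obtain ⟨k1, k2, k3, k4, k5, k6⟩ := not_InQ hx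
  have ho := opp_ne_of_not_InQ hΔ q hx
  have hf := face_ne_of_not_InQ hΔ q hx
  rcases hk with (rfl | rfl) | (rfl | rfl)
  · exact ⟨fun e => k6 (hΔ.edge_inj _ _ e).symm, fun e => ho.1 (hΔ.edge_inj _ _ e).symm,
      hΔ.edge_ne_face _ _⟩
  · exact ⟨fun e => k2 (hΔ.edge_inj _ _ e).symm, fun e => ho.2 (hΔ.edge_inj _ _ e).symm,
      hΔ.edge_ne_face _ _⟩
  · exact ⟨(hΔ.edge_ne_face _ _).symm, (hΔ.edge_ne_face _ _).symm, hf.1⟩
  · exact ⟨(hΔ.edge_ne_face _ _).symm, (hΔ.edge_ne_face _ _).symm, hf.2⟩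

theorem rest_inner {Δ : Tri H V} (hΔ : Δ.IsIdeal) {h a b h' c d : H}
    (q : Quad Δ h a b h' c d) {k : V} (hk : Inner Δ h h' k) (v : V) :
    rest Δ h a b h' c d v k = 0 ∧ rest Δ h a b h' c d k v = 0 := by
  unfold rest
  constructor
  · refine Finset.sum_eq_zero fun x hx => ?_
    rw [Finset.mem_filter] at hx
    have h1 := inner_ne hΔ q hk hx.2
    have h2 : k ≠ Δ.edge (Δ.prv x) ∧ k ≠ Δ.edge (Δ.opp (Δ.prv x)) ∧ k ≠ Δ.face (Δ.prv x) :=
      inner_ne hΔ q hk (q.out hΔ (q.out hΔ hx.2))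
    unfold term
    rw [arr_zero_right v h2.2.1 h1.1, arr_zero_right v h1.1 h1.2.2, arr_zero_right v h1.2.2 h1.2.1]
    rfl
  · refine Finset.sum_eq_zero fun x hx => ?_
    rw [Finset.mem_filter] at hx
    have h1 := inner_ne hΔ q hk hx.2
    have h2 : k ≠ Δ.edge (Δ.prv x) ∧ k ≠ Δ.edge (Δ.opp (Δ.prv x)) ∧ k ≠ Δ.face (Δ.prv x) :=
      inner_ne hΔ q hk (q.out hΔ (q.out hΔ hx.2))
    unfold term
    rw [arr_zero_left v h2.2.1 h1.1, arr_zero_left v h1.1 h1.2.2, arr_zero_left v h1.2.2 h1.2.1]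
    rfl

/-- Only the expected nodes of the quadrilateral may coincide. -/
theorem nodes_allowed {Δ : Tri H V} (hΔ : Δ.IsIdeal) {h a b h' c d : H}
    (q : Quad Δ h a b h' c d) (hf1 : Δ.opp b ≠ c) (hf2 : Δ.opp d ≠ a) (i j : Fin 12)
    (hij : quadNodes Δ h a b h' c d i = quadNodes Δ h a b h' c d j) : allowed i j = true := by
  have ei : ∀ x y, Δ.edge x = Δ.edge y ↔ x = y :=
    fun x y => ⟨fun k => hΔ.edge_inj _ _ k, fun k => by rw [k]⟩
  have ef : ∀ x y, (Δ.edge x = Δ.face y) = False := fun x y => eq_false (hΔ.edge_ne_face x y)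
  have fe : ∀ x y, (Δ.face x = Δ.edge y) = False :=
    fun x y => eq_false (hΔ.edge_ne_face y x).symm
  have hfh := q.fh hΔ
  have oo := hΔ.opp_opp
  have oi : ∀ x y, Δ.opp x = Δ.opp y ↔ x = y :=
    fun x y => ⟨fun k => opp_inj hΔ k, fun k => by rw [k]⟩
  have on := hΔ.opp_ne
  have on' : ∀ x, x ≠ Δ.opp x := fun x => (hΔ.opp_ne x).symm
  have osw : ∀ x y, x ≠ Δ.opp y → Δ.opp x ≠ y := fun x y k e => k (by rw [← e, oo])
  have osw' : ∀ x y, Δ.opp x ≠ y → y ≠ Δ.opp x := fun x y k e => k e.symm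
  -- pairs of sides
  have s1 : Δ.opp a ≠ b := by
    have := hΔ.not_self_folded a
    rwa [q.na] at this
  have s2 : Δ.opp b ≠ a := fun e => s1 (by rw [← e, oo])
  have s3 : Δ.opp c ≠ d := by
    have := hΔ.not_self_folded c
    rwa [q.nc] at this
  have s4 : Δ.opp d ≠ c := fun e => s3 (by rw [← e, oo])
  have s5 : Δ.opp c ≠ b := fun e => hf1 (by rw [← e, oo])
  have s6 : Δ.opp a ≠ d := fun e => hf2 (by rw [← e, oo])
  have hh : ∀ x, x ≠ h → x ≠ h' → Δ.opp x ≠ h ∧ Δ.opp x ≠ h' := by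
    intro x h1 h2
    constructor
    · intro e
      exact h2 (by rw [← oo x, e, q.oh])
    · intro e
      exact h1 (by rw [← oo x, e, q.oh'])
  have t1 := hh a q.ha.symm q.ah'
  have t2 := hh b q.hb.symm q.bh'
  have t3 := hh c q.hc.symm q.hc'.symm
  have t4 := hh d q.hd.symm q.hd'.symm
  have e0 : quadNodes Δ h a b h' c d 0 = Δ.edge a := rfl
  have e1 : quadNodes Δ h a b h' c d 1 = Δ.edge (Δ.opp a) := rfl
  have e2 : quadNodes Δ h a b h' c d 2 = Δ.edge b := rfl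
  have e3 : quadNodes Δ h a b h' c d 3 = Δ.edge (Δ.opp b) := rfl
  have e4 : quadNodes Δ h a b h' c d 4 = Δ.edge c := rfl
  have e5 : quadNodes Δ h a b h' c d 5 = Δ.edge (Δ.opp c) := rfl
  have e6 : quadNodes Δ h a b h' c d 6 = Δ.edge d := rfl
  have e7 : quadNodes Δ h a b h' c d 7 = Δ.edge (Δ.opp d) := rfl
  have e8 : quadNodes Δ h a b h' c d 8 = Δ.edge h := rfl
  have e9 : quadNodes Δ h a b h' c d 9 = Δ.edge h' := rfl
  have e10 : quadNodes Δ h a b h' c d 10 = Δ.face h := rfl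
  have e11 : quadNodes Δ h a b h' c d 11 = Δ.face h' := rfl
  fin_cases i <;> fin_cases j <;>
    first
    | rfl
    | (exfalso
       revert hij
       simp only [Fin.zero_eta, Fin.mk_one, Fin.reduceFinMk, e0, e1, e2, e3, e4, e5, e6, e7, e8,
         e9, e10, e11, ei, ef, fe, oi, on, on', s1, s2, s3, s4, s5, s6, hf1, hf2, hfh, hfh.symm,
         s1.symm, s2.symm, s3.symm, s4.symm, s5.symm, s6.symm, hf1.symm, hf2.symm,
         t1.1, t1.2, t2.1, t2.2, t3.1, t3.2, t4.1, t4.2,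
         t1.1.symm, t1.2.symm, t2.1.symm, t2.2.symm, t3.1.symm, t3.2.symm, t4.1.symm, t4.2.symm,
         q.ha, q.hb, q.ab, q.hc', q.hd', q.cd, q.hh', q.hc, q.hd, q.ah', q.ac, q.ad, q.bh', q.bc,
         q.bd, q.ha.symm, q.hb.symm, q.ab.symm, q.hc'.symm, q.hd'.symm, q.cd.symm, q.hh'.symm,
         q.hc.symm, q.hd.symm, q.ah'.symm, q.ac.symm, q.ad.symm, q.bh'.symm, q.bc.symm, q.bd.symm,
         false_imp_iff, not_false_eq_true])

theorem allowed8 : ∀ i, allowed i 8 = true → i = 8 := by decide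

theorem allowed9 : ∀ i, allowed i 9 = true → i = 9 := by decide

theorem allowed10 : ∀ i, allowed i 10 = true → i = 10 := by decide

theorem allowed11 : ∀ i, allowed i 11 = true → i = 11 := by decide

/-- The exchange matrix of the flipped triangulation is obtained by four mutations. -/
theorem flip_exchange {Δ : Tri H V} (hΔ : Δ.IsIdeal) {h : H} (hf : Δ.Flippable h) :
    mutM (mutM (mutM (mutM Δ.exchange (Δ.edge h)) (Δ.edge (Δ.opp h))) (Δ.face h))
      (Δ.face (Δ.opp h)) = (Δ.flip h).exchange := by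
  have q := hΔ.quad h
  have hal := nodes_allowed hΔ q hf.1 hf.2
  have hE : ∀ k, Inner Δ h (Δ.opp h) k → _ := fun k hk v => rest_inner hΔ q hk v
  have hEx : Δ.exchange = fun v w => rest Δ h (Δ.nxt h) (Δ.prv h) (Δ.opp h) (Δ.nxt (Δ.opp h))
      (Δ.prv (Δ.opp h)) v w + fold (quadNodes Δ h (Δ.nxt h) (Δ.prv h) (Δ.opp h)
        (Δ.nxt (Δ.opp h)) (Δ.prv (Δ.opp h))) (ofArrows L0) v w := by
    funext v w
    exact exchange_split hΔ q v w
  have hFx : (Δ.flip h).exchange = fun v w => rest Δ h (Δ.nxt h) (Δ.prv h) (Δ.opp h)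
      (Δ.nxt (Δ.opp h)) (Δ.prv (Δ.opp h)) v w + fold (quadNodes Δ h (Δ.nxt h) (Δ.prv h) (Δ.opp h)
        (Δ.nxt (Δ.opp h)) (Δ.prv (Δ.opp h))) (ofArrows L4) v w := by
    funext v w
    exact flip_split hΔ q hf v w
  rw [hEx, hFx]
  generalize rest Δ h (Δ.nxt h) (Δ.prv h) (Δ.opp h) (Δ.nxt (Δ.opp h)) (Δ.prv (Δ.opp h)) = E at *
  have e8 : Δ.edge h = quadNodes Δ h (Δ.nxt h) (Δ.prv h) (Δ.opp h)
        (Δ.nxt (Δ.opp h)) (Δ.prv (Δ.opp h)) 8 := rfl
  have e9 : Δ.edge (Δ.opp h) = quadNodes Δ h (Δ.nxt h) (Δ.prv h) (Δ.opp h)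
        (Δ.nxt (Δ.opp h)) (Δ.prv (Δ.opp h)) 9 := rfl
  have e10 : Δ.face h = quadNodes Δ h (Δ.nxt h) (Δ.prv h) (Δ.opp h)
        (Δ.nxt (Δ.opp h)) (Δ.prv (Δ.opp h)) 10 := rfl
  have e11 : Δ.face (Δ.opp h) = quadNodes Δ h (Δ.nxt h) (Δ.prv h) (Δ.opp h)
        (Δ.nxt (Δ.opp h)) (Δ.prv (Δ.opp h)) 11 := rfl
  have h8 := hE (Δ.edge h) (Or.inl (Or.inl rfl))
  have h9 := hE (Δ.edge (Δ.opp h)) (Or.inl (Or.inr rfl))
  have h10 := hE (Δ.face h) (Or.inr (Or.inl rfl))
  have h11 := hE (Δ.face (Δ.opp h)) (Or.inr (Or.inr rfl))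
  rw [e8] at h8 ⊢
  rw [e9] at h9 ⊢
  rw [e10] at h10 ⊢
  rw [e11] at h11 ⊢
  generalize quadNodes Δ h (Δ.nxt h) (Δ.prv h) (Δ.opp h) (Δ.nxt (Δ.opp h))
    (Δ.prv (Δ.opp h)) = π at *
  rw [mutM_fold (k := (8 : Fin 12)) (fun i hi => allowed8 i (hal i 8 hi)) (fun v => (h8 v).1)
      (fun v => (h8 v).2) (fun i => ofArrows_skew _ _ _) (fun i j hij => coh0 i j (hal i j hij))
      step0,
    mutM_fold (k := (9 : Fin 12)) (fun i hi => allowed9 i (hal i 9 hi)) (fun v => (h9 v).1)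
      (fun v => (h9 v).2) (fun i => ofArrows_skew _ _ _) (fun i j hij => coh1 i j (hal i j hij))
      step1,
    mutM_fold (k := (10 : Fin 12)) (fun i hi => allowed10 i (hal i 10 hi)) (fun v => (h10 v).1)
      (fun v => (h10 v).2) (fun i => ofArrows_skew _ _ _) (fun i j hij => coh2 i j (hal i j hij))
      step2,
    mutM_fold (k := (11 : Fin 12)) (fun i hi => allowed11 i (hal i 11 hi)) (fun v => (h11 v).1)
      (fun v => (h11 v).2) (fun i => ofArrows_skew _ _ _) (fun i j hij => coh3 i j (hal i j hij))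
      step3]

/-- The charts reached by flips are labelled by ideal triangulations and their seeds have the
exchange matrices of these triangulations. -/
theorem TriChart.correct {K : Type} [Field K] [Algebra ℂ K] {Δ Δ' : Tri H V} (hΔ : Δ.IsIdeal)
    {s s' : Seed V K} (hs : s.ε = Δ.exchange) (h : TriChart Δ s Δ' s') :
    Δ'.IsIdeal ∧ s'.ε = Δ'.exchange := by
  induction h with
  | base => exact ⟨hΔ, hs⟩
  | flip Δ₁ s₁ h _ hf ih =>
    refine ⟨ih.1.flip hf, ?_⟩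
    rw [← flip_exchange ih.1 hf, ← ih.2]
    rfl

end

end Pool.Agent.H917R3.XC
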