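import Pool.Agent.H917R3.Initial

/-!
# A flip acts on the exchange matrix by four mutations
-/

set_option linter.unusedSectionVars false
set_option linter.unusedSimpArgs false

namespace Pool.Agent.H917R3.XC

section fold

variable {P V : Type} [Fintype P] [DecidableEq P] [DecidableEq V]

/-- mutation of a matrix -/
def mutM {W : Type} [DecidableEq W] (M : W → W → ℤ) (k : W) (i j : W) : ℤ :=
  if i = k ∨ j = k then - M i j else M i j + (|M i k| * M k j + M i k * |M k j|) / 2

/-- folding of a matrix along a map -/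
def fold (π : P → V) (M : P → P → ℤ) (v w : V) : ℤ :=
  ∑ i, ∑ j, if π i = v ∧ π j = w then M i j else 0

theorem sum_max {S : Finset P} {g : P → ℤ} (h : ∀ i ∈ S, ∀ j ∈ S, 0 ≤ g i * g j) :
    max (∑ i ∈ S, g i) 0 = ∑ i ∈ S, max (g i) 0 := by
  by_cases hp : ∃ i ∈ S, 0 < g i
  · obtain ⟨i, hi, hgi⟩ := hp
    have h1 : ∀ j ∈ S, 0 ≤ g j := fun j hj => nonneg_of_mul_nonneg_right (h i hi j hj) hgi
    rw [max_eq_left (Finset.sum_nonneg h1)]
    exact Finset.sum_congr rfl fun j hj => (max_eq_left (h1 j hj)).symm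
  · have h1 : ∀ j ∈ S, g j ≤ 0 := by
      intro j hj
      by_contra hc
      exact hp ⟨j, hj, by omega⟩
    rw [max_eq_right (Finset.sum_nonpos h1), Finset.sum_congr rfl fun j hj => max_eq_right (h1 j hj)]
    simp

theorem sum_min {S : Finset P} {g : P → ℤ} (h : ∀ i ∈ S, ∀ j ∈ S, 0 ≤ g i * g j) :
    min 0 (∑ i ∈ S, g i) = ∑ i ∈ S, min 0 (g i) := by
  by_cases hp : ∃ i ∈ S, 0 < g i
  · obtain ⟨i, hi, hgi⟩ := hp
    have h1 : ∀ j ∈ S, 0 ≤ g j := fun j hj => nonneg_of_mul_nonneg_right (h i hi j hj) hgi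
    rw [min_eq_left (Finset.sum_nonneg h1), Finset.sum_congr rfl fun j hj => min_eq_left (h1 j hj)]
    simp
  · have h1 : ∀ j ∈ S, g j ≤ 0 := by
      intro j hj
      by_contra hc
      exact hp ⟨j, hj, by omega⟩
    rw [min_eq_right (Finset.sum_nonpos h1)]
    exact Finset.sum_congr rfl fun j hj => (min_eq_right (h1 j hj)).symm

theorem fold_eq (π : P → V) (M : P → P → ℤ) (v w : V) :
    fold π M v w = ∑ i ∈ Finset.univ.filter (fun i => π i = v),
      ∑ j ∈ Finset.univ.filter (fun j => π j = w), M i j := by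
  unfold fold
  rw [Finset.sum_filter]
  refine Finset.sum_congr rfl fun i _ => ?_
  by_cases h : π i = v
  · rw [if_pos h, Finset.sum_filter]
    refine Finset.sum_congr rfl fun j _ => ?_
    simp [h]
  · rw [if_neg h]
    refine Finset.sum_eq_zero fun j _ => ?_
    rw [if_neg (fun h' => h h'.1)]

theorem filter_inner {π : P → V} {k : P} (hk : ∀ i, π i = π k → i = k) :
    Finset.univ.filter (fun i => π i = π k) = {k} := by
  ext i
  simp only [Finset.mem_filter, Finset.mem_univ, true_and, Finset.mem_singleton]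
  exact ⟨fun h => hk i h, fun h => by rw [h]⟩

theorem mutM_fold {E : V → V → ℤ} {π : P → V} {M M' : P → P → ℤ} {k : P}
    (hk : ∀ i, π i = π k → i = k) (hE1 : ∀ v, E v (π k) = 0) (hE2 : ∀ v, E (π k) v = 0)
    (hskew : ∀ i, M k i = - M i k) (hcoh : ∀ i i', π i = π i' → 0 ≤ M i k * M i' k)
    (hM' : ∀ i j, mutM M k i j = M' i j) :
    mutM (fun v w => E v w + fold π M v w) (π k) = fun v w => E v w + fold π M' v w := by
  have hM'' : M' = mutM M k := by
    funext i j
    exact (hM' i j).symm
  subst hM''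
  funext v w
  by_cases hv : v = π k
  · subst hv
    simp only [mutM, true_or, if_true]
    rw [hE2, fold_eq, fold_eq, filter_inner hk, Finset.sum_singleton, Finset.sum_singleton,
      zero_add, zero_add, ← Finset.sum_neg_distrib]
    refine Finset.sum_congr rfl fun j _ => ?_
    unfold mutM
    rw [if_pos (Or.inl rfl)]
  by_cases hw : w = π k
  · subst hw
    simp only [mutM, or_true, if_true]
    rw [hE1, fold_eq, fold_eq, filter_inner hk, zero_add, zero_add, ← Finset.sum_neg_distrib]
    refine Finset.sum_congr rfl fun j _ => ?_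
    rw [Finset.sum_singleton, Finset.sum_singleton]
    unfold mutM
    rw [if_pos (Or.inr rfl)]
  have h1 : mutM (fun v w => E v w + fold π M v w) (π k) v w =
      (E v w + fold π M v w) + (max (fold π M v (π k)) 0 * fold π M (π k) w -
        fold π M v (π k) * min 0 (fold π M (π k) w)) := by
    unfold mutM
    rw [if_neg (by tauto), half_formula]
    simp only [hE1, hE2, zero_add]
  rw [h1]
  have h2 : fold π M v (π k) = ∑ i ∈ Finset.univ.filter (fun i => π i = v), M i k := by
    rw [fold_eq, filter_inner hk]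
    exact Finset.sum_congr rfl fun i _ => Finset.sum_singleton _ _
  have h3 : fold π M (π k) w = ∑ j ∈ Finset.univ.filter (fun j => π j = w), M k j := by
    rw [fold_eq, filter_inner hk, Finset.sum_singleton]
  have h4 : ∀ i ∈ Finset.univ.filter (fun i => π i = v), ∀ j ∈ Finset.univ.filter (fun i => π i = v),
      0 ≤ M i k * M j k := by
    intro i hi j hj
    rw [Finset.mem_filter] at hi hj
    exact hcoh i j (hi.2.trans hj.2.symm)
  have h5 : ∀ i ∈ Finset.univ.filter (fun i => π i = w), ∀ j ∈ Finset.univ.filter (fun i => π i = w),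
      0 ≤ M k i * M k j := by
    intro i hi j hj
    rw [Finset.mem_filter] at hi hj
    rw [hskew, hskew, neg_mul_neg]
    exact hcoh i j (hi.2.trans hj.2.symm)
  rw [h2, h3, sum_max h4, sum_min h5, Finset.sum_mul_sum, Finset.sum_mul_sum, add_assoc]
  congr 1
  rw [fold_eq, fold_eq, ← Finset.sum_sub_distrib, ← Finset.sum_add_distrib]
  refine Finset.sum_congr rfl fun i hi => ?_
  rw [← Finset.sum_sub_distrib, ← Finset.sum_add_distrib]
  refine Finset.sum_congr rfl fun j hj => ?_
  rw [Finset.mem_filter] at hi hj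
  have hik : i ≠ k := by
    rintro rfl
    exact hv hi.2.symm
  have hjk : j ≠ k := by
    rintro rfl
    exact hw hj.2.symm
  unfold mutM
  rw [if_neg (by tauto), half_formula]

/-- the matrix of a list of arrows -/
def ofArrows (L : List (P × P)) (i j : P) : ℤ :=
  (L.map fun a => (if i = a.1 ∧ j = a.2 then (1 : ℤ) else 0) -
    (if j = a.1 ∧ i = a.2 then (1 : ℤ) else 0)).sum

theorem fold_ofArrows (π : P → V) (L : List (P × P)) (v w : V) :
    fold π (ofArrows L) v w = (L.map fun a => (if v = π a.1 ∧ w = π a.2 then (1 : ℤ) else 0) -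
      (if w = π a.1 ∧ v = π a.2 then (1 : ℤ) else 0)).sum := by
  induction L with
  | nil => simp [fold, ofArrows]
  | cons a L ih =>
    rw [List.map_cons, List.sum_cons, ← ih]
    have h1 : ∀ i j, ofArrows (a :: L) i j = ((if i = a.1 ∧ j = a.2 then (1 : ℤ) else 0) -
      (if j = a.1 ∧ i = a.2 then (1 : ℤ) else 0)) + ofArrows L i j := by
      intro i j
      simp [ofArrows]
    have h2 : fold π (ofArrows (a :: L)) v w =
        fold π (fun i j => (if i = a.1 ∧ j = a.2 then (1 : ℤ) else 0)) v w -
        fold π (fun i j => (if j = a.1 ∧ i = a.2 then (1 : ℤ) else 0)) v w +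
        fold π (ofArrows L) v w := by
      unfold fold
      rw [← Finset.sum_sub_distrib, ← Finset.sum_add_distrib]
      refine Finset.sum_congr rfl fun i _ => ?_
      rw [← Finset.sum_sub_distrib, ← Finset.sum_add_distrib]
      refine Finset.sum_congr rfl fun j _ => ?_
      by_cases hc : π i = v ∧ π j = w
      · rw [if_pos hc, if_pos hc, if_pos hc, if_pos hc, h1]
      · rw [if_neg hc, if_neg hc, if_neg hc, if_neg hc]
        norm_num
    rw [h2]
    congr 1
    congr 1
    · unfold fold
      rw [Finset.sum_eq_single a.1, Finset.sum_eq_single a.2]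
      · have : (π a.1 = v ∧ π a.2 = w) ↔ (v = π a.1 ∧ w = π a.2) := by
          constructor <;> (rintro ⟨h, h'⟩; exact ⟨h.symm, h'.symm⟩)
        simp [this]
      · intro j _ hj
        simp [hj]
      · simp
      · intro i _ hi
        simp [hi]
      · simp
    · unfold fold
      rw [Finset.sum_eq_single a.2, Finset.sum_eq_single a.1]
      · simp only [and_true, if_true]
        have : (π a.2 = v ∧ π a.1 = w) ↔ (w = π a.1 ∧ v = π a.2) := by
          constructor <;> (rintro ⟨h, h'⟩; exact ⟨h'.symm, h.symm⟩)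
        simp [this]
      · intro j _ hj
        simp [hj]
      · simp
      · intro i _ hi
        simp [hi]
      · simp

end fold

/-- the arrows of a quadrilateral (nodes: on the four sides, on the diagonal, in the triangles) -/
def L0 : List (Fin 12 × Fin 12) :=
  [(3, 8), (8, 10), (10, 9), (9, 0), (0, 10), (10, 1), (1, 2), (2, 10), (10, 3),
   (7, 9), (9, 11), (11, 8), (8, 4), (4, 11), (11, 5), (5, 6), (6, 11), (11, 7)]

def L1 : List (Fin 12 × Fin 12) :=
  [(0, 10), (1, 2), (2, 10), (3, 4), (4, 8), (5, 6), (6, 11), (7, 9), (8, 3), (8, 11), (9, 0),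
   (9, 11), (10, 1), (10, 8), (10, 9), (11, 5), (11, 7), (11, 10)]

def L2 : List (Fin 12 × Fin 12) :=
  [(0, 9), (1, 2), (2, 10), (3, 4), (4, 8), (5, 6), (6, 11), (7, 0), (8, 3), (8, 11), (9, 7),
   (9, 10), (10, 1), (10, 8), (11, 5), (11, 9)]

def L3 : List (Fin 12 × Fin 12) :=
  [(0, 9), (1, 10), (2, 8), (3, 4), (4, 8), (5, 6), (6, 11), (7, 0), (8, 3), (8, 10), (8, 11),
   (9, 1), (9, 7), (9, 8), (10, 2), (10, 9), (11, 5), (11, 9)]

def L4 : List (Fin 12 × Fin 12) :=
  [(3, 4), (4, 8), (8, 5), (5, 11), (11, 8), (8, 10), (10, 2), (2, 8), (8, 3),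
   (11, 6), (6, 9), (9, 7), (7, 0), (0, 9), (9, 1), (1, 10), (10, 9), (9, 11)]

/-- nodes which may coincide -/
def allowed (i j : Fin 12) : Bool :=
  i == j || (i == 0 && j == 5) || (i == 5 && j == 0) || (i == 1 && j == 4) || (i == 4 && j == 1)
    || (i == 2 && j == 7) || (i == 7 && j == 2) || (i == 3 && j == 6) || (i == 6 && j == 3)

theorem step0 : ∀ i j, mutM (ofArrows L0) 8 i j = ofArrows L1 i j := by decide +kernel

theorem step1 : ∀ i j, mutM (ofArrows L1) 9 i j = ofArrows L2 i j := by decide +kernel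

theorem step2 : ∀ i j, mutM (ofArrows L2) 10 i j = ofArrows L3 i j := by decide +kernel

theorem step3 : ∀ i j, mutM (ofArrows L3) 11 i j = ofArrows L4 i j := by decide +kernel

theorem coh0 : ∀ i j, allowed i j = true → 0 ≤ ofArrows L0 i 8 * ofArrows L0 j 8 := by
  decide +kernel

theorem coh1 : ∀ i j, allowed i j = true → 0 ≤ ofArrows L1 i 9 * ofArrows L1 j 9 := by
  decide +kernel

theorem coh2 : ∀ i j, allowed i j = true → 0 ≤ ofArrows L2 i 10 * ofArrows L2 j 10 := by
  decide +kernel

theorem coh3 : ∀ i j, allowed i j = true → 0 ≤ ofArrows L3 i 11 * ofArrows L3 j 11 := by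
  decide +kernel

theorem ofArrows_skew {P : Type} [DecidableEq P] (L : List (P × P)) (i j : P) :
    ofArrows L i j = - ofArrows L j i := by
  unfold ofArrows
  induction L with
  | nil => simp
  | cons a L ih =>
    rw [List.map_cons, List.sum_cons, List.map_cons, List.sum_cons, ih]
    ring

end Pool.Agent.H917R3.XC
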