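import Pool.Agent.H917R3.Universal

/-!
# Homogeneity, Euler identities and the inertia forms of critical degree
-/

open MvPolynomial

namespace Pool.Agent.H917R3

section

variable {n d : ℕ}

variable (n d) in
/-- the weight giving the degree in the variables `z` -/
def wz : Expo n d ⊕ Fin n → ℕ := Sum.elim (fun _ => 0) (fun _ => 1)

theorem weight_wz (μ : (Expo n d ⊕ Fin n) →₀ ℕ) :
    Finsupp.weight (wz n d) μ = ∑ i : Fin n, μ (Sum.inr i) := by
  rw [Finsupp.weight_apply, Finsupp.sum_fintype _ _ (by simp), Fintype.sum_sum_type]
  simp [wz]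

theorem univF_wh : IsWeightedHomogeneous (wz n d) (univF n d) d := by
  unfold univF lin
  refine IsWeightedHomogeneous.sum _ _ _ fun α _ => ?_
  have h1 : IsWeightedHomogeneous (wz n d) (X (Sum.inl α) : UR n d) 0 :=
    isWeightedHomogeneous_X _ _ _
  have h2 : IsWeightedHomogeneous (wz n d) (rename Sum.inr (monomial α.1 (1 : ℂ)) : UR n d) d := by
    rw [rename_monomial]
    refine isWeightedHomogeneous_monomial _ _ _ ?_
    rw [weight_wz]
    have : ∀ i : Fin n, (Finsupp.mapDomain Sum.inr α.1 : (Expo n d ⊕ Fin n) →₀ ℕ) (Sum.inr i) =
        α.1 i := fun i => Finsupp.mapDomain_apply Sum.inr_injective _ _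
    simp_rw [this]
    rw [← Finsupp.degree_eq_sum, α.2]
  have := h1.mul h2
  rwa [zero_add] at this

theorem df_wh (hd : 1 ≤ d) (i : Fin n) : IsWeightedHomogeneous (wz n d) (df i : UR n d) (d - 1) := by
  refine univF_wh.pderiv (i := Sum.inr i) ?_
  simp [wz]
  omega

theorem hessMat_wh (hd : 2 ≤ d) (i j : Fin n) :
    IsWeightedHomogeneous (wz n d) (hessMat n d i j) (d - 2) := by
  refine (df_wh (by omega) j).pderiv (i := Sum.inr i) ?_
  simp [wz]
  omega

theorem hess_wh (hd : 2 ≤ d) : IsWeightedHomogeneous (wz n d) (hess n d) (n * (d - 2)) := by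
  rw [hess, Matrix.det_apply]
  refine IsWeightedHomogeneous.sum _ _ _ fun π _ => ?_
  have h : IsWeightedHomogeneous (wz n d) (∏ i : Fin n, hessMat n d (π i) i) (n * (d - 2)) := by
    have := IsWeightedHomogeneous.prod Finset.univ (fun i : Fin n => hessMat n d (π i) i)
      (fun _ => d - 2) (w := wz n d) (fun i _ => hessMat_wh hd _ _)
    simpa using this
  rcases Int.units_eq_one_or (Equiv.Perm.sign π) with h1 | h1
  · rw [h1, one_smul]
    exact h
  · rw [h1, Units.neg_smul, one_smul]
    exact h.neg

theorem euler_univF : ∑ i : Fin n, X (Sum.inr i) * df i = (d : UR n d) * univF n d := by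
  have h := (univF_wh (n := n) (d := d)).sum_weight_X_mul_pderiv
  rw [Fintype.sum_sum_type] at h
  simp only [wz, Sum.elim_inl, Sum.elim_inr, zero_smul, Finset.sum_const_zero, zero_add,
    one_smul] at h
  rw [nsmul_eq_mul] at h
  exact h

theorem euler_df (hd : 1 ≤ d) (j : Fin n) :
    ∑ i : Fin n, X (Sum.inr i) * hessMat n d i j = ((d - 1 : ℕ) : UR n d) * df j := by
  have h := (df_wh (n := n) (d := d) hd j).sum_weight_X_mul_pderiv
  rw [Fintype.sum_sum_type] at h
  simp only [wz, Sum.elim_inl, Sum.elim_inr, zero_smul, Finset.sum_const_zero, zero_add,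
    one_smul] at h
  rw [nsmul_eq_mul] at h
  exact h

theorem df_mem_jac (i : Fin n) : (df i : UR n d) ∈ jac n d := Ideal.subset_span ⟨i, rfl⟩

theorem univF_mem_jac (hd : 1 ≤ d) : univF n d ∈ jac n d := by
  have h : (C ((d : ℂ)⁻¹) : UR n d) * ((d : UR n d) * univF n d) = univF n d := by
    rw [← mul_assoc]
    have : (C ((d : ℂ)⁻¹) : UR n d) * (d : UR n d) = 1 := by
      rw [← map_natCast (C : ℂ →+* UR n d), ← C_mul, inv_mul_cancel₀, C_1]
      exact_mod_cast (by omega)
    rw [this, one_mul]
  rw [← h, ← euler_univF]
  exact Ideal.mul_mem_left _ _ (Ideal.sum_mem _ fun i _ => Ideal.mul_mem_left _ _ (df_mem_jac i))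

theorem X_mul_hess_mem (hd : 1 ≤ d) (k : Fin n) : X (Sum.inr k) * hess n d ∈ jac n d := by
  classical
  let z : Fin n → UR n d := fun i => X (Sum.inr i)
  have h1 : (hessMat n d).transpose.mulVec z = fun j => ((d - 1 : ℕ) : UR n d) * df j := by
    ext1 j
    rw [← euler_df hd]
    simp only [Matrix.mulVec, dotProduct, Matrix.transpose_apply]
    exact Finset.sum_congr rfl fun i _ => mul_comm _ _
  have h2 : (hessMat n d).transpose.adjugate.mulVec ((hessMat n d).transpose.mulVec z) =
      fun i => hess n d * z i := by
    rw [Matrix.mulVec_mulVec, Matrix.adjugate_mul, Matrix.det_transpose]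
    ext1 i
    rw [Matrix.smul_mulVec, Matrix.one_mulVec]
    rfl
  have h3 := congrFun h2 k
  rw [h1] at h3
  have h4 : X (Sum.inr k) * hess n d = hess n d * z k := mul_comm _ _
  rw [h4, ← h3]
  simp only [Matrix.mulVec, dotProduct]
  exact Ideal.sum_mem _ fun i _ => Ideal.mul_mem_left _ _ (Ideal.mul_mem_left _ _ (df_mem_jac i))

variable {m : MonomialOrder.{0, 0} (Expo n d ⊕ Fin n)}

theorem df_lead_le_iff (hm : PureFirst m) (hd : 1 ≤ d) (i : Fin n)
    (γ : (Expo n d ⊕ Fin n) →₀ ℕ) :
    m.degree (df i : UR n d) ≤ γ ↔ 1 ≤ γ (Sum.inl (pureE i)) ∧ d - 1 ≤ γ (Sum.inr i) := by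
  classical
  rw [(df_lead hm hd i).2]
  constructor
  · intro h
    refine ⟨?_, ?_⟩
    · have := h (Sum.inl (pureE i))
      simpa using this
    · have := h (Sum.inr i)
      simpa using this
  · rintro ⟨h1, h2⟩ x
    rw [Finsupp.add_apply, Finsupp.single_apply, Finsupp.single_apply]
    split_ifs with h3 h4 h4
    · rw [← h4] at h3
      exact absurd h3 (by simp)
    · rw [← h3]
      simpa using h1
    · rw [← h4]
      simpa using h2
    · simp

theorem exists_df_lead_le (hm : PureFirst m) (hd : 1 ≤ d) {g : UR n d} (hg : g ∈ jac n d)
    (h0 : g ≠ 0) : ∃ i, m.degree (df i : UR n d) ≤ m.degree g := by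
  classical
  have h := exists_degree_le_of_mem_span m (fun i : Fin n => (df i : UR n d))
    (fun i => (df_lead hm hd i).1) ?_ Finset.univ g (by simpa [jac, Set.image_univ] using hg) h0
  · obtain ⟨i, -, hi⟩ := h
    exact ⟨i, hi⟩
  · intro i j hij
    rw [Finset.disjoint_left]
    intro x hx hx'
    rw [(df_lead hm hd i).2] at hx
    rw [(df_lead hm hd j).2] at hx'
    rw [Finsupp.mem_support_iff, Finsupp.add_apply, Finsupp.single_apply,
      Finsupp.single_apply] at hx hx'
    rcases x with x | x
    · simp only [reduceCtorEq, if_false, add_zero, Sum.inl.injEq] at hx hx'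
      have h1 : pureE i = x := by
        by_contra h
        rw [if_neg h] at hx
        exact hx rfl
      have h2 : pureE j = x := by
        by_contra h
        rw [if_neg h] at hx'
        exact hx' rfl
      exact hij (pureE_injective hd (h1.trans h2.symm))
    · simp only [reduceCtorEq, if_false, zero_add, Sum.inr.injEq] at hx hx'
      have h1 : i = x := by
        by_contra h
        rw [if_neg h] at hx
        exact hx rfl
      have h2 : j = x := by
        by_contra h
        rw [if_neg h] at hx'
        exact hx' rfl
      exact hij (h1.trans h2.symm)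

/-- The inertia forms of critical degree: modulo the Jacobian ideal they are multiples of the
Hessian. -/
theorem crit (hd : 3 ≤ d) (hn : 1 ≤ n) (g : UR n d)
    (hg : IsWeightedHomogeneous (wz n d) g (n * (d - 2)))
    (hs : ∀ i : Fin n, ∃ s : ℕ, (X (Sum.inr i)) ^ s * g ∈ jac n d) :
    ∃ c : MvPolynomial (Expo n d) ℂ, g - rename Sum.inl c * hess n d ∈ jac n d := by
  classical
  obtain ⟨m, hm⟩ := exists_pureFirst n d
  have key : ∀ (x : m.syn) (g : UR n d), m.toSyn (m.degree g) = x →
      IsWeightedHomogeneous (wz n d) g (n * (d - 2)) →
      (∀ i : Fin n, ∃ s : ℕ, (X (Sum.inr i)) ^ s * g ∈ jac n d) →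
      ∃ c : MvPolynomial (Expo n d) ℂ, g - rename Sum.inl c * hess n d ∈ jac n d := by
    intro x
    induction x using WellFoundedLT.induction with
    | ind x IH =>
      intro g hx hg hs
      by_cases h0 : g = 0
      · refine ⟨0, ?_⟩
        rw [h0, map_zero, zero_mul, sub_zero]
        exact Ideal.zero_mem _
      have hγ : m.degree g ∈ g.support := MonomialOrder.degree_mem_support h0
      have hwγ : Finsupp.weight (wz n d) (m.degree g) = n * (d - 2) :=
        hg (mem_support_iff.mp hγ)
      by_cases hj : ∃ j, m.degree (df j : UR n d) ≤ m.degree g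
      · obtain ⟨j, hj⟩ := hj
        have hu : IsUnit (m.leadingCoeff (df j : UR n d)) :=
          (MonomialOrder.leadingCoeff_ne_zero_iff.mpr (df_lead hm (by omega) j).1).isUnit
        have hdj0 : m.degree (df j : UR n d) ≠ 0 := by
          rw [(df_lead hm (by omega) j).2]
          intro h
          have := DFunLike.congr_fun h (Sum.inl (pureE j))
          simp at this
        have hg0 : m.degree g ≠ 0 := by
          intro h
          rw [h] at hj
          exact hdj0 (le_antisymm hj bot_le)
        have hlt := MonomialOrder.degree_reduce_lt hu hj hg0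
        set q := monomial (m.degree g - m.degree (df j : UR n d))
          (hu.unit⁻¹ * m.leadingCoeff g) with hq
        have hred : m.reduce hu g = g - q * df j := rfl
        have hwdj : Finsupp.weight (wz n d) (m.degree (df j : UR n d)) = d - 1 := by
          have := MonomialOrder.degree_mem_support (m := m) (df_lead hm (by omega) j).1
          exact df_wh (by omega) j (mem_support_iff.mp this)
        have hwq : Finsupp.weight (wz n d) (m.degree g - m.degree (df j : UR n d)) + (d - 1) =
            n * (d - 2) := by
          rw [← hwdj, ← map_add, tsub_add_cancel_of_le hj, hwγ]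
        have hqdf : IsWeightedHomogeneous (wz n d) (q * df j) (n * (d - 2)) := by
          rw [← hwq]
          exact (isWeightedHomogeneous_monomial _ _ _ rfl).mul (df_wh (by omega) j)
        obtain ⟨c, hc⟩ := IH _ (hx ▸ hlt) (m.reduce hu g) rfl (by rw [hred]; exact hg.sub hqdf)
          (fun i => by
            obtain ⟨s, hs'⟩ := hs i
            refine ⟨s, ?_⟩
            rw [hred, mul_sub]
            exact Ideal.sub_mem _ hs' (Ideal.mul_mem_left _ _
              (Ideal.mul_mem_left _ _ (df_mem_jac j))))
        refine ⟨c, ?_⟩
        have : g - rename Sum.inl c * hess n d =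
            (m.reduce hu g - rename Sum.inl c * hess n d) + q * df j := by
          rw [hred]
          ring
        rw [this]
        exact Ideal.add_mem _ hc (Ideal.mul_mem_left _ _ (df_mem_jac j))
      · push Not at hj
        have hcoord : ∀ i : Fin n, 1 ≤ m.degree g (Sum.inl (pureE i)) ∧
            m.degree g (Sum.inr i) ≤ d - 2 := by
          intro i
          obtain ⟨s, hsi⟩ := hs i
          have hXs : (X (Sum.inr i) : UR n d) ^ s ≠ 0 := pow_ne_zero _ (X_ne_zero _)
          obtain ⟨j, hle⟩ := exists_df_lead_le hm (by omega) hsi (mul_ne_zero hXs h0)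
          rw [MonomialOrder.degree_mul hXs h0, MonomialOrder.degree_pow, MonomialOrder.degree_X,
            df_lead_le_iff hm (by omega)] at hle
          have hnj := hj j
          rw [df_lead_le_iff hm (by omega)] at hnj
          have h1 : 1 ≤ m.degree g (Sum.inl (pureE j)) := by simpa using hle.1
          have h2 : m.degree g (Sum.inr j) < d - 1 := by
            by_contra hcon
            exact hnj ⟨h1, not_lt.mp hcon⟩
          have hji : j = i := by
            by_contra hne
            have h3 := hle.2
            rw [Finsupp.add_apply, Finsupp.smul_apply, Finsupp.single_eq_of_ne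
              (by intro h; exact hne (Sum.inr_injective h))] at h3
            simp only [smul_zero, zero_add] at h3
            omega
          rw [hji] at h1 h2
          exact ⟨h1, by omega⟩
        have hsum : ∑ i : Fin n, m.degree g (Sum.inr i) = n * (d - 2) := by
          rw [← weight_wz, hwγ]
        have heq : ∀ i : Fin n, m.degree g (Sum.inr i) = d - 2 := by
          have h1 : ∑ i : Fin n, m.degree g (Sum.inr i) = ∑ _i : Fin n, (d - 2) := by
            rw [hsum]
            simp
          have h2 := (Finset.sum_eq_sum_iff_of_le (fun i _ => (hcoord i).2)).mp h1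
          exact fun i => h2 i (Finset.mem_univ _)
        obtain ⟨hH0, hHdeg⟩ := hess_lead (n := n) (d := d) hm (by omega)
        have hHinl : ∀ i : Fin n, m.degree (hess n d) (Sum.inl (pureE i)) = 1 := by
          intro i
          rw [hHdeg, Finsupp.finsetSum_apply, Finset.sum_eq_single i]
          · simp
          · intro b _ hb
            simp [Finsupp.single_apply, (pureE_injective (n := n) (d := d) (by omega)).eq_iff, hb]
          · simp
        have hHinl' : ∀ α : Expo n d, (∀ i, α ≠ pureE i) →
            m.degree (hess n d) (Sum.inl α) = 0 := by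
          intro α hα
          rw [hHdeg, Finsupp.finsetSum_apply, Finset.sum_eq_zero]
          intro b _
          simp [Finsupp.single_apply, (hα b).symm]
        have hHinr : ∀ i : Fin n, m.degree (hess n d) (Sum.inr i) = d - 2 := by
          intro i
          rw [hHdeg, Finsupp.finsetSum_apply, Finset.sum_eq_single i]
          · simp
          · intro b _ hb
            simp [Finsupp.single_apply, hb]
          · simp
        have hHle : m.degree (hess n d) ≤ m.degree g := by
          intro x
          rcases x with x | x
          · by_cases hx : ∃ i, x = pureE i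
            · obtain ⟨i, rfl⟩ := hx
              rw [hHinl]
              exact (hcoord i).1
            · rw [hHinl' x (fun i hi => hx ⟨i, hi⟩)]
              exact Nat.zero_le _
          · rw [hHinr, heq]
        have hu : IsUnit (m.leadingCoeff (hess n d)) :=
          (MonomialOrder.leadingCoeff_ne_zero_iff.mpr hH0).isUnit
        have hg0 : m.degree g ≠ 0 := by
          intro h
          have h1 := (hcoord ⟨0, hn⟩).1
          rw [h] at h1
          simp at h1
        have hlt := MonomialOrder.degree_reduce_lt hu hHle hg0
        set c0 := (hu.unit⁻¹ * m.leadingCoeff g : ℂ) with hc0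
        have hexp : m.degree g - m.degree (hess n d) =
            ((m.degree g - m.degree (hess n d)).comapDomain Sum.inl
              (Sum.inl_injective.injOn)).mapDomain Sum.inl := by
          ext x
          rcases x with x | x
          · rw [Finsupp.mapDomain_apply Sum.inl_injective, Finsupp.comapDomain_apply]
          · rw [Finsupp.mapDomain_of_notMem_range _ _ (by simp), Finsupp.tsub_apply, heq, hHinr]
            simp
        set ν := (m.degree g - m.degree (hess n d)).comapDomain Sum.inl
              (Sum.inl_injective.injOn) with hν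
        have hred : m.reduce hu g = g - rename Sum.inl (monomial ν c0) * hess n d := by
          rw [rename_monomial, ← hexp]
          rfl
        have hqdf : IsWeightedHomogeneous (wz n d) (rename Sum.inl (monomial ν c0) * hess n d)
            (n * (d - 2)) := by
          have h1 : IsWeightedHomogeneous (wz n d)
              (rename Sum.inl (monomial ν c0) : UR n d) 0 := by
            rw [rename_monomial]
            refine isWeightedHomogeneous_monomial _ _ _ ?_
            rw [weight_wz, Finset.sum_eq_zero]
            intro i _
            exact Finsupp.mapDomain_of_notMem_range _ _ (by simp)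
          have := h1.mul (hess_wh (n := n) (d := d) (by omega))
          rwa [zero_add] at this
        obtain ⟨c, hc⟩ := IH _ (hx ▸ hlt) (m.reduce hu g) rfl (by rw [hred]; exact hg.sub hqdf)
          (fun i => by
            obtain ⟨s, hs'⟩ := hs i
            refine ⟨s + 1, ?_⟩
            rw [hred]
            have : (X (Sum.inr i) : UR n d) ^ (s + 1) *
                (g - rename Sum.inl (monomial ν c0) * hess n d) =
                X (Sum.inr i) * (X (Sum.inr i) ^ s * g) -
                (X (Sum.inr i) ^ s * rename Sum.inl (monomial ν c0)) *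
                  (X (Sum.inr i) * hess n d) := by
              ring
            rw [this]
            exact Ideal.sub_mem _ (Ideal.mul_mem_left _ _ hs')
              (Ideal.mul_mem_left _ _ (X_mul_hess_mem (by omega) i)))
        refine ⟨c + monomial ν c0, ?_⟩
        have : g - rename Sum.inl (c + monomial ν c0) * hess n d =
            m.reduce hu g - rename Sum.inl c * hess n d := by
          rw [hred, map_add]
          ring
        rw [this]
        exact hc
  exact key _ g rfl hg hs

/-- The Hessian is not a torsion element modulo the Jacobian ideal. -/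
theorem hess_torsionfree (hd : 2 ≤ d) (c : MvPolynomial (Expo n d) ℂ)
    (hc : rename Sum.inl c * hess n d ∈ jac n d) : c = 0 := by
  classical
  by_contra h0
  obtain ⟨m, hm⟩ := exists_pureFirst n d
  obtain ⟨hH0, hHdeg⟩ := hess_lead (n := n) (d := d) hm hd
  have hc0 : (rename Sum.inl c : UR n d) ≠ 0 := by
    intro h
    exact h0 (rename_injective _ Sum.inl_injective (by rw [h, map_zero]))
  obtain ⟨j, hj⟩ := exists_df_lead_le hm (by omega) hc (mul_ne_zero hc0 hH0)
  rw [MonomialOrder.degree_mul hc0 hH0, df_lead_le_iff hm (by omega)] at hj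
  have h1 := hj.2
  have h2 : m.degree (rename Sum.inl c : UR n d) (Sum.inr j) = 0 := by
    have hmem : m.degree (rename Sum.inl c : UR n d) ∈ (rename Sum.inl c : UR n d).support :=
      MonomialOrder.degree_mem_support hc0
    rw [support_rename_of_injective Sum.inl_injective, Finset.mem_image] at hmem
    obtain ⟨ν, -, hν⟩ := hmem
    rw [← hν]
    exact Finsupp.mapDomain_of_notMem_range _ _ (by simp)
  have h3 : m.degree (hess n d) (Sum.inr j) = d - 2 := by
    rw [hHdeg, Finsupp.finsetSum_apply, Finset.sum_eq_single j]
    · simp
    · intro b _ hb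
      simp [Finsupp.single_apply, hb]
    · simp
  rw [Finsupp.add_apply, h2, h3] at h1
  omega

end

end Pool.Agent.H917R3
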