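import Pool.Agent.H917R3.Directions

/-!
# The initial seed of a triangulation, and the thrice-punctured sphere
-/

set_option linter.unusedSectionVars false
set_option linter.unusedSimpArgs false

namespace Pool.Agent.H917R3.XC

section initial

variable {H V : Type} [Fintype H] [DecidableEq H] [Fintype V] [DecidableEq V]

/-- Twice the total weight of the arrows `v → w` of the quiver of the triangulation. For every side
`x` (oriented counterclockwise along its triangle) there is: the arrow near the starting point of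
`x` parallel to the side opposite to it, from the node on the preceding side to the node on `x`;
the arrow from the first node on `x` to the node inside the triangle; the arrow from the node inside
the triangle to the second node on `x`; and the arrow of weight one half from the second node on `x`
to the first one. -/
def Tri.arrows (Δ : Tri H V) (v w : V) : ℤ :=
  ∑ x : H,
    ((if v = Δ.edge (Δ.opp (Δ.prv x)) ∧ w = Δ.edge x then 2 else 0) +
     (if v = Δ.edge x ∧ w = Δ.face x then 2 else 0) +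
     (if v = Δ.face x ∧ w = Δ.edge (Δ.opp x) then 2 else 0) +
     (if v = Δ.edge (Δ.opp x) ∧ w = Δ.edge x then 1 else 0))

/-- The exchange matrix of the triangulation. -/
def Tri.exchange (Δ : Tri H V) (v w : V) : ℤ := (Δ.arrows v w - Δ.arrows w v) / 2

/-- The Fock-Goncharov seed of the triangulation: the variables are the variables of the field of
rational functions in the nodes. -/
noncomputable def Tri.seed (Δ : Tri H V) : Seed V (FractionRing (MvPolynomial V ℂ)) where
  ε := Δ.exchange
  X := fun v => algebraMap (MvPolynomial V ℂ) (FractionRing (MvPolynomial V ℂ)) (MvPolynomial.X v)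

theorem half_sum {Δ : Tri H V} (hΔ : Δ.IsIdeal) (v w : V) :
    ∑ x : H, (if v = Δ.edge (Δ.opp x) ∧ w = Δ.edge x then (1 : ℤ) else 0) =
      ∑ x : H, (if w = Δ.edge (Δ.opp x) ∧ v = Δ.edge x then (1 : ℤ) else 0) := by
  have e : Function.Bijective Δ.opp := Function.Involutive.bijective hΔ.opp_opp
  rw [← Function.Bijective.sum_comp e (fun x => if w = Δ.edge (Δ.opp x) ∧ v = Δ.edge x then
    (1 : ℤ) else 0)]
  refine Finset.sum_congr rfl fun x _ => ?_
  rw [hΔ.opp_opp]
  exact if_congr And.comm rfl rfl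

theorem arrows_sub {Δ : Tri H V} (hΔ : Δ.IsIdeal) (v w : V) :
    Δ.arrows v w - Δ.arrows w v = 2 * ∑ x : H,
    (((if v = Δ.edge (Δ.opp (Δ.prv x)) ∧ w = Δ.edge x then 1 else 0) -
      (if w = Δ.edge (Δ.opp (Δ.prv x)) ∧ v = Δ.edge x then 1 else 0)) +
     ((if v = Δ.edge x ∧ w = Δ.face x then 1 else 0) -
      (if w = Δ.edge x ∧ v = Δ.face x then 1 else 0)) +
     ((if v = Δ.face x ∧ w = Δ.edge (Δ.opp x) then 1 else 0) -
      (if w = Δ.face x ∧ v = Δ.edge (Δ.opp x) then 1 else 0))) := by
  have h := half_sum hΔ v w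
  unfold Tri.arrows
  simp only [Finset.sum_add_distrib, Finset.sum_sub_distrib]
  have h2 : ∀ P : H → Prop, ∀ [DecidablePred P],
      ∑ x : H, (if P x then (2 : ℤ) else 0) = 2 * ∑ x : H, (if P x then (1 : ℤ) else 0) := by
    intro P _
    rw [Finset.mul_sum]
    refine Finset.sum_congr rfl fun x _ => ?_
    split_ifs <;> rfl
  rw [h2, h2, h2, h2, h2, h2, h]
  ring

theorem exchange_eq {Δ : Tri H V} (hΔ : Δ.IsIdeal) (v w : V) :
    Δ.exchange v w = ∑ x : H,
    (((if v = Δ.edge (Δ.opp (Δ.prv x)) ∧ w = Δ.edge x then 1 else 0) -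
      (if w = Δ.edge (Δ.opp (Δ.prv x)) ∧ v = Δ.edge x then 1 else 0)) +
     ((if v = Δ.edge x ∧ w = Δ.face x then 1 else 0) -
      (if w = Δ.edge x ∧ v = Δ.face x then 1 else 0)) +
     ((if v = Δ.face x ∧ w = Δ.edge (Δ.opp x) then 1 else 0) -
      (if w = Δ.face x ∧ v = Δ.edge (Δ.opp x) then 1 else 0))) := by
  unfold Tri.exchange
  rw [arrows_sub hΔ, Int.mul_ediv_cancel_left _ (by norm_num)]

theorem exchange_skew {Δ : Tri H V} (hΔ : Δ.IsIdeal) (v w : V) :
    Δ.exchange v w = - Δ.exchange w v := by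
  rw [exchange_eq hΔ, exchange_eq hΔ, ← Finset.sum_neg_distrib]
  refine Finset.sum_congr rfl fun x _ => ?_
  ring

theorem exchange_face_edge {Δ : Tri H V} (hΔ : Δ.IsIdeal) (x : H) :
    Δ.exchange (Δ.face x) (Δ.edge x) = -1 := by
  rw [exchange_eq hΔ, Finset.sum_eq_single x]
  · have h1 := hΔ.edge_ne_face
    have h2 : ∀ a b, Δ.face a ≠ Δ.edge b := fun a b => (h1 b a).symm
    have h3 : Δ.edge x ≠ Δ.edge (Δ.opp x) := fun h => hΔ.opp_ne x (hΔ.edge_inj _ _ h).symm
    simp [h1, h2, h3]
  · intro y _ hy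
    have h1 := hΔ.edge_ne_face
    have h2 : ∀ a b, Δ.face a ≠ Δ.edge b := fun a b => (h1 b a).symm
    have h3 : ¬ (Δ.edge x = Δ.edge y ∧ Δ.face x = Δ.face y) :=
      fun h => hy (hΔ.edge_inj _ _ h.1).symm
    have h4 : ¬ (Δ.face x = Δ.face y ∧ Δ.edge x = Δ.edge (Δ.opp y)) := by
      rintro ⟨h5, h6⟩
      have h7 := hΔ.edge_inj _ _ h6
      rw [h7, hΔ.face_iff, ] at h5
      rcases h5 with h5 | h5 | h5
      · exact hΔ.opp_ne y h5.symm
      · have := hΔ.not_self_folded (Δ.opp y)
        rw [hΔ.opp_opp] at this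
        exact this h5
      · have := opp_ne_prv hΔ (Δ.opp y)
        rw [hΔ.opp_opp] at this
        exact this h5
    simp only [h1, h2, h3, h4, false_and, and_false, if_false, sub_zero, add_zero]
  · simp

theorem mon_poly (m : V → ℤ) (c : ℂ) : ∃ (n : V → ℕ) (q : MvPolynomial V ℂ),
    (AddMonoidAlgebra.single m c : Lau V) * xm (fun v => (n v : ℤ)) =
      MvPolynomial.aeval (fun v => (xv v : Lau V)) q := by
  have hx : ∀ n : V → ℕ, (xm (fun v => (n v : ℤ)) : Lau V) =
      MvPolynomial.aeval (fun v => (xv v : Lau V)) (∏ v, MvPolynomial.X (R := ℂ) v ^ n v) := by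
    intro n
    rw [map_prod]
    have h1 : ∀ v, MvPolynomial.aeval (fun v => (xv v : Lau V)) (MvPolynomial.X (R := ℂ) v ^ n v) =
        (xm (Pi.single v (n v : ℤ)) : Lau V) := by
      intro v
      rw [map_pow, MvPolynomial.aeval_X]
      generalize n v = N
      induction N with
      | zero => simp [xm_zero]
      | succ N ih =>
        rw [pow_succ, ih, Nat.cast_succ, Pi.single_add, xm_add]
        rfl
    rw [Finset.prod_congr rfl fun v _ => h1 v]
    have h2 : (fun v => (n v : ℤ)) = ∑ v, Pi.single v (n v : ℤ) := by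
      rw [Finset.univ_sum_single]
    rw [h2]
    generalize (Finset.univ : Finset V) = S
    induction S using Finset.induction_on with
    | empty => simp [xm_zero]
    | insert a S ha ih => rw [Finset.sum_insert ha, Finset.prod_insert ha, xm_add, ih]
  refine ⟨fun v => (-(m v)).toNat, MvPolynomial.C c *
    ∏ v, MvPolynomial.X (R := ℂ) v ^ ((m v).toNat), ?_⟩
  rw [map_mul, ← hx, MvPolynomial.aeval_C]
  unfold xm
  rw [AddMonoidAlgebra.single_mul_single, mul_one]
  have h3 : (m + fun v => (((-(m v)).toNat : ℕ) : ℤ)) = fun v => (((m v).toNat : ℕ) : ℤ) := by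
    funext v
    show m v + ((-(m v)).toNat : ℤ) = ((m v).toNat : ℤ)
    omega
  rw [h3, ← Algebra.smul_def, AddMonoidAlgebra.smul_single, smul_eq_mul, mul_one]

theorem xm_poly (n : V → ℕ) : ∃ q : MvPolynomial V ℂ, (xm (fun v => (n v : ℤ)) : Lau V) =
      MvPolynomial.aeval (fun v => (xv v : Lau V)) q := by
  have hx : ∀ n : V → ℕ, (xm (fun v => (n v : ℤ)) : Lau V) =
      MvPolynomial.aeval (fun v => (xv v : Lau V)) (∏ v, MvPolynomial.X (R := ℂ) v ^ n v) := by
    intro n
    rw [map_prod]
    have h1 : ∀ v, MvPolynomial.aeval (fun v => (xv v : Lau V)) (MvPolynomial.X (R := ℂ) v ^ n v) =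
        (xm (Pi.single v (n v : ℤ)) : Lau V) := by
      intro v
      rw [map_pow, MvPolynomial.aeval_X]
      generalize n v = N
      induction N with
      | zero => simp [xm_zero]
      | succ N ih =>
        rw [pow_succ, ih, Nat.cast_succ, Pi.single_add, xm_add]
        rfl
    rw [Finset.prod_congr rfl fun v _ => h1 v]
    have h2 : (fun v => (n v : ℤ)) = ∑ v, Pi.single v (n v : ℤ) := by
      rw [Finset.univ_sum_single]
    rw [h2]
    generalize (Finset.univ : Finset V) = S
    induction S using Finset.induction_on with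
    | empty => simp [xm_zero]
    | insert a S ha ih => rw [Finset.sum_insert ha, Finset.prod_insert ha, xm_add, ih]
  exact ⟨_, hx n⟩

theorem lau_poly (p : Lau V) : ∃ (n : V → ℕ) (q : MvPolynomial V ℂ),
    p * xm (fun v => (n v : ℤ)) = MvPolynomial.aeval (fun v => (xv v : Lau V)) q := by
  induction p using lau_induction with
  | single m c => exact mon_poly m c
  | add x y hx hy =>
    obtain ⟨n, q, h⟩ := hx
    obtain ⟨n', q', h'⟩ := hy
    obtain ⟨r, hr⟩ := xm_poly (V := V) n
    obtain ⟨r', hr'⟩ := xm_poly (V := V) n'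
    refine ⟨n + n', q * r' + q' * r, ?_⟩
    have h1 : (fun v => (((n + n') v : ℕ) : ℤ)) = (fun v => (n v : ℤ)) + fun v => (n' v : ℤ) := by
      funext v
      simp
    rw [h1, xm_add, map_add, map_mul, map_mul, ← h, ← h', ← hr, ← hr']
    ring

/-- The initial seed is good. -/
theorem seed_good {Δ : Tri H V} (hΔ : Δ.IsIdeal) : Δ.seed.Good := by
  have hne : ∀ v, Δ.seed.X v ≠ 0 := by
    intro v
    show algebraMap (MvPolynomial V ℂ) (FractionRing (MvPolynomial V ℂ)) (MvPolynomial.X v) ≠ 0
    rw [Ne, IsFractionRing.to_map_eq_zero_iff]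
    exact MvPolynomial.X_ne_zero v
  refine ⟨exchange_skew hΔ, hne, ?_⟩
  rw [injective_iff_map_eq_zero]
  intro p hp
  obtain ⟨n, q, hq⟩ := lau_poly p
  have h1 : ∀ q : MvPolynomial V ℂ,
      ev Δ.seed.X hne (MvPolynomial.aeval (fun v => (xv v : Lau V)) q) =
        algebraMap (MvPolynomial V ℂ) (FractionRing (MvPolynomial V ℂ)) q := by
    intro q
    have h2 : (ev Δ.seed.X hne).comp (MvPolynomial.aeval (fun v => (xv v : Lau V))) =
        IsScalarTower.toAlgHom ℂ (MvPolynomial V ℂ) (FractionRing (MvPolynomial V ℂ)) := by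
      apply MvPolynomial.algHom_ext
      intro v
      rw [AlgHom.comp_apply, MvPolynomial.aeval_X, ev_xv]
      rfl
    exact DFunLike.congr_fun h2 q
  have h3 := congrArg (ev Δ.seed.X hne) hq
  rw [map_mul, hp, zero_mul, h1] at h3
  have h4 : q = 0 := by
    rwa [eq_comm, IsFractionRing.to_map_eq_zero_iff] at h3
  rw [h4, map_zero] at hq
  rcases mul_eq_zero.mp hq with h5 | h5
  · exact h5
  · exfalso
    unfold xm at h5
    rw [AddMonoidAlgebra.single_eq_zero] at h5
    exact one_ne_zero h5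

end initial

section local_

variable {V : Type} [Fintype V] [DecidableEq V] {K : Type} [Field K] [Algebra ℂ K]

theorem Chart.u_not_unit (c : Chart V K) (j : V) : (1 + c.X j)⁻¹ ∉ c.Loc j := by
  rintro ⟨p, q, hq, h⟩
  apply hq
  have h1 : ev c.X c.ne q = ev c.X c.ne (uj j * p) := by
    rw [map_mul, ev_uj, ← h, ← mul_assoc, mul_inv_cancel₀ (c.u_ne_zero j), one_mul]
  rw [c.inj h1, map_mul, pij_uj, zero_mul]

/-- A variable is not regular on an adjacent chart if the exponent is negative. -/
theorem not_regular {s : Seed V K} (hs : s.Good) {i j : V} (h : s.ε i j < 0) :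
    ¬ (s.mutate j).Regular (s.X i) := by
  intro hr
  obtain ⟨q, hq⟩ := ((hs.mutate j).regular_iff _).mp hr
  obtain ⟨w, hw, hw'⟩ := ord_X hs j i
  set Z := (hs.mutate j).chart with hZ
  have h1 : s.X i ∈ Z.Loc j := by
    rw [← hq]
    exact Z.ev_mem_Loc j q
  obtain ⟨n, hn⟩ : ∃ n : ℕ, s.ε i j = -(n + 1 : ℕ) := ⟨(-(s.ε i j) - 1).toNat, by omega⟩
  apply Z.u_not_unit j
  have hu := Z.u_ne_zero j
  have h2 : (1 + Z.X j)⁻¹ = s.X i * (w⁻¹ * (1 + Z.X j) ^ n) := by
    rw [hw', hn, zpow_neg, zpow_natCast, pow_succ]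
    have := hw.1
    field_simp
  rw [h2]
  exact (Z.Loc j).mul_mem h1 ((Z.Loc j).mul_mem hw.2.2 ((Z.Loc j).pow_mem (Z.u_mem j) n))

end local_

end Pool.Agent.H917R3.XC
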