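import Mathlib

/-!
# Laurent polynomials and the local ring along `1 + x_j = 0`
-/

set_option linter.unusedSectionVars false
set_option linter.unusedSimpArgs false

namespace Pool.Agent.H917R3.XC

section basics

variable {V : Type} [Fintype V] [DecidableEq V] {K : Type} [Field K] [Algebra ℂ K]

/-- Laurent polynomials with exponents in `V → ℤ`. -/
abbrev Lau (V : Type) : Type := AddMonoidAlgebra ℂ (V → ℤ)

/-- A Laurent monomial in elements of a field. -/
def mon (X : V → K) (m : V → ℤ) : K := ∏ v, X v ^ m v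

omit [DecidableEq V] [Algebra ℂ K] in
theorem mon_add {X : V → K} (hX : ∀ v, X v ≠ 0) (m m' : V → ℤ) :
    mon X (m + m') = mon X m * mon X m' := by
  unfold mon
  rw [← Finset.prod_mul_distrib]
  exact Finset.prod_congr rfl fun v _ => zpow_add₀ (hX v) _ _

omit [DecidableEq V] [Algebra ℂ K] in
theorem mon_zero (X : V → K) : mon X 0 = 1 := by
  simp [mon]

omit [DecidableEq V] [Algebra ℂ K] in
theorem mon_ne_zero {X : V → K} (hX : ∀ v, X v ≠ 0) (m : V → ℤ) : mon X m ≠ 0 :=
  Finset.prod_ne_zero_iff.mpr fun v _ => zpow_ne_zero _ (hX v)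

omit [Algebra ℂ K] in
theorem mon_single (X : V → K) (j : V) (a : ℤ) : mon X (Pi.single j a) = X j ^ a := by
  unfold mon
  rw [Finset.prod_eq_single j]
  · simp
  · intro b _ hb
    simp [Pi.single_eq_of_ne hb]
  · simp

/-- Substitution of nonzero field elements in Laurent polynomials. -/
noncomputable def ev (X : V → K) (hX : ∀ v, X v ≠ 0) : Lau V →ₐ[ℂ] K :=
  AddMonoidAlgebra.lift ℂ K (V → ℤ)
    { toFun := fun m => mon X (Multiplicative.toAdd m)
      map_one' := mon_zero X
      map_mul' := fun _ _ => mon_add hX _ _ }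

theorem ev_single {X : V → K} (hX : ∀ v, X v ≠ 0) (m : V → ℤ) (c : ℂ) :
    ev X hX (AddMonoidAlgebra.single m c) = algebraMap ℂ K c * mon X m := by
  unfold ev
  rw [AddMonoidAlgebra.lift_single, Algebra.smul_def]
  rfl

/-- the Laurent monomial -/
noncomputable def xm (m : V → ℤ) : Lau V := AddMonoidAlgebra.single m 1

theorem ev_xm {X : V → K} (hX : ∀ v, X v ≠ 0) (m : V → ℤ) : ev X hX (xm m) = mon X m := by
  rw [xm, ev_single, map_one, one_mul]

omit [Fintype V] [DecidableEq V] in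
theorem xm_add (m m' : V → ℤ) : (xm (m + m') : Lau V) = xm m * xm m' := by
  unfold xm
  rw [AddMonoidAlgebra.single_mul_single, one_mul]

omit [Fintype V] [DecidableEq V] in
theorem xm_zero : (xm 0 : Lau V) = 1 := rfl

/-- the variable -/
noncomputable def xv (j : V) : Lau V := xm (Pi.single j 1)

theorem ev_xv {X : V → K} (hX : ∀ v, X v ≠ 0) (j : V) : ev X hX (xv j) = X j := by
  rw [xv, ev_xm, mon_single, zpow_one]

/-- The Laurent polynomials in `X`: the range of the substitution. -/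
def Reg (X : V → K) (f : K) : Prop :=
  f ∈ Algebra.adjoin ℂ (Set.range X ∪ Set.range (fun v => (X v)⁻¹))

theorem reg_iff {X : V → K} (hX : ∀ v, X v ≠ 0) (f : K) : Reg X f ↔ ∃ p, ev X hX p = f := by
  constructor
  · intro h
    have h1 : Algebra.adjoin ℂ (Set.range X ∪ Set.range (fun v => (X v)⁻¹)) ≤
        (ev X hX).range := by
      apply Algebra.adjoin_le
      rintro _ (⟨v, rfl⟩ | ⟨v, rfl⟩)
      · exact ⟨xv v, ev_xv hX v⟩
      · refine ⟨xm (Pi.single v (-1)), ?_⟩
        show ev X hX (xm (Pi.single v (-1))) = (X v)⁻¹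
        rw [ev_xm, mon_single, zpow_neg_one]
    exact h1 h
  · rintro ⟨p, rfl⟩
    unfold Reg
    set A := Algebra.adjoin ℂ (Set.range X ∪ Set.range (fun v => (X v)⁻¹)) with hA
    have hpow : ∀ (v : V) (a : ℤ), X v ^ a ∈ A := by
      intro v a
      have h1 : X v ∈ A := Algebra.subset_adjoin (Or.inl ⟨v, rfl⟩)
      have h2 : (X v)⁻¹ ∈ A := Algebra.subset_adjoin (Or.inr ⟨v, rfl⟩)
      rcases a with a | a
      · rw [Int.ofNat_eq_natCast, zpow_natCast]
        exact A.pow_mem h1 _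
      · rw [zpow_negSucc, ← inv_pow]
        exact A.pow_mem h2 _
    induction p using AddMonoidAlgebra.induction_on with
    | of m =>
      have : ev X hX (AddMonoidAlgebra.of ℂ (V → ℤ) (Multiplicative.ofAdd m)) = mon X m :=
        ev_xm hX m
      rw [this]
      exact A.prod_mem fun v _ => hpow v _
    | add x y hx hy =>
      rw [map_add]
      exact A.add_mem hx hy
    | smul r x hx =>
      rw [map_smul]
      exact A.smul_mem hx r

/-- the element `1 + x_j` -/
noncomputable def uj (j : V) : Lau V := 1 + xv j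

theorem ev_uj {X : V → K} (hX : ∀ v, X v ≠ 0) (j : V) : ev X hX (uj j) = 1 + X j := by
  rw [uj, map_add, map_one, ev_xv]

/-- The restriction to `x_j = -1`. -/
noncomputable def pij (j : V) : Lau V →ₐ[ℂ] Lau V :=
  AddMonoidAlgebra.lift ℂ (Lau V) (V → ℤ)
    { toFun := fun m => AddMonoidAlgebra.single (Function.update (Multiplicative.toAdd m) j 0)
        ((-1 : ℂ) ^ (Multiplicative.toAdd m j))
      map_one' := by
        have h : Function.update (Multiplicative.toAdd (1 : Multiplicative (V → ℤ))) j 0 = 0 := by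
          funext v
          by_cases hv : v = j
          · subst hv
            simp
          · rw [Function.update_of_ne hv]
            rfl
        rw [h]
        have h2 : (Multiplicative.toAdd (1 : Multiplicative (V → ℤ))) j = 0 := rfl
        rw [h2, zpow_zero]
        rfl
      map_mul' := fun a b => by
        rw [AddMonoidAlgebra.single_mul_single, toAdd_mul]
        congr 1
        · funext v
          by_cases hv : v = j
          · subst hv
            simp
          · simp [Function.update_of_ne hv]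
        · rw [Pi.add_apply, zpow_add₀ (by norm_num)] }

theorem pij_single (j : V) (m : V → ℤ) (c : ℂ) :
    pij j (AddMonoidAlgebra.single m c) =
      AddMonoidAlgebra.single (Function.update m j 0) (c * (-1 : ℂ) ^ (m j)) := by
  unfold pij
  rw [AddMonoidAlgebra.lift_single]
  simp

theorem pij_xm (j : V) (m : V → ℤ) :
    pij j (xm m) = AddMonoidAlgebra.single (Function.update m j 0) ((-1 : ℂ) ^ (m j)) := by
  rw [xm, pij_single, one_mul]

theorem pij_xv_self (j : V) : pij j (xv j) = -1 := by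
  rw [xv, pij_xm]
  have h : Function.update (Pi.single j (1 : ℤ)) j 0 = (0 : V → ℤ) := by
    funext v
    by_cases hv : v = j
    · subst hv
      simp
    · simp [Function.update_of_ne hv, hv]
  rw [h, Pi.single_eq_same, zpow_one]
  have h2 : (AddMonoidAlgebra.single 0 (-1) : Lau V) = -AddMonoidAlgebra.single 0 1 := by
    rw [← AddMonoidAlgebra.single_neg]
  rw [h2]
  rfl

theorem pij_uj (j : V) : pij j (uj j) = 0 := by
  rw [uj, map_add, map_one, pij_xv_self]
  ring

theorem pij_xv_ne {j k : V} (h : k ≠ j) : pij j (xv k) = xv k := by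
  rw [xv, pij_xm]
  have h1 : Function.update (Pi.single k (1 : ℤ)) j 0 = (Pi.single k (1 : ℤ) : V → ℤ) := by
    funext v
    by_cases hv : v = j
    · subst hv
      simp [h.symm]
    · rw [Function.update_of_ne hv]
  rw [h1, Pi.single_eq_of_ne h.symm, zpow_zero]
  rfl

theorem uj_dvd_sub_pij (j : V) (g : Lau V) : uj j ∣ g - pij j g := by
  have hq : (Ideal.Quotient.mk (Ideal.span {(uj j : Lau V)})) (xv j) = -1 := by
    have h1 : (Ideal.Quotient.mk (Ideal.span {(uj j : Lau V)})) (uj j) = 0 :=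
      Ideal.Quotient.eq_zero_iff_mem.mpr (Ideal.subset_span rfl)
    rw [uj, map_add, map_one] at h1
    exact eq_neg_of_add_eq_zero_right h1
  set Q := Ideal.Quotient.mk (Ideal.span {(uj j : Lau V)}) with hQ
  have hpow : ∀ a : ℤ, Q (xm (Pi.single j a)) = Q (AddMonoidAlgebra.single 0 ((-1 : ℂ) ^ a)) := by
    intro a
    induction a using Int.induction_on with
    | zero =>
      rw [Pi.single_zero, xm, zpow_zero]
    | succ i ih =>
      rw [Pi.single_add, xm_add, map_mul, ih]
      have : (xm (Pi.single j 1) : Lau V) = xv j := rfl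
      rw [this, hq, zpow_add₀ (by norm_num), zpow_one]
      have h3 : (AddMonoidAlgebra.single 0 ((-1 : ℂ) ^ (i : ℤ) * -1) : Lau V) =
          AddMonoidAlgebra.single 0 ((-1 : ℂ) ^ (i : ℤ)) * (-1) := by
        have h4 : (-1 : Lau V) = AddMonoidAlgebra.single 0 (-1) := by
          rw [AddMonoidAlgebra.single_neg]
          rfl
        rw [h4, AddMonoidAlgebra.single_mul_single, add_zero]
      rw [h3, map_mul, map_neg, map_one]
    | pred i ih =>
      have h0 : (Pi.single j (-(i : ℤ)) : V → ℤ) = Pi.single j (-(i : ℤ) - 1) + Pi.single j 1 := by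
        rw [← Pi.single_add]
        congr 1
        ring
      rw [h0, xm_add, map_mul] at ih
      have : (xm (Pi.single j 1) : Lau V) = xv j := rfl
      rw [this, hq] at ih
      have h5 : Q (xm (Pi.single j (-(i : ℤ) - 1))) =
          - Q (AddMonoidAlgebra.single 0 ((-1 : ℂ) ^ (-(i : ℤ)))) := by
        rw [← ih]
        ring
      rw [h5, zpow_sub₀ (by norm_num), zpow_one, ← map_neg, ← AddMonoidAlgebra.single_neg]
      congr 2
      rw [div_neg, div_one]
  have key : ∀ g : Lau V, Q g = Q (pij j g) := by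
    intro g
    induction g using AddMonoidAlgebra.induction_on with
    | of m =>
      have h1 : AddMonoidAlgebra.of ℂ (V → ℤ) (Multiplicative.ofAdd m) = xm m := rfl
      have h2 : m = Function.update m j 0 + Pi.single j (m j) := by
        funext v
        by_cases hv : v = j
        · subst hv
          simp
        · simp [Function.update_of_ne hv, hv]
      have h3 : (AddMonoidAlgebra.single (Function.update m j 0) ((-1 : ℂ) ^ (m j)) : Lau V) =
          xm (Function.update m j 0) * AddMonoidAlgebra.single 0 ((-1 : ℂ) ^ (m j)) := by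
        rw [xm, AddMonoidAlgebra.single_mul_single, one_mul, add_zero]
      rw [h1, pij_xm, h3, map_mul, ← hpow, ← map_mul, ← xm_add, ← h2]
    | add x y hx hy => rw [map_add, map_add, map_add, hx, hy]
    | smul r x hx =>
      have h0 : pij j (r • x) = r • pij j x := map_smul _ _ _
      rw [h0, Algebra.smul_def, Algebra.smul_def, map_mul, map_mul, hx]
  have h1 := key g
  rw [← sub_eq_zero, ← map_sub, Ideal.Quotient.eq_zero_iff_mem, Ideal.mem_span_singleton] at h1
  exact h1

theorem uj_dvd_of_pij {j : V} {g : Lau V} (h : pij j g = 0) : uj j ∣ g := by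
  have := uj_dvd_sub_pij j g
  rwa [h, sub_zero] at this

instance : NoZeroDivisors (Lau V) := inferInstance

instance : IsDomain (Lau V) := NoZeroDivisors.to_isDomain _

theorem uj_ne_zero (j : V) : (uj j : Lau V) ≠ 0 := by
  intro h
  have h1 : ev (K := ℂ) (fun _ : V => (1 : ℂ)) (fun _ => one_ne_zero) (uj j) = 0 := by
    rw [h, map_zero]
  rw [ev_uj] at h1
  norm_num at h1

/-- cancellation -/
theorem uj_pow_dvd {j : V} {q : Lau V} (hq : pij j q ≠ 0) (N : ℕ) :
    ∀ g p : Lau V, g * q = uj j ^ N * p → ∃ g', g = uj j ^ N * g' := by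
  induction N with
  | zero => exact fun g p _ => ⟨g, by rw [pow_zero, one_mul]⟩
  | succ N ih =>
    intro g p h
    have h1 : pij j g = 0 := by
      have h2 := congrArg (pij j) h
      rw [map_mul, map_mul, map_pow, pij_uj, zero_pow (Nat.succ_ne_zero N), zero_mul] at h2
      exact (mul_eq_zero.mp h2).resolve_right hq
    obtain ⟨g1, rfl⟩ := uj_dvd_of_pij h1
    have h3 : g1 * q = uj j ^ N * p := by
      apply mul_left_cancel₀ (uj_ne_zero j)
      rw [← mul_assoc, h]
      ring
    obtain ⟨g', rfl⟩ := ih g1 p h3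
    exact ⟨g', by ring⟩

end basics

section local_ring

variable (V : Type) [Fintype V] [DecidableEq V] (K : Type) [Field K] [Algebra ℂ K]

/-- A chart: algebraically independent nonzero elements. -/
structure Chart where
  X : V → K
  ne : ∀ v, X v ≠ 0
  inj : Function.Injective (ev X ne)

variable {V K}

/-- The local ring of a chart along `1 + X_j = 0`. -/
def Chart.Loc (c : Chart V K) (j : V) : Subring K where
  carrier := {x | ∃ p q : Lau V, pij j q ≠ 0 ∧ x * ev c.X c.ne q = ev c.X c.ne p}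
  zero_mem' := ⟨0, 1, by rw [map_one]; exact one_ne_zero, by simp⟩
  one_mem' := ⟨1, 1, by rw [map_one]; exact one_ne_zero, by simp⟩
  add_mem' := by
    rintro x y ⟨p, q, hq, h⟩ ⟨p', q', hq', h'⟩
    refine ⟨p * q' + p' * q, q * q', ?_, ?_⟩
    · rw [map_mul]
      exact mul_ne_zero hq hq'
    · rw [map_mul, map_add, map_mul, map_mul, ← h, ← h']
      ring
  mul_mem' := by
    rintro x y ⟨p, q, hq, h⟩ ⟨p', q', hq', h'⟩
    refine ⟨p * p', q * q', ?_, ?_⟩
    · rw [map_mul]
      exact mul_ne_zero hq hq'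
    · rw [map_mul, map_mul, ← h, ← h']
      ring
  neg_mem' := by
    rintro x ⟨p, q, hq, h⟩
    exact ⟨-p, q, hq, by rw [map_neg, ← h]; ring⟩

theorem Chart.mem_Loc {c : Chart V K} {j : V} {x : K} : x ∈ c.Loc j ↔
    ∃ p q : Lau V, pij j q ≠ 0 ∧ x * ev c.X c.ne q = ev c.X c.ne p := Iff.rfl

theorem Chart.ev_mem_Loc (c : Chart V K) (j : V) (p : Lau V) : ev c.X c.ne p ∈ c.Loc j :=
  ⟨p, 1, by rw [map_one]; exact one_ne_zero, by simp⟩

theorem Chart.ev_ne_zero (c : Chart V K) {p : Lau V} (hp : p ≠ 0) : ev c.X c.ne p ≠ 0 := by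
  rw [Ne, map_eq_zero_iff _ c.inj]
  exact hp

theorem ne_zero_of_pij {j : V} {q : Lau V} (hq : pij j q ≠ 0) : q ≠ 0 := by
  rintro rfl
  exact hq (map_zero _)

theorem Chart.inv_mem_Loc (c : Chart V K) {j : V} {q : Lau V} (hq : pij j q ≠ 0) :
    (ev c.X c.ne q)⁻¹ ∈ c.Loc j :=
  ⟨1, q, hq, by rw [inv_mul_cancel₀ (c.ev_ne_zero (ne_zero_of_pij hq)), map_one]⟩

theorem Chart.u_ne_zero (c : Chart V K) (j : V) : 1 + c.X j ≠ 0 := by
  rw [← ev_uj c.ne]
  exact c.ev_ne_zero (uj_ne_zero j)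

theorem Chart.u_mem (c : Chart V K) (j : V) : 1 + c.X j ∈ c.Loc j := by
  rw [← ev_uj c.ne]
  exact c.ev_mem_Loc j _

/-- one plus an element of the maximal ideal is a unit -/
theorem Chart.one_add_u_mul (c : Chart V K) (j : V) {y : K} (hy : y ∈ c.Loc j) :
    1 + (1 + c.X j) * y ≠ 0 ∧ (1 + (1 + c.X j) * y)⁻¹ ∈ c.Loc j := by
  obtain ⟨p, q, hq, h⟩ := hy
  have h1 : pij j (q + uj j * p) ≠ 0 := by
    rw [map_add, map_mul, pij_uj, zero_mul, add_zero]
    exact hq
  have h2 : ev c.X c.ne (q + uj j * p) = (1 + (1 + c.X j) * y) * ev c.X c.ne q := by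
    rw [map_add, map_mul, ev_uj, ← h]
    ring
  have h3 := c.ev_ne_zero (ne_zero_of_pij h1)
  have h4 : 1 + (1 + c.X j) * y ≠ 0 := by
    intro h0
    rw [h2, h0, zero_mul] at h3
    exact h3 rfl
  refine ⟨h4, q, q + uj j * p, h1, ?_⟩
  rw [h2, ← mul_assoc, inv_mul_cancel₀ h4, one_mul]

/-- units of the local ring -/
def Chart.IsU (c : Chart V K) (j : V) (x : K) : Prop := x ≠ 0 ∧ x ∈ c.Loc j ∧ x⁻¹ ∈ c.Loc j

theorem Chart.IsU.mul {c : Chart V K} {j : V} {x y : K} (hx : c.IsU j x) (hy : c.IsU j y) :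
    c.IsU j (x * y) :=
  ⟨mul_ne_zero hx.1 hy.1, (c.Loc j).mul_mem hx.2.1 hy.2.1, by
    rw [mul_inv]
    exact (c.Loc j).mul_mem hx.2.2 hy.2.2⟩

theorem Chart.IsU.inv {c : Chart V K} {j : V} {x : K} (hx : c.IsU j x) : c.IsU j x⁻¹ :=
  ⟨inv_ne_zero hx.1, hx.2.2, by rw [inv_inv]; exact hx.2.1⟩

theorem Chart.IsU.one (c : Chart V K) (j : V) : c.IsU j 1 :=
  ⟨one_ne_zero, (c.Loc j).one_mem, by rw [inv_one]; exact (c.Loc j).one_mem⟩

theorem Chart.IsU.zpow {c : Chart V K} {j : V} {x : K} (hx : c.IsU j x) (e : ℤ) :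
    c.IsU j (x ^ e) := by
  have hn : ∀ n : ℕ, c.IsU j (x ^ n) := by
    intro n
    induction n with
    | zero => simpa using Chart.IsU.one c j
    | succ n ih =>
      rw [pow_succ]
      exact ih.mul hx
  rcases e with n | n
  · rw [Int.ofNat_eq_natCast, zpow_natCast]
    exact hn n
  · rw [zpow_negSucc]
    exact (hn (n + 1)).inv

theorem Chart.isU_ev (c : Chart V K) {j : V} {q : Lau V} (hq : pij j q ≠ 0) :
    c.IsU j (ev c.X c.ne q) :=
  ⟨c.ev_ne_zero (ne_zero_of_pij hq), c.ev_mem_Loc j q, c.inv_mem_Loc hq⟩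

theorem Chart.isU_X (c : Chart V K) (j i : V) : c.IsU j (c.X i) := by
  rw [← ev_xv c.ne]
  apply c.isU_ev
  rw [xv, pij_xm]
  rw [Ne, AddMonoidAlgebra.single_eq_zero]
  exact zpow_ne_zero _ (by norm_num)

theorem Chart.isU_one_add (c : Chart V K) (j : V) {y : K} (hy : y ∈ c.Loc j) :
    c.IsU j (1 + (1 + c.X j) * y) :=
  ⟨(c.one_add_u_mul j hy).1, (c.Loc j).add_mem (c.Loc j).one_mem
    ((c.Loc j).mul_mem (c.u_mem j) hy), (c.one_add_u_mul j hy).2⟩

/-- order along the divisor -/
def Chart.Ord (c : Chart V K) (j : V) (x : K) (e : ℤ) : Prop :=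
  ∃ w, c.IsU j w ∧ x = (1 + c.X j) ^ e * w

theorem Chart.Ord.mul {c : Chart V K} {j : V} {x y : K} {a b : ℤ} (hx : c.Ord j x a)
    (hy : c.Ord j y b) : c.Ord j (x * y) (a + b) := by
  obtain ⟨w, hw, rfl⟩ := hx
  obtain ⟨w', hw', rfl⟩ := hy
  refine ⟨w * w', hw.mul hw', ?_⟩
  rw [zpow_add₀ (c.u_ne_zero j)]
  ring

theorem Chart.Ord.zpow {c : Chart V K} {j : V} {x : K} {a : ℤ} (hx : c.Ord j x a) (e : ℤ) :
    c.Ord j (x ^ e) (a * e) := by
  obtain ⟨w, hw, rfl⟩ := hx
  exact ⟨w ^ e, hw.zpow e, by rw [mul_zpow, zpow_mul]⟩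

theorem Chart.Ord.inv {c : Chart V K} {j : V} {x : K} {a : ℤ} (hx : c.Ord j x a) :
    c.Ord j x⁻¹ (-a) := by
  obtain ⟨w, hw, rfl⟩ := hx
  exact ⟨w⁻¹, hw.inv, by rw [mul_inv, zpow_neg]⟩

theorem Chart.IsU.ord {c : Chart V K} {j : V} {x : K} (hx : c.IsU j x) : c.Ord j x 0 :=
  ⟨x, hx, by rw [zpow_zero, one_mul]⟩

theorem Chart.Ord.isU {c : Chart V K} {j : V} {x : K} (hx : c.Ord j x 0) : c.IsU j x := by
  obtain ⟨w, hw, rfl⟩ := hx
  rwa [zpow_zero, one_mul]

/-- an element of positive order lies in the maximal ideal -/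
theorem Chart.Ord.pos {c : Chart V K} {j : V} {x : K} {a : ℤ} (hx : c.Ord j x a) (ha : 0 < a) :
    ∃ y ∈ c.Loc j, x = (1 + c.X j) * y := by
  obtain ⟨w, hw, rfl⟩ := hx
  obtain ⟨n, rfl⟩ : ∃ n : ℕ, a = n + 1 := ⟨(a - 1).toNat, by omega⟩
  refine ⟨(1 + c.X j) ^ n * w, (c.Loc j).mul_mem ((c.Loc j).pow_mem (c.u_mem j) n) hw.2.1, ?_⟩
  rw [zpow_add₀ (c.u_ne_zero j), zpow_one, zpow_natCast]
  ring

theorem Chart.Ord.mem {c : Chart V K} {j : V} {x : K} {a : ℤ} (hx : c.Ord j x a) (ha : 0 ≤ a) :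
    x ∈ c.Loc j := by
  obtain ⟨w, hw, rfl⟩ := hx
  obtain ⟨n, rfl⟩ : ∃ n : ℕ, a = n := ⟨a.toNat, by omega⟩
  rw [zpow_natCast]
  exact (c.Loc j).mul_mem ((c.Loc j).pow_mem (c.u_mem j) n) hw.2.1

end local_ring

end Pool.Agent.H917R3.XC
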