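import Pool.Agent.H917R3.Laurent

/-!
# Seeds and mutations of cluster `X`-type
-/

set_option linter.unusedSectionVars false
set_option linter.unusedSimpArgs false

namespace Pool.Agent.H917R3.XC

/-- A seed: an integer exchange matrix and elements of a field indexed by the same set. -/
structure Seed (V K : Type) where
  ε : V → V → ℤ
  X : V → K

/-- Mutation of a seed (with the `X`-type transformation of the variables). -/
def Seed.mutate {V K : Type} [DecidableEq V] [Field K] (s : Seed V K) (k : V) : Seed V K where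
  ε := fun i j => if i = k ∨ j = k then - s.ε i j
    else s.ε i j + (|s.ε i k| * s.ε k j + s.ε i k * |s.ε k j|) / 2
  X := fun i => if i = k then (s.X k)⁻¹
    else s.X i * (1 + s.X k ^ (- Int.sign (s.ε i k))) ^ (- s.ε i k)

theorem half_formula (a c : ℤ) : (|a| * c + a * |c|) / 2 = max a 0 * c - a * min 0 c := by
  rcases le_total 0 a with ha | ha <;> rcases le_total 0 c with hc | hc
  · rw [abs_of_nonneg ha, abs_of_nonneg hc, max_eq_left ha, min_eq_left hc]
    omega
  · rw [abs_of_nonneg ha, abs_of_nonpos hc, max_eq_left ha, min_eq_right hc]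
    have : a * c + a * -c = 0 := by ring
    rw [this]
    simp
  · rw [abs_of_nonpos ha, abs_of_nonneg hc, max_eq_right ha, min_eq_left hc]
    have : -a * c + a * c = 0 := by ring
    rw [this]
    simp
  · rw [abs_of_nonpos ha, abs_of_nonpos hc, max_eq_right ha, min_eq_right hc]
    have : -a * c + a * -c = (-(a * c)) * 2 := by ring
    rw [this, Int.mul_ediv_cancel _ (by norm_num)]
    ring

section

variable {V : Type} [Fintype V] [DecidableEq V] {K : Type} [Field K] [Algebra ℂ K]

theorem mutate_ε_of_ne (s : Seed V K) {k i j : V} (hi : i ≠ k) (hj : j ≠ k) :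
    (s.mutate k).ε i j = s.ε i j + (max (s.ε i k) 0 * s.ε k j - s.ε i k * min 0 (s.ε k j)) := by
  simp only [Seed.mutate]
  rw [if_neg (by tauto), half_formula]

theorem mutate_ε_left (s : Seed V K) (k j : V) : (s.mutate k).ε k j = - s.ε k j := by
  simp [Seed.mutate]

theorem mutate_ε_right (s : Seed V K) (k i : V) : (s.mutate k).ε i k = - s.ε i k := by
  simp [Seed.mutate]

theorem mutate_X_self (s : Seed V K) (k : V) : (s.mutate k).X k = (s.X k)⁻¹ := by
  simp [Seed.mutate]

theorem mutate_X_of_ne (s : Seed V K) {k i : V} (hi : i ≠ k) (h0 : s.X k ≠ 0) :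
    (s.mutate k).X i =
      s.X i * (s.X k ^ (max (s.ε i k) 0) * (1 + s.X k) ^ (- s.ε i k)) := by
  simp only [Seed.mutate]
  rw [if_neg hi]
  congr 1
  rcases lt_trichotomy (s.ε i k) 0 with h | h | h
  · rw [Int.sign_eq_neg_one_of_neg h, max_eq_right h.le, neg_neg, zpow_one, zpow_zero, one_mul]
  · rw [h]
    simp
  · rw [Int.sign_eq_one_of_pos h, max_eq_left h.le, zpow_neg_one]
    have h1 : 1 + (s.X k)⁻¹ = (s.X k)⁻¹ * (1 + s.X k) := by
      field_simp
      ring
    rw [h1, mul_zpow, inv_zpow, zpow_neg, inv_inv]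

/-- A good seed: skew-symmetric matrix and algebraically independent variables. -/
structure Seed.Good (s : Seed V K) : Prop where
  skew : ∀ i j, s.ε i j = - s.ε j i
  ne : ∀ v, s.X v ≠ 0
  inj : Function.Injective (ev s.X ne)

/-- the chart of a good seed -/
def Seed.Good.chart {s : Seed V K} (hs : s.Good) : Chart V K := ⟨s.X, hs.ne, hs.inj⟩

theorem Seed.Good.diag {s : Seed V K} (hs : s.Good) (i : V) : s.ε i i = 0 := by
  have := hs.skew i i
  omega

theorem Seed.Good.u_ne {s : Seed V K} (hs : s.Good) (k : V) : 1 + s.X k ≠ 0 :=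
  hs.chart.u_ne_zero k

/-- the grading associated with a direction -/
def Seed.b (s : Seed V K) (k : V) : (V → ℤ) →+ ℤ where
  toFun m := ∑ i, m i * s.ε i k
  map_zero' := by simp
  map_add' := by
    intro x y
    simp [add_mul, Finset.sum_add_distrib]

/-- the transformation of exponents -/
def Seed.T (s : Seed V K) (k : V) : (V → ℤ) →+ (V → ℤ) where
  toFun m := fun i => if i = k then - m k + ∑ i, m i * max (s.ε i k) 0 else m i
  map_zero' := by
    funext i
    simp
  map_add' := by
    intro x y
    funext i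
    by_cases hi : i = k
    · simp [hi, add_mul, Finset.sum_add_distrib]
      ring
    · simp [hi]

theorem Seed.T_apply_self (s : Seed V K) (k : V) (m : V → ℤ) :
    s.T k m k = - m k + ∑ i, m i * max (s.ε i k) 0 := if_pos rfl

theorem Seed.T_apply_ne (s : Seed V K) {k i : V} (hi : i ≠ k) (m : V → ℤ) :
    s.T k m i = m i := if_neg hi

theorem Seed.Good.b_T {s : Seed V K} (hs : s.Good) (k : V) (m : V → ℤ) :
    s.b k (s.T k m) = s.b k m := by
  show ∑ i, s.T k m i * s.ε i k = ∑ i, m i * s.ε i k
  refine Finset.sum_congr rfl fun i _ => ?_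
  by_cases hi : i = k
  · rw [hi, hs.diag]
    simp
  · rw [s.T_apply_ne hi]

theorem Seed.Good.T_T {s : Seed V K} (hs : s.Good) (k : V) (m : V → ℤ) :
    s.T k (s.T k m) = m := by
  funext i
  by_cases hi : i = k
  · subst hi
    rw [s.T_apply_self, s.T_apply_self]
    have : ∑ j, s.T i m j * max (s.ε j i) 0 = ∑ j, m j * max (s.ε j i) 0 := by
      refine Finset.sum_congr rfl fun j _ => ?_
      by_cases hj : j = i
      · rw [hj, hs.diag]
        simp
      · rw [s.T_apply_ne hj]
    rw [this]
    ring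
  · rw [s.T_apply_ne hi, s.T_apply_ne hi]

theorem Seed.Good.b_single {s : Seed V K} (hs : s.Good) (k : V) :
    s.b k (Pi.single k 1) = 0 := by
  show ∑ i, (Pi.single k 1 : V → ℤ) i * s.ε i k = 0
  refine Finset.sum_eq_zero fun i _ => ?_
  by_cases hi : i = k
  · rw [hi, hs.diag, mul_zero]
  · rw [Pi.single_eq_of_ne hi, zero_mul]

omit [Fintype V] [DecidableEq V] [Algebra ℂ K] in
theorem prod_zpow_sum {x : K} (hx : x ≠ 0) (S : Finset V) (a : V → ℤ) :
    ∏ i ∈ S, x ^ a i = x ^ (∑ i ∈ S, a i) := by
  classical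
  induction S using Finset.induction_on with
  | empty => simp
  | insert i S hi ih => rw [Finset.prod_insert hi, Finset.sum_insert hi, zpow_add₀ hx, ih]

theorem Seed.Good.mon_mutate {s : Seed V K} (hs : s.Good) (k : V) (m : V → ℤ) :
    mon (s.mutate k).X m = mon s.X (s.T k m) * (1 + s.X k) ^ (- s.b k m) := by
  have h1 : ∀ i, (s.mutate k).X i ^ m i =
      (if i = k then (s.X k) ^ (- m k) else s.X i ^ m i) *
      ((s.X k) ^ (m i * max (s.ε i k) 0) * (1 + s.X k) ^ (-(m i * s.ε i k))) := by
    intro i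
    by_cases hi : i = k
    · subst hi
      rw [if_pos rfl, mutate_X_self, hs.diag]
      simp
    · rw [if_neg hi, mutate_X_of_ne s hi (hs.ne k), mul_zpow, mul_zpow, ← zpow_mul, ← zpow_mul]
      congr 3
      · ring
      · ring
  have h2 : mon s.X (s.T k m) = (∏ i, if i = k then (s.X k) ^ (- m k) else s.X i ^ m i) *
      (s.X k) ^ (∑ i, m i * max (s.ε i k) 0) := by
    unfold mon
    rw [← Finset.mul_prod_erase _ _ (Finset.mem_univ k),
      ← Finset.mul_prod_erase Finset.univ (fun i => if i = k then (s.X k) ^ (- m k) else s.X i ^ m i)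
        (Finset.mem_univ k), if_pos rfl, s.T_apply_self, zpow_add₀ (hs.ne k)]
    have h3 : ∏ x ∈ Finset.univ.erase k, s.X x ^ s.T k m x =
        ∏ x ∈ Finset.univ.erase k, (if x = k then (s.X k) ^ (- m k) else s.X x ^ m x) := by
      refine Finset.prod_congr rfl fun i hi => ?_
      have hik := (Finset.mem_erase.mp hi).1
      rw [s.T_apply_ne hik, if_neg hik]
    rw [h3]
    ring
  have h4 : - s.b k m = ∑ i, -(m i * s.ε i k) := by
    rw [Finset.sum_neg_distrib]
    rfl
  unfold mon at h2 ⊢
  rw [Finset.prod_congr rfl fun i _ => h1 i, Finset.prod_mul_distrib, Finset.prod_mul_distrib,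
    prod_zpow_sum (hs.ne k), prod_zpow_sum (hs.u_ne k), h2, h4]
  ring

/-- projection to a graded piece -/
noncomputable def G (b : (V → ℤ) →+ ℤ) (β : ℤ) : Lau V →+ Lau V :=
  (AddMonoidAlgebra.coeffAddEquiv.symm.toAddMonoidHom).comp
    ((Finsupp.filterAddHom (fun m => b m = β)).comp AddMonoidAlgebra.coeffAddEquiv.toAddMonoidHom)

theorem G_single (b : (V → ℤ) →+ ℤ) (β : ℤ) (m : V → ℤ) (c : ℂ) :
    G b β (AddMonoidAlgebra.single m c) =
      if b m = β then AddMonoidAlgebra.single m c else 0 := by
  have h : G b β (AddMonoidAlgebra.single m c) =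
      AddMonoidAlgebra.ofCoeff (Finsupp.filter (fun m => b m = β) (Finsupp.single m c)) := rfl
  rw [h]
  split_ifs with h1
  · rw [show Finsupp.filter (fun m => b m = β) (Finsupp.single m c) = Finsupp.single m c from
      Finsupp.filter_single_of_pos (fun m => b m = β) h1]
    rfl
  · rw [show Finsupp.filter (fun m => b m = β) (Finsupp.single m c) = 0 from
      Finsupp.filter_single_of_neg (fun m => b m = β) h1]
    rfl

theorem lau_induction {motive : Lau V → Prop} (x : Lau V)
    (single : ∀ m c, motive (AddMonoidAlgebra.single m c))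
    (add : ∀ x y, motive x → motive y → motive (x + y)) : motive x := by
  have h := Finsupp.induction_linear (motive := fun x => motive (AddMonoidAlgebra.ofCoeff x))
    x.coeff (by
      have := single 0 0
      rw [AddMonoidAlgebra.single_zero] at this
      exact this) (fun f g hf hg => add _ _ hf hg) (fun a b => single a b)
  exact h

theorem G_mul_uj (b : (V → ℤ) →+ ℤ) (β : ℤ) (k : V) (hb : b (Pi.single k 1) = 0) (x : Lau V) :
    G b β (x * uj k) = G b β x * uj k := by
  induction x using lau_induction with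
  | single m c =>
    have h1 : (AddMonoidAlgebra.single m c * uj k : Lau V) = AddMonoidAlgebra.single m c +
        AddMonoidAlgebra.single (m + Pi.single k 1) c := by
      rw [uj, mul_add, mul_one, xv, xm, AddMonoidAlgebra.single_mul_single, mul_one]
    rw [h1, map_add, G_single, G_single, map_add, hb, add_zero]
    split_ifs with h
    · exact h1.symm
    · simp
  | add x y hx hy => rw [add_mul, map_add, hx, hy, map_add, add_mul]

theorem G_mul_uj_pow (b : (V → ℤ) →+ ℤ) (β : ℤ) (k : V) (hb : b (Pi.single k 1) = 0) (N : ℕ)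
    (x : Lau V) : G b β (x * uj k ^ N) = G b β x * uj k ^ N := by
  induction N with
  | zero => simp
  | succ N ih => rw [pow_succ, ← mul_assoc, G_mul_uj b β k hb, ih, mul_assoc]

/-- the action of the transformation of exponents on Laurent polynomials -/
noncomputable def TQ (T : (V → ℤ) →+ (V → ℤ)) : Lau V →+ Lau V :=
  (AddMonoidAlgebra.lift ℂ (Lau V) (V → ℤ)
    { toFun := fun m => xm (T (Multiplicative.toAdd m))
      map_one' := by
        rw [toAdd_one, map_zero]
        rfl
      map_mul' := fun a b => by rw [toAdd_mul, map_add, xm_add] }).toRingHom.toAddMonoidHom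

theorem TQ_single (T : (V → ℤ) →+ (V → ℤ)) (m : V → ℤ) (c : ℂ) :
    TQ T (AddMonoidAlgebra.single m c) = AddMonoidAlgebra.single (T m) c := by
  have h : TQ T (AddMonoidAlgebra.single m c) = AddMonoidAlgebra.lift ℂ (Lau V) (V → ℤ)
    { toFun := fun m => xm (T (Multiplicative.toAdd m))
      map_one' := by
        rw [toAdd_one, map_zero]
        rfl
      map_mul' := fun a b => by rw [toAdd_mul, map_add, xm_add] } (AddMonoidAlgebra.single m c) := rfl
  rw [h, AddMonoidAlgebra.lift_single]
  simp [xm]

theorem Seed.Good.TQ_TQ {s : Seed V K} (hs : s.Good) (k : V) (q : Lau V) :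
    TQ (s.T k) (TQ (s.T k) q) = q := by
  induction q using lau_induction with
  | single m c => rw [TQ_single, TQ_single, hs.T_T]
  | add x y hx hy => rw [map_add, map_add, hx, hy]

/-- The comparison of the Laurent expansions in two adjacent charts. -/
theorem Seed.Good.compare {s : Seed V K} (hs : s.Good) (k : V)
    (hne : ∀ v, (s.mutate k).X v ≠ 0) (p q : Lau V)
    (h : ev s.X hs.ne p = ev (s.mutate k).X hne q) :
    ∃ N : ℕ, ∀ β : ℤ, (β ≤ N →
        G (s.b k) β p * uj k ^ N = G (s.b k) β (TQ (s.T k) q) * uj k ^ ((N : ℤ) - β).toNat) ∧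
      ((N : ℤ) < β → G (s.b k) β p = 0 ∧ G (s.b k) β (TQ (s.T k) q) = 0) := by
  classical
  -- a statement for q alone
  have hq : ∀ q : Lau V, ∃ N0 : ℕ, ∀ N : ℕ, N0 ≤ N → ∃ r : Lau V,
      ev s.X hs.ne r = ev (s.mutate k).X hne q * (1 + s.X k) ^ N ∧
      ∀ β : ℤ, (β ≤ N → G (s.b k) β r =
        G (s.b k) β (TQ (s.T k) q) * uj k ^ ((N : ℤ) - β).toNat) ∧
      ((N : ℤ) < β → G (s.b k) β r = 0 ∧ G (s.b k) β (TQ (s.T k) q) = 0) := by
    intro q
    induction q using lau_induction with
    | single m c =>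
      refine ⟨(s.b k m).toNat, fun N hN => ?_⟩
      have hbN : s.b k m ≤ N := by omega
      refine ⟨AddMonoidAlgebra.single (s.T k m) c * uj k ^ ((N : ℤ) - s.b k m).toNat, ?_, ?_⟩
      · rw [map_mul, map_pow, ev_single, ev_uj, ev_single, hs.mon_mutate, mul_assoc, mul_assoc,
          mul_assoc]
        congr 2
        rw [← zpow_natCast, ← zpow_natCast, ← zpow_add₀ (hs.u_ne k), Int.toNat_of_nonneg (by omega)]
        congr 1
        ring
      · intro β
        rw [G_mul_uj_pow _ _ _ (hs.b_single k), TQ_single, G_single, hs.b_T]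
        refine ⟨fun _ => ?_, fun hβ => ?_⟩
        · split_ifs with h1
          · rw [h1]
          · rw [zero_mul, zero_mul]
        · rw [if_neg (by omega), zero_mul]
          exact ⟨rfl, rfl⟩
    | add x y hx hy =>
      obtain ⟨N1, h1⟩ := hx
      obtain ⟨N2, h2⟩ := hy
      refine ⟨max N1 N2, fun N hN => ?_⟩
      obtain ⟨r1, hr1, hr1'⟩ := h1 N (le_trans (le_max_left _ _) hN)
      obtain ⟨r2, hr2, hr2'⟩ := h2 N (le_trans (le_max_right _ _) hN)
      refine ⟨r1 + r2, ?_, fun β => ⟨fun hβ => ?_, fun hβ => ?_⟩⟩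
      · rw [map_add, map_add, hr1, hr2, add_mul]
      · rw [map_add, map_add, map_add, (hr1' β).1 hβ, (hr2' β).1 hβ, add_mul]
      · rw [map_add, map_add, map_add, ((hr1' β).2 hβ).1, ((hr1' β).2 hβ).2,
          ((hr2' β).2 hβ).1, ((hr2' β).2 hβ).2, add_zero]
        exact ⟨rfl, rfl⟩
  obtain ⟨N0, hN0⟩ := hq q
  obtain ⟨r, hr, hr'⟩ := hN0 N0 le_rfl
  have hrp : p * uj k ^ N0 = r := by
    apply hs.inj
    rw [hr, ← h, map_mul, map_pow, ev_uj]
  refine ⟨N0, fun β => ⟨fun hβ => ?_, fun hβ => ?_⟩⟩
  · rw [← G_mul_uj_pow _ _ _ (hs.b_single k), hrp, (hr' β).1 hβ]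
  · refine ⟨?_, ((hr' β).2 hβ).2⟩
    have h1 := ((hr' β).2 hβ).1
    rw [← hrp, G_mul_uj_pow _ _ _ (hs.b_single k)] at h1
    exact (mul_eq_zero.mp h1).resolve_right (pow_ne_zero _ (uj_ne_zero k))

theorem eq_zero_of_G (b : (V → ℤ) →+ ℤ) (x : Lau V) (h : ∀ β, G b β x = 0) : x = 0 := by
  have h1 : x.coeff = 0 := by
    ext m
    have h2 := h (b m)
    have h3 : (G b (b m) x).coeff m = x.coeff m := by
      show (Finsupp.filter (fun m' => b m' = b m) x.coeff) m = x.coeff m
      exact Finsupp.filter_apply_pos _ _ rfl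
    rw [← h3, h2]
    rfl
  exact AddMonoidAlgebra.coeffAddEquiv.injective h1

theorem Seed.Good.mutate_ne {s : Seed V K} (hs : s.Good) (k v : V) : (s.mutate k).X v ≠ 0 := by
  by_cases hv : v = k
  · subst hv
    rw [mutate_X_self]
    exact inv_ne_zero (hs.ne v)
  · rw [mutate_X_of_ne s hv (hs.ne k)]
    exact mul_ne_zero (hs.ne v) (mul_ne_zero (zpow_ne_zero _ (hs.ne k))
      (zpow_ne_zero _ (hs.u_ne k)))

theorem Seed.Good.mutate {s : Seed V K} (hs : s.Good) (k : V) : (s.mutate k).Good := by
  refine ⟨fun i j => ?_, hs.mutate_ne k, ?_⟩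
  · by_cases hi : i = k
    · subst hi
      rw [mutate_ε_left, mutate_ε_right, hs.skew i j]
    · by_cases hj : j = k
      · subst hj
        rw [mutate_ε_left, mutate_ε_right, hs.skew i j]
      · rw [mutate_ε_of_ne s hi hj, mutate_ε_of_ne s hj hi, hs.skew j i, hs.skew j k, hs.skew k i]
        rcases le_total 0 (s.ε i k) with h1 | h1 <;> rcases le_total 0 (s.ε k j) with h2 | h2
        · rw [max_eq_left h1, min_eq_left h2, max_eq_right (by omega), min_eq_right (by omega)]
          ring
        · rw [max_eq_left h1, min_eq_right h2, max_eq_left (by omega), min_eq_right (by omega)]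
          ring
        · rw [max_eq_right h1, min_eq_left h2, max_eq_right (by omega), min_eq_left (by omega)]
          ring
        · rw [max_eq_right h1, min_eq_right h2, max_eq_left (by omega), min_eq_left (by omega)]
          ring
  · rw [injective_iff_map_eq_zero]
    intro q hq
    obtain ⟨N, hN⟩ := hs.compare k (hs.mutate_ne k) 0 q (by rw [hq, map_zero])
    have h1 : TQ (s.T k) q = 0 := by
      apply eq_zero_of_G (s.b k)
      intro β
      rcases le_or_gt β N with hβ | hβ
      · have h2 := (hN β).1 hβ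
        rw [map_zero, zero_mul] at h2
        exact (mul_eq_zero.mp h2.symm).resolve_right (pow_ne_zero _ (uj_ne_zero k))
      · exact ((hN β).2 hβ).2
    rw [← hs.TQ_TQ k q, h1, map_zero]

theorem Seed.Good.mutate_mutate {s : Seed V K} (hs : s.Good) (k : V) :
    (s.mutate k).mutate k = s := by
  have hε : ((s.mutate k).mutate k).ε = s.ε := by
    funext i j
    by_cases hi : i = k
    · subst hi
      rw [mutate_ε_left, mutate_ε_left, neg_neg]
    · by_cases hj : j = k
      · subst hj
        rw [mutate_ε_right, mutate_ε_right, neg_neg]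
      · rw [mutate_ε_of_ne _ hi hj, mutate_ε_of_ne _ hi hj, mutate_ε_left, mutate_ε_right]
        rcases le_total 0 (s.ε i k) with h1 | h1 <;> rcases le_total 0 (s.ε k j) with h2 | h2
        · rw [max_eq_left h1, min_eq_left h2, max_eq_right (by omega), min_eq_right (by omega)]
          ring
        · rw [max_eq_left h1, min_eq_right h2, max_eq_right (by omega), min_eq_left (by omega)]
          ring
        · rw [max_eq_right h1, min_eq_left h2, max_eq_left (by omega), min_eq_right (by omega)]
          ring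
        · rw [max_eq_right h1, min_eq_right h2, max_eq_left (by omega), min_eq_left (by omega)]
          ring
  have hX : ((s.mutate k).mutate k).X = s.X := by
    funext i
    by_cases hi : i = k
    · subst hi
      rw [mutate_X_self, mutate_X_self, inv_inv]
    · rw [mutate_X_of_ne _ hi (hs.mutate_ne k k), mutate_X_of_ne _ hi (hs.ne k), mutate_X_self,
        mutate_ε_right]
      have h1 : 1 + (s.X k)⁻¹ = (s.X k)⁻¹ * (1 + s.X k) := by
        have := hs.ne k
        field_simp
        ring
      rw [h1, mul_zpow, neg_neg]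
      have h0 := hs.ne k
      have hu := hs.u_ne k
      have e1 : (1 + s.X k) ^ (-s.ε i k) * (1 + s.X k) ^ (s.ε i k) = 1 := by
        rw [← zpow_add₀ hu, neg_add_cancel, zpow_zero]
      have e2 : s.X k ^ max (s.ε i k) 0 * ((s.X k)⁻¹ ^ max (-s.ε i k) 0 *
          (s.X k)⁻¹ ^ (s.ε i k)) = 1 := by
        rw [inv_zpow', inv_zpow', ← zpow_add₀ h0, ← zpow_add₀ h0]
        have : max (s.ε i k) 0 + (-max (-s.ε i k) 0 + -s.ε i k) = 0 := by
          rcases le_total 0 (s.ε i k) with h2 | h2
          · rw [max_eq_left h2, max_eq_right (by omega)]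
            ring
          · rw [max_eq_right h2, max_eq_left (by omega)]
            ring
        rw [this, zpow_zero]
      calc s.X i * (s.X k ^ max (s.ε i k) 0 * (1 + s.X k) ^ (-s.ε i k)) *
          ((s.X k)⁻¹ ^ max (-s.ε i k) 0 * ((s.X k)⁻¹ ^ (s.ε i k) * (1 + s.X k) ^ (s.ε i k)))
          = s.X i * ((s.X k ^ max (s.ε i k) 0 * ((s.X k)⁻¹ ^ max (-s.ε i k) 0 *
          (s.X k)⁻¹ ^ (s.ε i k)))) * ((1 + s.X k) ^ (-s.ε i k) * (1 + s.X k) ^ (s.ε i k)) := by
            ring
        _ = s.X i := by rw [e1, e2, mul_one, mul_one]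
  cases h : (s.mutate k).mutate k
  rw [h] at hε hX
  simp only at hε hX
  subst hε
  subst hX
  rfl

end

end Pool.Agent.H917R3.XC
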