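import Pool.Agent.H917R3.Initial

/-!
# The thrice-punctured sphere
-/

set_option linter.unusedSectionVars false
set_option linter.unusedSimpArgs false

namespace Pool.Agent.H917R3.XC

section

variable {H V : Type}

/-- The number of punctures: two sides start at the same puncture if they are related by the
rotation `x ↦ opp (prv x)` around their common starting point. -/
noncomputable def Tri.punctures (Δ : Tri H V) : ℕ :=
  Nat.card (Quot fun x y : H => y = Δ.opp (Δ.prv x))

/-- The triangulated surface has genus `g` and `n` punctures: there are `n` punctures and, by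
Euler's formula, `2 * (2 * g - 2 + n)` triangles, that is `6 * (2 * g - 2 + n)` sides. -/
def Tri.HasType [Fintype H] (Δ : Tri H V) (g n : ℕ) : Prop :=
  Δ.punctures = n ∧ (Fintype.card H : ℤ) = 6 * (2 * (g : ℤ) - 2 + (n : ℤ))

theorem fiber_sum [Fintype H] [DecidableEq H] (r : H → H → Prop) [Fintype (Quot r)]
    [DecidableEq (Quot r)] :
    Fintype.card H = ∑ c : Quot r, (Finset.univ.filter fun x : H => Quot.mk r x = c).card := by
  rw [← Finset.card_univ]
  exact Finset.card_eq_sum_card_fiberwise fun x _ => Finset.mem_univ _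

theorem rot_rot_of_type [Fintype H] [DecidableEq H] {Δ : Tri H V} (hΔ : Δ.IsIdeal)
    (ht : Δ.HasType 0 3) (x : H) : Δ.opp (Δ.prv (Δ.opp (Δ.prv x))) = x := by
  obtain ⟨hp, hc⟩ := ht
  have hc6 : Fintype.card H = 6 := by
    push_cast at hc
    omega
  classical
  have : Fintype (Quot fun x y : H => y = Δ.opp (Δ.prv x)) := Fintype.ofFinite _
  have hsum := fiber_sum (fun x y : H => y = Δ.opp (Δ.prv x))
  unfold Tri.punctures at hp
  rw [Nat.card_eq_fintype_card] at hp
  have hq : ∀ y, Quot.mk (fun x y : H => y = Δ.opp (Δ.prv x)) (Δ.opp (Δ.prv y)) =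
      Quot.mk (fun x y : H => y = Δ.opp (Δ.prv x)) y := fun y =>
    (Quot.sound (r := fun x y : H => y = Δ.opp (Δ.prv x)) rfl).symm
  have hne : ∀ y, Δ.opp (Δ.prv y) ≠ y := by
    intro y h
    have h1 := hΔ.not_self_folded (Δ.prv y)
    rw [nxt_prv hΔ] at h1
    exact h1 h
  have hge : ∀ c : Quot (fun x y : H => y = Δ.opp (Δ.prv x)), 2 ≤
      (Finset.univ.filter fun x : H => Quot.mk (fun x y : H => y = Δ.opp (Δ.prv x)) x = c).card := by
    intro c
    obtain ⟨y, rfl⟩ := Quot.mk_surjective c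
    have h1 : ({y, Δ.opp (Δ.prv y)} : Finset H) ⊆ Finset.univ.filter fun x : H =>
        Quot.mk (fun x y : H => y = Δ.opp (Δ.prv x)) x =
          Quot.mk (fun x y : H => y = Δ.opp (Δ.prv x)) y := by
      intro z hz
      rw [Finset.mem_insert, Finset.mem_singleton] at hz
      rw [Finset.mem_filter]
      refine ⟨Finset.mem_univ _, ?_⟩
      rcases hz with rfl | rfl
      · rfl
      · exact hq y
    have h2 := Finset.card_le_card h1
    rwa [Finset.card_pair (hne y).symm] at h2
  by_contra hx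
  have h3 : 3 ≤ (Finset.univ.filter fun z : H =>
      Quot.mk (fun x y : H => y = Δ.opp (Δ.prv x)) z =
        Quot.mk (fun x y : H => y = Δ.opp (Δ.prv x)) x).card := by
    have h1 : ({x, Δ.opp (Δ.prv x), Δ.opp (Δ.prv (Δ.opp (Δ.prv x)))} : Finset H) ⊆
        Finset.univ.filter fun z : H => Quot.mk (fun x y : H => y = Δ.opp (Δ.prv x)) z =
          Quot.mk (fun x y : H => y = Δ.opp (Δ.prv x)) x := by
      intro z hz
      rw [Finset.mem_insert, Finset.mem_insert, Finset.mem_singleton] at hz
      rw [Finset.mem_filter]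
      refine ⟨Finset.mem_univ _, ?_⟩
      rcases hz with rfl | rfl | rfl
      · rfl
      · exact hq x
      · exact (hq _).trans (hq x)
    have h2 := Finset.card_le_card h1
    have h4 : ({x, Δ.opp (Δ.prv x), Δ.opp (Δ.prv (Δ.opp (Δ.prv x)))} : Finset H).card = 3 := by
      rw [Finset.card_eq_three]
      exact ⟨_, _, _, (hne x).symm, fun h => hx h.symm, (hne _).symm, rfl⟩
    rwa [h4] at h2
  have h5 : ∑ c : Quot (fun x y : H => y = Δ.opp (Δ.prv x)), 2 <
      ∑ c : Quot (fun x y : H => y = Δ.opp (Δ.prv x)),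
        (Finset.univ.filter fun x : H => Quot.mk (fun x y : H => y = Δ.opp (Δ.prv x)) x = c).card :=
    Finset.sum_lt_sum (fun c _ => hge c) ⟨_, Finset.mem_univ _, h3⟩
  rw [← hsum, hc6, Finset.sum_const, Finset.card_univ, hp] at h5
  norm_num at h5

theorem not_flippable_of_type [Fintype H] [DecidableEq H] {Δ : Tri H V} (hΔ : Δ.IsIdeal)
    (ht : Δ.HasType 0 3) (x : H) : ¬ Δ.Flippable x := by
  intro h
  apply h.1
  have h1 := rot_rot_of_type hΔ ht x
  have h2 := eq_opp hΔ h1.symm
  exact eq_nxt hΔ h2.symm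

theorem type_of_pillow [Fintype H] [DecidableEq H] {Δ : Tri H V} (hΔ : Δ.IsIdeal) {x : H}
    (h1 : Δ.opp (Δ.prv x) = Δ.nxt (Δ.opp x)) (h2 : Δ.opp (Δ.nxt x) = Δ.prv (Δ.opp x)) :
    Δ.HasType 0 3 := by
  have hS : ({x, Δ.nxt x, Δ.prv x, Δ.opp x, Δ.nxt (Δ.opp x), Δ.prv (Δ.opp x)} : Set H) =
      Set.univ := by
    apply hΔ.connected _ ⟨x, Or.inl rfl⟩
    · rintro y (rfl | rfl | rfl | rfl | rfl | rfl)
      · exact Or.inr (Or.inl rfl)
      · exact Or.inr (Or.inr (Or.inl rfl))
      · rw [nxt_prv hΔ]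
        exact Or.inl rfl
      · exact Or.inr (Or.inr (Or.inr (Or.inr (Or.inl rfl))))
      · exact Or.inr (Or.inr (Or.inr (Or.inr (Or.inr rfl))))
      · rw [nxt_prv hΔ]
        exact Or.inr (Or.inr (Or.inr (Or.inl rfl)))
    · rintro y (rfl | rfl | rfl | rfl | rfl | rfl)
      · exact Or.inr (Or.inr (Or.inr (Or.inl rfl)))
      · rw [h2]
        exact Or.inr (Or.inr (Or.inr (Or.inr (Or.inr rfl))))
      · rw [h1]
        exact Or.inr (Or.inr (Or.inr (Or.inr (Or.inl rfl))))
      · rw [hΔ.opp_opp]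
        exact Or.inl rfl
      · rw [← h1, hΔ.opp_opp]
        exact Or.inr (Or.inr (Or.inl rfl))
      · rw [← h2, hΔ.opp_opp]
        exact Or.inr (Or.inl rfl)
  have q := hΔ.quad x
  have hF : (Finset.univ : Finset H) =
      {x, Δ.nxt x, Δ.prv x, Δ.opp x, Δ.nxt (Δ.opp x), Δ.prv (Δ.opp x)} := by
    apply Finset.coe_injective
    rw [Finset.coe_univ, ← hS]
    push_cast
    rfl
  have hc6 : Fintype.card H = 6 := by
    rw [← Finset.card_univ, hF]
    rw [Finset.card_insert_of_notMem, Finset.card_insert_of_notMem, Finset.card_insert_of_notMem,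
      Finset.card_insert_of_notMem, Finset.card_insert_of_notMem, Finset.card_singleton]
    · simp only [Finset.mem_singleton]
      exact q.cd
    · simp only [Finset.mem_insert, Finset.mem_singleton, not_or]
      exact ⟨q.hc', q.hd'⟩
    · simp only [Finset.mem_insert, Finset.mem_singleton, not_or]
      exact ⟨q.bh', q.bc, q.bd⟩
    · simp only [Finset.mem_insert, Finset.mem_singleton, not_or]
      exact ⟨q.ab, q.ah', q.ac, q.ad⟩
    · simp only [Finset.mem_insert, Finset.mem_singleton, not_or]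
      exact ⟨q.ha, q.hb, q.hh', q.hc, q.hd⟩
  have hrr : ∀ y, Δ.opp (Δ.prv (Δ.opp (Δ.prv y))) = y := by
    intro y
    have hy : y ∈ ({x, Δ.nxt x, Δ.prv x, Δ.opp x, Δ.nxt (Δ.opp x), Δ.prv (Δ.opp x)} : Set H) := by
      rw [hS]
      exact Set.mem_univ _
    rcases hy with rfl | rfl | rfl | rfl | rfl | rfl
    · rw [h1, prv_nxt hΔ, hΔ.opp_opp]
    · rw [prv_nxt hΔ, ← h2, hΔ.opp_opp]
    · rw [prv_prv hΔ, h2, prv_prv hΔ, ← h1, hΔ.opp_opp]
    · rw [← h2, hΔ.opp_opp, prv_nxt hΔ]
    · rw [prv_nxt hΔ, hΔ.opp_opp, h1]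
    · rw [prv_prv hΔ, ← h1, hΔ.opp_opp, prv_prv hΔ, h2]
  have hne : ∀ y, Δ.opp (Δ.prv y) ≠ y := by
    intro y h
    have h1 := hΔ.not_self_folded (Δ.prv y)
    rw [nxt_prv hΔ] at h1
    exact h1 h
  classical
  have : Fintype (Quot fun x y : H => y = Δ.opp (Δ.prv x)) := Fintype.ofFinite _
  have hsum := fiber_sum (fun x y : H => y = Δ.opp (Δ.prv x))
  have hfib : ∀ c : Quot (fun x y : H => y = Δ.opp (Δ.prv x)),
      (Finset.univ.filter fun x : H => Quot.mk (fun x y : H => y = Δ.opp (Δ.prv x)) x = c).card =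
        2 := by
    intro c
    obtain ⟨y, rfl⟩ := Quot.mk_surjective c
    have h3 : (Finset.univ.filter fun x : H =>
        Quot.mk (fun x y : H => y = Δ.opp (Δ.prv x)) x =
          Quot.mk (fun x y : H => y = Δ.opp (Δ.prv x)) y) = {y, Δ.opp (Δ.prv y)} := by
      ext z
      rw [Finset.mem_filter, Finset.mem_insert, Finset.mem_singleton]
      constructor
      · rintro ⟨_, h⟩
        have h4 := Quot.eqvGen_exact h
        have h5 : ∀ a b : H, Relation.EqvGen (fun x y : H => y = Δ.opp (Δ.prv x)) a b →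
            (a = b ∨ a = Δ.opp (Δ.prv b)) := by
          intro a b hab
          induction hab with
          | rel a b h =>
            right
            rw [h, hrr]
          | refl a => exact Or.inl rfl
          | symm a b _ ih =>
            rcases ih with rfl | ih
            · exact Or.inl rfl
            · right
              rw [ih, hrr]
          | trans a b c _ _ ih1 ih2 =>
            rcases ih1 with rfl | ih1
            · exact ih2
            · rcases ih2 with rfl | ih2
              · exact Or.inr ih1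
              · left
                rw [ih1, ih2, hrr]
        exact h5 z y h4
      · rintro (rfl | rfl)
        · exact ⟨Finset.mem_univ _, rfl⟩
        · exact ⟨Finset.mem_univ _,
            (Quot.sound (r := fun x y : H => y = Δ.opp (Δ.prv x)) rfl).symm⟩
    rw [h3, Finset.card_pair (hne y).symm]
  refine ⟨?_, ?_⟩
  · unfold Tri.punctures
    rw [Nat.card_eq_fintype_card]
    rw [Finset.sum_congr rfl fun c _ => hfib c, Finset.sum_const, Finset.card_univ, hc6,
      smul_eq_mul] at hsum
    omega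
  · rw [hc6]
    norm_num

theorem notPillow_of_not_type [Fintype H] [DecidableEq H] {Δ : Tri H V} (hΔ : Δ.IsIdeal)
    (ht : ¬ Δ.HasType 0 3) : Δ.NotPillow := fun _ h => ht (type_of_pillow hΔ h.1 h.2)

end

section

variable {H V : Type} [Fintype H] [DecidableEq H] [Fintype V] [DecidableEq V]

/-- For the thrice-punctured sphere the answer is negative. -/
theorem negative {Δ : Tri H V} (hΔ : Δ.IsIdeal) (ht : Δ.HasType 0 3) :
    ∃ f : FractionRing (MvPolynomial V ℂ),
      (∀ Δ' s', TriChart Δ Δ.seed Δ' s' → s'.Regular f) ∧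
      ∃ t, MutEquiv Δ.seed t ∧ ¬ t.Regular f := by
  obtain ⟨x⟩ := hΔ.nonempty
  refine ⟨Δ.seed.X (Δ.face x), ?_, Δ.seed.mutate (Δ.edge x), MutEquiv.step _ _ MutEquiv.refl, ?_⟩
  · have key : ∀ Δ' s', TriChart Δ Δ.seed Δ' s' → Δ' = Δ ∧ s' = Δ.seed := by
      intro Δ' s' h
      induction h with
      | base => exact ⟨rfl, rfl⟩
      | flip Δ₁ s₁ h _ hf ih =>
        rw [ih.1] at hf
        exact absurd hf (not_flippable_of_type hΔ ht h)
    intro Δ' s' h
    rw [(key Δ' s' h).2]
    exact Algebra.subset_adjoin (Or.inl ⟨_, rfl⟩)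
  · apply not_regular (seed_good hΔ)
    show Δ.exchange (Δ.face x) (Δ.edge x) < 0
    rw [exchange_face_edge hΔ]
    norm_num

/-- The two triangles of the thrice-punctured sphere. -/
def sphere : Tri (Fin 3 × Bool) ((Fin 3 × Bool) ⊕ Bool) where
  nxt := fun x => if x.2 then (x.1 + 1, true) else (x.1 + 2, false)
  opp := fun x => (x.1, !x.2)
  edge := Sum.inl
  face := fun x => Sum.inr x.2

theorem sphere_trans : ∀ (b : Bool) (i j : Fin 3), (j, b) = (i, b) ∨ (j, b) = sphere.nxt (i, b) ∨
    (j, b) = sphere.nxt (sphere.nxt (i, b)) := by decide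

theorem sphere_ideal : sphere.IsIdeal := by
  refine ⟨⟨(0, true)⟩, by decide, by decide, by decide, by decide, ?_, by decide,
    fun x y h => Sum.inl_injective h, by decide, by decide, by decide⟩
  intro S hS hn ho
  have h1 : ∀ b : Bool, ∀ i j : Fin 3, (i, b) ∈ S → (j, b) ∈ S := by
    intro b i j hi
    have h2 := hn _ hi
    have h3 := hn _ h2
    rcases sphere_trans b i j with h4 | h4 | h4 <;> rw [h4] <;> assumption
  obtain ⟨⟨i, b⟩, hx⟩ := hS
  have hx' : (i, !b) ∈ S := ho _ hx
  apply Set.eq_univ_of_forall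
  rintro ⟨j, b'⟩
  by_cases hb : b' = b
  · subst hb
    exact h1 _ i j hx
  · have : b' = !b := by
      cases b <;> cases b' <;> simp_all
    rw [this]
    exact h1 _ i j hx'

theorem sphere_type : sphere.HasType 0 3 :=
  type_of_pillow sphere_ideal (x := (0, true)) (by decide) (by decide)

end

end Pool.Agent.H917R3.XC
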