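import Pool.Agent.H917R3.Seeds

/-!
# Regularity on adjacent charts implies regularity on all charts
-/

set_option linter.unusedSectionVars false
set_option linter.unusedSimpArgs false

namespace Pool.Agent.H917R3.XC

section

variable {V : Type} [Fintype V] [DecidableEq V] {K : Type} [Field K] [Algebra ℂ K]

/-- A function is regular on the chart of a seed if it is a Laurent polynomial in its variables. -/
def Seed.Regular (s : Seed V K) (f : K) : Prop := Reg s.X f

theorem Seed.Good.regular_iff {s : Seed V K} (hs : s.Good) (f : K) :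
    s.Regular f ↔ ∃ p, ev s.X hs.ne p = f := reg_iff hs.ne f

theorem sum_G (b : (V → ℤ) →+ ℤ) (x : Lau V) :
    ∃ S : Finset ℤ, x = ∑ β ∈ S, G b β x := by
  classical
  refine ⟨x.coeff.support.image b, ?_⟩
  apply AddMonoidAlgebra.coeffAddEquiv.injective
  rw [map_sum]
  ext m
  rw [Finsupp.finsetSum_apply]
  have hG : ∀ β, (AddMonoidAlgebra.coeffAddEquiv (G b β x)) m =
      if b m = β then x.coeff m else 0 := by
    intro β
    show (Finsupp.filter (fun m' => b m' = β) x.coeff) m = _
    split_ifs with h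
    · exact Finsupp.filter_apply_pos (fun m' => b m' = β) _ h
    · exact Finsupp.filter_apply_neg (fun m' => b m' = β) _ h
  rw [Finset.sum_congr rfl fun β _ => hG β, Finset.sum_ite_eq]
  show x.coeff m = _
  split_ifs with h
  · rfl
  · by_contra hne
    exact h (Finset.mem_image.mpr ⟨m, Finsupp.mem_support_iff.mpr hne, rfl⟩)

/-- The elements spanning the functions regular on two adjacent charts. -/
def Seed.gens (s : Seed V K) (k : V) : Set K :=
  {y | ∃ m : V → ℤ, y = (1 + s.X k) ^ (- s.b k m).toNat * mon s.X m}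

theorem ev_G_mem_span {s : Seed V K} (hs : s.Good) (k : V) (β : ℤ) (x : Lau V) :
    (1 + s.X k) ^ (-β).toNat * ev s.X hs.ne (G (s.b k) β x) ∈ Submodule.span ℂ (s.gens k) := by
  induction x using lau_induction with
  | single m c =>
    rw [G_single]
    split_ifs with h
    · rw [ev_single, mul_left_comm, ← Algebra.smul_def]
      refine Submodule.smul_mem _ _ (Submodule.subset_span ⟨m, ?_⟩)
      rw [h]
    · rw [map_zero, mul_zero]
      exact Submodule.zero_mem _
  | add x y hx hy =>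
    rw [map_add, map_add, mul_add]
    exact Submodule.add_mem _ hx hy

/-- Functions regular on two adjacent charts. -/
theorem mem_span_gens {s : Seed V K} (hs : s.Good) (k : V) {f : K} (h1 : s.Regular f)
    (h2 : (s.mutate k).Regular f) : f ∈ Submodule.span ℂ (s.gens k) := by
  obtain ⟨p, rfl⟩ := (hs.regular_iff f).mp h1
  obtain ⟨q, hq⟩ := ((hs.mutate k).regular_iff _).mp h2
  obtain ⟨N, hN⟩ := hs.compare k (hs.mutate_ne k) p q hq.symm
  obtain ⟨S, hS⟩ := sum_G (s.b k) p
  rw [hS, map_sum]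
  refine Submodule.sum_mem _ fun β _ => ?_
  rcases le_or_gt 0 β with hβ | hβ
  · have h3 := ev_G_mem_span hs k β p
    rwa [Int.toNat_of_nonpos (by omega), pow_zero, one_mul] at h3
  · have h3 := (hN β).1 (by omega)
    have h4 : ((N : ℤ) - β).toNat = (-β).toNat + N := by omega
    rw [h4, pow_add, ← mul_assoc] at h3
    have h5 : G (s.b k) β p = G (s.b k) β (TQ (s.T k) q) * uj k ^ (-β).toNat :=
      mul_right_cancel₀ (pow_ne_zero _ (uj_ne_zero k)) h3
    rw [h5, map_mul, map_pow, ev_uj, mul_comm]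
    exact ev_G_mem_span hs k β _

theorem Chart.Ord.prod {c : Chart V K} {j : V} (S : Finset V) (x : V → K) (e : V → ℤ)
    (h : ∀ i ∈ S, c.Ord j (x i) (e i)) : c.Ord j (∏ i ∈ S, x i) (∑ i ∈ S, e i) := by
  classical
  induction S using Finset.induction_on with
  | empty => simpa using (Chart.IsU.one c j).ord
  | insert a S ha ih =>
    rw [Finset.prod_insert ha, Finset.sum_insert ha]
    exact (h a (Finset.mem_insert_self _ _)).mul
      (ih fun i hi => h i (Finset.mem_insert_of_mem hi))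

/-- The variables of a chart in terms of the adjacent chart. -/
theorem ord_X {s : Seed V K} (hs : s.Good) (j i : V) :
    (hs.mutate j).chart.Ord j (s.X i) (s.ε i j) := by
  set Z := (hs.mutate j).chart with hZ
  have hZX : ∀ v, Z.X v = (s.mutate j).X v := fun v => rfl
  have hj : Z.X j = (s.X j)⁻¹ := by rw [hZX, mutate_X_self]
  have hWj : s.X j = (Z.X j)⁻¹ := by rw [hj, inv_inv]
  by_cases hi : i = j
  · subst hi
    rw [hs.diag, hWj]
    exact (Z.isU_X i i).inv.ord
  · have h1 : Z.X i = s.X i * (s.X j ^ (max (s.ε i j) 0) * (1 + s.X j) ^ (- s.ε i j)) := by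
      rw [hZX, mutate_X_of_ne s hi (hs.ne j)]
    have h2 : 1 + s.X j = (1 + Z.X j) * (Z.X j)⁻¹ := by
      rw [hj]
      have := hs.ne j
      field_simp
      ring
    have hu := Z.u_ne_zero j
    have h3 : s.X i = (1 + Z.X j) ^ (s.ε i j) *
        (Z.X i * ((s.X j ^ (max (s.ε i j) 0))⁻¹ * ((Z.X j)⁻¹) ^ (s.ε i j))) := by
      rw [h1, h2, mul_zpow, zpow_neg, zpow_neg]
      have e0 := zpow_ne_zero (s.ε i j) hu
      have e1 := zpow_ne_zero (max (s.ε i j) 0) (hs.ne j)
      have e2 := zpow_ne_zero (s.ε i j) (inv_ne_zero (Z.ne j))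
      generalize (1 + Z.X j) ^ (s.ε i j) = a at e0 ⊢
      generalize (s.X j) ^ (max (s.ε i j) 0) = b at e1 ⊢
      generalize ((Z.X j)⁻¹) ^ (s.ε i j) = c at e2 ⊢
      field_simp
    refine ⟨_, ?_, h3⟩
    refine (Z.isU_X j i).mul (Chart.IsU.mul ?_ ?_)
    · rw [hWj]
      exact ((Z.isU_X j j).inv.zpow _).inv
    · exact (Z.isU_X j j).inv.zpow _

theorem ord_one_add {s : Seed V K} (hs : s.Good) {j k : V} (hjk : j ≠ k) :
    (hs.mutate j).chart.Ord j (1 + s.X k) (min 0 (s.ε k j)) := by
  set Z := (hs.mutate j).chart with hZ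
  have hord := ord_X hs j k
  rcases lt_trichotomy (s.ε k j) 0 with h | h | h
  · rw [min_eq_right h.le]
    have h1 : 1 + s.X k = s.X k * (1 + (s.X k)⁻¹) := by
      have := hs.ne k
      field_simp
      ring
    rw [h1]
    have h2 := hord.mul (b := 0) (y := 1 + (s.X k)⁻¹) ?_
    · rwa [add_zero] at h2
    · obtain ⟨y, hy, hy'⟩ := hord.inv.pos (by omega)
      rw [hy']
      exact (Z.isU_one_add j hy).ord
  · rw [h, min_self]
    have h1 : Z.X k = s.X k := by
      show (s.mutate j).X k = s.X k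
      rw [mutate_X_of_ne s hjk.symm (hs.ne j), h]
      simp
    rw [← h1, ← ev_uj Z.ne k]
    refine (Z.isU_ev ?_).ord
    rw [uj, map_add, map_one, pij_xv_ne hjk.symm]
    exact uj_ne_zero k
  · rw [min_eq_left h.le]
    obtain ⟨y, hy, hy'⟩ := hord.pos h
    rw [hy']
    exact (Z.isU_one_add j hy).ord

theorem ord_mutate_X {s : Seed V K} (hs : s.Good) {j k : V} (hjk : j ≠ k) (i : V) :
    (hs.mutate j).chart.Ord j ((s.mutate k).X i) ((s.mutate k).ε i j) := by
  by_cases hi : i = k
  · subst hi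
    rw [mutate_X_self, mutate_ε_left]
    exact (ord_X hs j i).inv
  · rw [mutate_X_of_ne s hi (hs.ne k)]
    have h1 := (ord_X hs j i).mul (((ord_X hs j k).zpow (max (s.ε i k) 0)).mul
      ((ord_one_add hs hjk).zpow (- s.ε i k)))
    rw [mutate_ε_of_ne s hi hjk]
    convert h1 using 1
    ring

/-- elements congruent to one -/
def Chart.M1 (c : Chart V K) (j : V) (x : K) : Prop := ∃ y ∈ c.Loc j, x = 1 + (1 + c.X j) * y

theorem Chart.M1.mul {c : Chart V K} {j : V} {x x' : K} (h : c.M1 j x) (h' : c.M1 j x') :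
    c.M1 j (x * x') := by
  obtain ⟨y, hy, rfl⟩ := h
  obtain ⟨y', hy', rfl⟩ := h'
  refine ⟨y + y' + (1 + c.X j) * y * y', ?_, by ring⟩
  exact (c.Loc j).add_mem ((c.Loc j).add_mem hy hy')
    ((c.Loc j).mul_mem ((c.Loc j).mul_mem (c.u_mem j) hy) hy')

theorem Chart.M1.inv {c : Chart V K} {j : V} {x : K} (h : c.M1 j x) : c.M1 j x⁻¹ := by
  obtain ⟨y, hy, rfl⟩ := h
  obtain ⟨h1, h2⟩ := c.one_add_u_mul j hy
  refine ⟨-(y * (1 + (1 + c.X j) * y)⁻¹), (c.Loc j).neg_mem ((c.Loc j).mul_mem hy h2), ?_⟩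
  field_simp
  ring

theorem Chart.M1.pow {c : Chart V K} {j : V} {x : K} (h : c.M1 j x) (n : ℕ) : c.M1 j (x ^ n) := by
  induction n with
  | zero => exact ⟨0, (c.Loc j).zero_mem, by simp⟩
  | succ n ih =>
    rw [pow_succ]
    exact ih.mul h

theorem Chart.M1.zpow {c : Chart V K} {j : V} {x : K} (h : c.M1 j x) (e : ℤ) :
    c.M1 j (x ^ e) := by
  rcases e with n | n
  · rw [Int.ofNat_eq_natCast, zpow_natCast]
    exact h.pow n
  · rw [zpow_negSucc]
    exact (h.pow (n + 1)).inv

/-- `1 + X_j` after a mutation at `k ≠ j` still vanishes along the divisor. -/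
theorem one_add_mutate {s : Seed V K} (hs : s.Good) {j k : V} (hjk : j ≠ k) :
    ∃ y ∈ (hs.mutate j).chart.Loc j,
      1 + (s.mutate k).X j = (1 + (hs.mutate j).chart.X j) * y := by
  set Z := (hs.mutate j).chart with hZ
  have hj : Z.X j = (s.X j)⁻¹ := mutate_X_self s j
  have hWj : s.X j = (Z.X j)⁻¹ := by rw [hj, inv_inv]
  have hM : Z.M1 j (s.X k ^ (max (s.ε j k) 0) * (1 + s.X k) ^ (- s.ε j k)) := by
    have hord := ord_X hs j k
    have hsk : s.ε j k = - s.ε k j := hs.skew j k
    rcases lt_trichotomy (s.ε k j) 0 with h | h | h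
    · rw [max_eq_left (by omega)]
      have h1 : s.X k ^ (s.ε j k) * (1 + s.X k) ^ (- s.ε j k) =
          (1 + (s.X k)⁻¹) ^ (- s.ε j k) := by
        have h2 : 1 + (s.X k)⁻¹ = (s.X k)⁻¹ * (1 + s.X k) := by
          have := hs.ne k
          field_simp
          ring
        rw [h2, mul_zpow, inv_zpow', neg_neg]
      rw [h1]
      apply Chart.M1.zpow
      obtain ⟨y, hy, hy'⟩ := hord.inv.pos (by omega)
      exact ⟨y, hy, by rw [hy']⟩
    · rw [hsk, h]
      exact ⟨0, (Z.Loc j).zero_mem, by simp⟩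
    · rw [max_eq_right (by omega), zpow_zero, one_mul]
      apply Chart.M1.zpow
      obtain ⟨y, hy, hy'⟩ := hord.pos h
      exact ⟨y, hy, by rw [hy']⟩
  obtain ⟨y, hy, hy'⟩ := hM
  rw [mutate_X_of_ne s hjk (hs.ne k), hy', hWj]
  refine ⟨(Z.X j)⁻¹ * (1 + y), (Z.Loc j).mul_mem (Z.isU_X j j).2.2
    ((Z.Loc j).add_mem (Z.Loc j).one_mem hy), ?_⟩
  have := Z.ne j
  field_simp
  ring

/-- regular on the chart and in the local ring implies regular on the adjacent chart -/
theorem regular_of_mem_loc {s : Seed V K} (hs : s.Good) (j : V) {f : K} (h1 : s.Regular f)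
    (h2 : f ∈ (hs.mutate j).chart.Loc j) : (s.mutate j).Regular f := by
  set Z := (hs.mutate j).chart with hZ
  have hj : Z.X j = (s.X j)⁻¹ := mutate_X_self s j
  -- clearing denominators
  have hclear : ∀ g, s.Regular g → ∃ (N : ℕ) (p : Lau V),
      g * (1 + Z.X j) ^ N = ev Z.X Z.ne p := by
    intro g hg
    obtain ⟨p, rfl⟩ := (hs.regular_iff g).mp hg
    have hmon : ∀ m : V → ℤ, ∃ (N : ℕ) (p : Lau V),
        mon s.X m * (1 + Z.X j) ^ N = ev Z.X Z.ne p := by
      intro m
      have h3 := (hs.mutate j).mon_mutate j m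
      rw [hs.mutate_mutate] at h3
      generalize (s.mutate j).b j m = β at h3
      refine ⟨β.toNat, xm ((s.mutate j).T j m) * uj j ^ (((β.toNat : ℤ) - β).toNat), ?_⟩
      rw [h3, map_mul, map_pow, ev_xm, ev_uj, mul_assoc]
      congr 1
      have hu := Z.u_ne_zero j
      have : (1 + (s.mutate j).X j) = 1 + Z.X j := rfl
      rw [this, ← zpow_natCast, ← zpow_natCast, ← zpow_add₀ hu,
        Int.toNat_of_nonneg (a := (β.toNat : ℤ) - β) (by omega)]
      congr 1
      ring
    induction p using lau_induction with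
    | single m c =>
      obtain ⟨N, p, hp⟩ := hmon m
      refine ⟨N, AddMonoidAlgebra.single 0 c * p, ?_⟩
      rw [ev_single, map_mul, ev_single, mon_zero, mul_one, ← hp, mul_assoc]
    | add x y hx hy =>
      obtain ⟨N1, p1, h3⟩ := hx ((hs.regular_iff _).mpr ⟨x, rfl⟩)
      obtain ⟨N2, p2, h4⟩ := hy ((hs.regular_iff _).mpr ⟨y, rfl⟩)
      refine ⟨N1 + N2, p1 * uj j ^ N2 + p2 * uj j ^ N1, ?_⟩
      rw [map_add, map_add, map_mul, map_mul, map_pow, map_pow, ev_uj, ← h3, ← h4]
      ring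
  obtain ⟨N, g, hg⟩ := hclear f h1
  obtain ⟨p, q, hq, hpq⟩ := h2
  have h5 : g * q = uj j ^ N * p := by
    apply Z.inj
    rw [map_mul, map_mul, map_pow, ev_uj, ← hg, ← hpq]
    ring
  obtain ⟨g', rfl⟩ := uj_pow_dvd hq N g p h5
  rw [map_mul, map_pow, ev_uj, mul_comm] at hg
  have h6 : f = ev Z.X Z.ne g' := mul_left_cancel₀ (pow_ne_zero _ (Z.u_ne_zero j)) hg
  exact ((hs.mutate j).regular_iff f).mpr ⟨g', h6.symm⟩

/-- The square lemma. -/
theorem square {s : Seed V K} (hs : s.Good) {j k : V} (hjk : j ≠ k) {f : K}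
    (h0 : s.Regular f) (h1 : (s.mutate k).Regular f) (h2 : ((s.mutate k).mutate j).Regular f) :
    (s.mutate j).Regular f := by
  apply regular_of_mem_loc hs j h0
  have hspan := mem_span_gens (hs.mutate k) j h1 h2
  set Z := (hs.mutate j).chart with hZ
  have hle : ∀ y ∈ (s.mutate k).gens j, y ∈ Z.Loc j := by
    rintro _ ⟨m, rfl⟩
    have hord : Z.Ord j (mon (s.mutate k).X m) ((s.mutate k).b j m) := by
      have := Chart.Ord.prod (c := Z) (j := j) Finset.univ (fun i => (s.mutate k).X i ^ m i)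
        (fun i => (s.mutate k).ε i j * m i) (fun i _ => (ord_mutate_X hs hjk i).zpow (m i))
      have h3 : ∑ i, (s.mutate k).ε i j * m i = (s.mutate k).b j m :=
        Finset.sum_congr rfl fun i _ => mul_comm _ _
      rw [h3] at this
      exact this
    rcases le_or_gt 0 ((s.mutate k).b j m) with hb | hb
    · rw [Int.toNat_of_nonpos (by omega), pow_zero, one_mul]
      exact hord.mem hb
    · obtain ⟨y, hy, hy'⟩ := one_add_mutate hs hjk
      obtain ⟨w, hw, hw'⟩ := hord
      obtain ⟨n, hn⟩ : ∃ n : ℕ, (s.mutate k).b j m = -n := ⟨(-(s.mutate k).b j m).toNat, by omega⟩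
      rw [hy', hw', hn, neg_neg, Int.toNat_natCast, mul_pow, zpow_neg, zpow_natCast]
      have h4 := pow_ne_zero n (Z.u_ne_zero j)
      have h5 : (1 + Z.X j) ^ n * y ^ n * (((1 + Z.X j) ^ n)⁻¹ * w) = y ^ n * w := by
        field_simp
      rw [h5]
      exact (Z.Loc j).mul_mem ((Z.Loc j).pow_mem hy n) hw.2.1
  refine Submodule.span_induction (p := fun x _ => x ∈ Z.Loc j) hle (Z.Loc j).zero_mem
    (fun x y _ _ hx hy => (Z.Loc j).add_mem hx hy) (fun a x _ hx => ?_) hspan
  rw [Algebra.smul_def]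
  refine (Z.Loc j).mul_mem ?_ hx
  have h6 : algebraMap ℂ K a = ev Z.X Z.ne (AddMonoidAlgebra.single 0 a) := by
    rw [ev_single, mon_zero, mul_one]
  rw [h6]
  exact Z.ev_mem_Loc j _

/-- Seeds obtained by sequences of mutations. -/
inductive MutEquiv (s : Seed V K) : Seed V K → Prop
  | refl : MutEquiv s s
  | step (t : Seed V K) (k : V) : MutEquiv s t → MutEquiv s (t.mutate k)

/-- Regularity on a chart and all adjacent charts implies regularity on all cluster charts. -/
theorem regular_all {s : Seed V K} (hs : s.Good) {f : K} (h0 : s.Regular f)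
    (h1 : ∀ k, (s.mutate k).Regular f) (t : Seed V K) (ht : MutEquiv s t) : t.Regular f := by
  have key : t.Good ∧ t.Regular f ∧ ∀ k, (t.mutate k).Regular f := by
    induction ht with
    | refl => exact ⟨hs, h0, h1⟩
    | step t k _ ih =>
      obtain ⟨hg, hr, ha⟩ := ih
      refine ⟨hg.mutate k, ha k, fun j => ?_⟩
      by_cases hjk : j = k
      · subst hjk
        rw [hg.mutate_mutate]
        exact hr
      · apply square (hg.mutate k) hjk (ha k)
        · rw [hg.mutate_mutate]
          exact hr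
        · rw [hg.mutate_mutate]
          exact ha j
  exact key.2.1

end

end Pool.Agent.H917R3.XC
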