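import Pool.Agent.H917R3.Visible

/-!
# Ideal triangulations of punctured surfaces and their Fock-Goncharov seeds for PGL_3
-/

set_option linter.unusedSectionVars false
set_option linter.unusedSimpArgs false

namespace Pool.Agent.H917R3.XC

/-- Combinatorial data of a triangulated oriented surface with labelled nodes. The elements of `H`
are the sides of the triangles, each oriented along the counterclockwise boundary of its
triangle; `nxt` is the following side of the same triangle and `opp` the side glued to a given one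
(it is the same edge of the triangulation with the other orientation). `edge x` is the label of the
node on the edge `x` near the starting point of `x` (so that `edge (opp x)` is the label of the
other node on that edge), and `face x` is the label of the node inside the triangle of `x`. -/
structure Tri (H V : Type) where
  nxt : H → H
  opp : H → H
  edge : H → V
  face : H → V

section

variable {H V : Type}

/-- the preceding side of the same triangle -/
def Tri.prv (Δ : Tri H V) (x : H) : H := Δ.nxt (Δ.nxt x)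

/-- The data describe an ideal triangulation of a (connected, oriented) punctured surface, without
self-folded triangles, and `V` is exactly the set of its nodes. -/
structure Tri.IsIdeal (Δ : Tri H V) : Prop where
  nonempty : Nonempty H
  nxt_three : ∀ x, Δ.nxt (Δ.nxt (Δ.nxt x)) = x
  nxt_ne : ∀ x, Δ.nxt x ≠ x
  opp_opp : ∀ x, Δ.opp (Δ.opp x) = x
  opp_ne : ∀ x, Δ.opp x ≠ x
  connected : ∀ S : Set H, S.Nonempty → (∀ x ∈ S, Δ.nxt x ∈ S) → (∀ x ∈ S, Δ.opp x ∈ S) →
    S = Set.univ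
  not_self_folded : ∀ x, Δ.opp x ≠ Δ.nxt x
  edge_inj : ∀ x y, Δ.edge x = Δ.edge y → x = y
  face_iff : ∀ x y, Δ.face x = Δ.face y ↔ y = x ∨ y = Δ.nxt x ∨ y = Δ.prv x
  edge_ne_face : ∀ x y, Δ.edge x ≠ Δ.face y
  node : ∀ v, (∃ x, Δ.edge x = v) ∨ (∃ x, Δ.face x = v)

/-- The flip at the edge `h` gives again a triangulation without self-folded triangles. -/
def Tri.Flippable (Δ : Tri H V) (h : H) : Prop :=
  Δ.opp (Δ.prv h) ≠ Δ.nxt (Δ.opp h) ∧ Δ.opp (Δ.prv (Δ.opp h)) ≠ Δ.nxt h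

/-- The flip at the edge `h`. In the quadrilateral formed by the triangles
`(h, a, b)` and `(h', c, d)` with `h' = opp h`, the diagonal is replaced by the other one, giving
the triangles `(c, h', b)` and `(d, a, h)`. The two nodes inside the old triangles become the nodes
on the new diagonal, and the two nodes on the old diagonal become the nodes inside the new
triangles. -/
def Tri.flip [DecidableEq H] (Δ : Tri H V) (h : H) : Tri H V where
  nxt := fun x =>
    if x = Δ.nxt (Δ.opp h) then Δ.opp h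
    else if x = Δ.opp h then Δ.prv h
    else if x = Δ.prv h then Δ.nxt (Δ.opp h)
    else if x = Δ.prv (Δ.opp h) then Δ.nxt h
    else if x = Δ.nxt h then h
    else if x = h then Δ.prv (Δ.opp h)
    else Δ.nxt x
  opp := Δ.opp
  edge := fun x =>
    if x = h then Δ.face h
    else if x = Δ.opp h then Δ.face (Δ.opp h)
    else Δ.edge x
  face := fun x =>
    if x = Δ.nxt (Δ.opp h) ∨ x = Δ.opp h ∨ x = Δ.prv h then Δ.edge h
    else if x = Δ.prv (Δ.opp h) ∨ x = Δ.nxt h ∨ x = h then Δ.edge (Δ.opp h)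
    else Δ.face x

/-- The nodes at which the seed is mutated in the flip at `h`: first the two nodes on the edge,
then the two nodes inside the adjacent triangles. -/
def Tri.flipNodes (Δ : Tri H V) (h : H) : List V :=
  [Δ.edge h, Δ.edge (Δ.opp h), Δ.face h, Δ.face (Δ.opp h)]

theorem Tri.IsIdeal.nodup {Δ : Tri H V} (hΔ : Δ.IsIdeal) (h : H) : (Δ.flipNodes h).Nodup := by
  have h1 := hΔ.nxt_three
  have h2 := hΔ.nxt_ne
  have h3 := hΔ.opp_opp
  have h4 := hΔ.opp_ne
  have h5 := hΔ.not_self_folded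
  have h6 := hΔ.edge_inj
  have h7 := hΔ.face_iff
  have h8 := hΔ.edge_ne_face
  simp only [Tri.prv] at *
  have h9 : Δ.face h ≠ Δ.face (Δ.opp h) := by
    rw [Ne, h7]
    grind
  have h10 : Δ.edge h ≠ Δ.edge (Δ.opp h) := by grind
  simp only [Tri.flipNodes, List.nodup_cons, List.mem_cons, List.not_mem_nil, or_false, not_or,
    List.nodup_nil, and_true, not_false_eq_true]
  exact ⟨⟨h10, h8 _ _, h8 _ _⟩, ⟨h8 _ _, h8 _ _⟩, h9⟩

/-- The two triangles adjacent to `h`. -/
structure Quad (Δ : Tri H V) (h a b h' c d : H) : Prop where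
  nh : Δ.nxt h = a
  na : Δ.nxt a = b
  nb : Δ.nxt b = h
  nh' : Δ.nxt h' = c
  nc : Δ.nxt c = d
  nd : Δ.nxt d = h'
  oh : Δ.opp h = h'
  oh' : Δ.opp h' = h
  ph : Δ.prv h = b
  ph' : Δ.prv h' = d
  ha : h ≠ a
  hb : h ≠ b
  ab : a ≠ b
  hc' : h' ≠ c
  hd' : h' ≠ d
  cd : c ≠ d
  hh' : h ≠ h'
  hc : h ≠ c
  hd : h ≠ d
  ah' : a ≠ h'
  ac : a ≠ c
  ad : a ≠ d
  bh' : b ≠ h'
  bc : b ≠ c
  bd : b ≠ d

theorem Tri.IsIdeal.quad {Δ : Tri H V} (hΔ : Δ.IsIdeal) (h : H) :
    Quad Δ h (Δ.nxt h) (Δ.prv h) (Δ.opp h) (Δ.nxt (Δ.opp h)) (Δ.prv (Δ.opp h)) := by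
  have h1 := hΔ.nxt_three
  have h2 := hΔ.nxt_ne
  have h3 := hΔ.opp_opp
  have h4 := hΔ.opp_ne
  have h5 := hΔ.not_self_folded
  simp only [Tri.prv]
  constructor <;> first | rfl | grind

variable [DecidableEq H]

/-- The values of the flipped data. -/
structure FlipVals (Δ : Tri H V) (h a b h' c d : H) : Prop where
  vc : (Δ.flip h).nxt c = h'
  vh' : (Δ.flip h).nxt h' = b
  vb : (Δ.flip h).nxt b = c
  vd : (Δ.flip h).nxt d = a
  va : (Δ.flip h).nxt a = h
  vh : (Δ.flip h).nxt h = d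
  velse : ∀ x, x ≠ c → x ≠ h' → x ≠ b → x ≠ d → x ≠ a → x ≠ h → (Δ.flip h).nxt x = Δ.nxt x
  opp : (Δ.flip h).opp = Δ.opp
  eh : (Δ.flip h).edge h = Δ.face h
  eh' : (Δ.flip h).edge h' = Δ.face h'
  eelse : ∀ x, x ≠ h → x ≠ h' → (Δ.flip h).edge x = Δ.edge x
  fc : (Δ.flip h).face c = Δ.edge h
  fh' : (Δ.flip h).face h' = Δ.edge h
  fb : (Δ.flip h).face b = Δ.edge h
  fd : (Δ.flip h).face d = Δ.edge h'
  fa : (Δ.flip h).face a = Δ.edge h'
  fh : (Δ.flip h).face h = Δ.edge h'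
  felse : ∀ x, x ≠ c → x ≠ h' → x ≠ b → x ≠ d → x ≠ a → x ≠ h → (Δ.flip h).face x = Δ.face x

theorem Quad.vals {Δ : Tri H V} {h a b h' c d : H} (q : Quad Δ h a b h' c d) :
    FlipVals Δ h a b h' c d := by
  obtain ⟨nh, na, nb, nh', nc, nd, oh, oh', ph, ph', ha, hb, ab, hc', hd', cd, hh', hc, hd, ah',
    ac, ad, bh', bc, bd⟩ := q
  constructor
  case opp => rfl
  case velse =>
    intro x h1 h2 h3 h4 h5 h6
    simp only [Tri.flip, oh, nh, nh', ph, ph', if_neg h1, if_neg h2, if_neg h3, if_neg h4,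
      if_neg h5, if_neg h6]
  case felse =>
    intro x h1 h2 h3 h4 h5 h6
    simp only [Tri.flip, oh, nh, nh', ph, ph', h1, h2, h3, h4, h5, h6, or_self, if_false]
  case eelse =>
    intro x h1 h2
    simp only [Tri.flip, oh, nh, nh', ph, ph', h1, h2, if_false]
  all_goals
    simp only [Tri.flip, oh, nh, nh', ph, ph', ha, hb, ab, hc', hd', cd, hh', hc, hd, ah',
    ac, ad, bh', bc, bd, ha.symm, hb.symm, ab.symm, hc'.symm, hd'.symm, cd.symm, hh'.symm,
    hc.symm, hd.symm, ah'.symm, ac.symm, ad.symm, bh'.symm, bc.symm, bd.symm, if_true, if_false,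
    or_true, true_or, or_self, or_false, false_or]

theorem or_rot {p q r : Prop} : (p ∨ q ∨ r) ↔ (r ∨ p ∨ q) := by tauto

theorem or_rot' {p q r : Prop} : (p ∨ q ∨ r) ↔ (q ∨ r ∨ p) := by tauto

theorem IsIdeal_inj {Δ : Tri H V} (hΔ : Δ.IsIdeal) (x y : H) (hxy : Δ.nxt x = Δ.nxt y) :
    x = y := by
  rw [← hΔ.nxt_three x, ← hΔ.nxt_three y, hxy]

/-- membership in the quadrilateral -/
def InQ (h a b h' c d x : H) : Prop := (x = c ∨ x = h' ∨ x = b) ∨ (x = d ∨ x = a ∨ x = h)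

theorem not_InQ {h a b h' c d x : H} (hx : ¬ InQ h a b h' c d x) :
    x ≠ c ∧ x ≠ h' ∧ x ≠ b ∧ x ≠ d ∧ x ≠ a ∧ x ≠ h := by
  simp only [InQ, not_or] at hx
  exact ⟨hx.1.1, hx.1.2.1, hx.1.2.2, hx.2.1, hx.2.2.1, hx.2.2.2⟩

theorem Quad.out {Δ : Tri H V} (hΔ : Δ.IsIdeal) {h a b h' c d : H} (q : Quad Δ h a b h' c d)
    {x : H} (hx : ¬ InQ h a b h' c d x) : ¬ InQ h a b h' c d (Δ.nxt x) := by
  have hinj := IsIdeal_inj hΔ
  obtain ⟨k1, k2, k3, k4, k5, k6⟩ := not_InQ hx
  rintro ((k | k | k) | (k | k | k))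
  · exact k2 (hinj _ _ (k.trans q.nh'.symm))
  · exact k4 (hinj _ _ (k.trans q.nd.symm))
  · exact k5 (hinj _ _ (k.trans q.na.symm))
  · exact k1 (hinj _ _ (k.trans q.nc.symm))
  · exact k6 (hinj _ _ (k.trans q.nh.symm))
  · exact k3 (hinj _ _ (k.trans q.nb.symm))

theorem FlipVals.else1 {Δ : Tri H V} {h a b h' c d : H} (v : FlipVals Δ h a b h' c d)
    {x : H} (hx : ¬ InQ h a b h' c d x) : (Δ.flip h).nxt x = Δ.nxt x := by
  obtain ⟨k1, k2, k3, k4, k5, k6⟩ := not_InQ hx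
  exact v.velse x k1 k2 k3 k4 k5 k6

theorem FlipVals.else2 {Δ : Tri H V} {h a b h' c d : H} (v : FlipVals Δ h a b h' c d)
    {x : H} (hx : ¬ InQ h a b h' c d x) : (Δ.flip h).face x = Δ.face x := by
  obtain ⟨k1, k2, k3, k4, k5, k6⟩ := not_InQ hx
  exact v.felse x k1 k2 k3 k4 k5 k6

theorem flip_three {Δ : Tri H V} (hΔ : Δ.IsIdeal) {h a b h' c d : H} (q : Quad Δ h a b h' c d)
    (x : H) : (Δ.flip h).nxt ((Δ.flip h).nxt ((Δ.flip h).nxt x)) = x := by
  have v := q.vals
  by_cases k : InQ h a b h' c d x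
  · rcases k with (rfl | rfl | rfl) | (rfl | rfl | rfl)
    · rw [v.vc, v.vh', v.vb]
    · rw [v.vh', v.vb, v.vc]
    · rw [v.vb, v.vc, v.vh']
    · rw [v.vd, v.va, v.vh]
    · rw [v.va, v.vh, v.vd]
    · rw [v.vh, v.vd, v.va]
  · have l := q.out hΔ k
    have m := q.out hΔ l
    rw [v.else1 k, v.else1 l, v.else1 m]
    exact hΔ.nxt_three x

theorem flip_ne {Δ : Tri H V} (hΔ : Δ.IsIdeal) {h a b h' c d : H} (q : Quad Δ h a b h' c d)
    (x : H) : (Δ.flip h).nxt x ≠ x := by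
  have v := q.vals
  by_cases k : InQ h a b h' c d x
  · rcases k with (rfl | rfl | rfl) | (rfl | rfl | rfl)
    · rw [v.vc]
      exact q.hc'
    · rw [v.vh']
      exact q.bh'
    · rw [v.vb]
      exact q.bc.symm
    · rw [v.vd]
      exact q.ad
    · rw [v.va]
      exact q.ha
    · rw [v.vh]
      exact q.hd.symm
  · rw [v.else1 k]
    exact hΔ.nxt_ne x

theorem flip_conn {Δ : Tri H V} (hΔ : Δ.IsIdeal) {h a b h' c d : H} (q : Quad Δ h a b h' c d)
    (S : Set H) (hS : S.Nonempty) (hn : ∀ x ∈ S, (Δ.flip h).nxt x ∈ S)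
    (ho : ∀ x ∈ S, (Δ.flip h).opp x ∈ S) : S = Set.univ := by
  have v := q.vals
  rw [v.opp] at ho
  apply hΔ.connected S hS ?_ ho
  intro x hx
  by_cases k : InQ h a b h' c d x
  · have i1 : c ∈ S → h' ∈ S := fun h => v.vc ▸ hn _ h
    have i2 : h' ∈ S → b ∈ S := fun h => v.vh' ▸ hn _ h
    have i3 : b ∈ S → c ∈ S := fun h => v.vb ▸ hn _ h
    have i4 : d ∈ S → a ∈ S := fun h => v.vd ▸ hn _ h
    have i5 : a ∈ S → h ∈ S := fun h => v.va ▸ hn _ h
    have i6 : h ∈ S → d ∈ S := fun h => v.vh ▸ hn _ h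
    have i7 : h ∈ S → h' ∈ S := fun h => q.oh ▸ ho _ h
    have i8 : h' ∈ S → h ∈ S := fun h => q.oh' ▸ ho _ h
    have hh : h ∈ S := by
      rcases k with (rfl | rfl | rfl) | (rfl | rfl | rfl)
      · exact i8 (i1 hx)
      · exact i8 hx
      · exact i8 (i1 (i3 hx))
      · exact i5 (i4 hx)
      · exact i5 hx
      · exact hx
    rcases k with (rfl | rfl | rfl) | (rfl | rfl | rfl)
    · rw [q.nc]
      exact i6 hh
    · rw [q.nh']
      exact i3 (i2 (i7 hh))
    · rw [q.nb]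
      exact hh
    · rw [q.nd]
      exact i7 hh
    · rw [q.na]
      exact i2 (i7 hh)
    · rw [q.nh]
      exact i4 (i6 hh)
  · rw [← v.else1 k]
    exact hn x hx

theorem flip_self {Δ : Tri H V} (hΔ : Δ.IsIdeal) {h a b h' c d : H} (q : Quad Δ h a b h' c d)
    (hf1 : Δ.opp b ≠ c) (hf2 : Δ.opp d ≠ a) (x : H) : (Δ.flip h).opp x ≠ (Δ.flip h).nxt x := by
  have v := q.vals
  rw [v.opp]
  by_cases k : InQ h a b h' c d x
  · rcases k with (rfl | rfl | rfl) | (rfl | rfl | rfl)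
    · rw [v.vc]
      intro k
      exact q.hc (by rw [← q.oh', ← k, hΔ.opp_opp])
    · rw [v.vh', q.oh']
      exact q.hb
    · rw [v.vb]
      exact hf1
    · rw [v.vd]
      exact hf2
    · rw [v.va]
      intro k
      exact q.ah' (by rw [← q.oh, ← k, hΔ.opp_opp])
    · rw [v.vh, q.oh]
      exact q.hd'
  · rw [v.else1 k]
    exact hΔ.not_self_folded x

theorem Quad.fh {Δ : Tri H V} (hΔ : Δ.IsIdeal) {h a b h' c d : H} (q : Quad Δ h a b h' c d) :
    Δ.face h ≠ Δ.face h' := by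
  rw [Ne, hΔ.face_iff]
  simp only [Tri.prv]
  rw [q.nh, q.na, not_or, not_or]
  exact ⟨q.hh'.symm, q.ah'.symm, q.bh'.symm⟩

theorem flip_einj {Δ : Tri H V} (hΔ : Δ.IsIdeal) {h a b h' c d : H} (q : Quad Δ h a b h' c d)
    (x y : H) (hxy : (Δ.flip h).edge x = (Δ.flip h).edge y) : x = y := by
  have v := q.vals
  have hfh := q.fh hΔ
  have h8 := hΔ.edge_ne_face
  have eh := v.eh
  have eh' := v.eh'
  have eelse := v.eelse
  by_cases k1 : x = h
  · by_cases k2 : y = h
    · rw [k1, k2]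
    by_cases k3 : y = h'
    · rw [k1, k3, eh, eh'] at hxy
      exact absurd hxy hfh
    rw [k1, eh, eelse y k2 k3] at hxy
    exact absurd hxy.symm (h8 _ _)
  by_cases k4 : x = h'
  · by_cases k2 : y = h
    · rw [k4, k2, eh, eh'] at hxy
      exact absurd hxy.symm hfh
    by_cases k3 : y = h'
    · rw [k4, k3]
    rw [k4, eh', eelse y k2 k3] at hxy
    exact absurd hxy.symm (h8 _ _)
  by_cases k2 : y = h
  · rw [k2, eh, eelse x k1 k4] at hxy
    exact absurd hxy (h8 _ _)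
  by_cases k3 : y = h'
  · rw [k3, eh', eelse x k1 k4] at hxy
    exact absurd hxy (h8 _ _)
  rw [eelse x k1 k4, eelse y k2 k3] at hxy
  exact hΔ.edge_inj _ _ hxy

theorem FlipVals.f1 {Δ : Tri H V} {h a b h' c d : H} (v : FlipVals Δ h a b h' c d) (z : H)
    (hz : z = c ∨ z = h' ∨ z = b) : (Δ.flip h).face z = Δ.edge h := by
  rcases hz with rfl | rfl | rfl
  · exact v.fc
  · exact v.fh'
  · exact v.fb

theorem FlipVals.f2 {Δ : Tri H V} {h a b h' c d : H} (v : FlipVals Δ h a b h' c d) (z : H)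
    (hz : z = d ∨ z = a ∨ z = h) : (Δ.flip h).face z = Δ.edge h' := by
  rcases hz with rfl | rfl | rfl
  · exact v.fd
  · exact v.fa
  · exact v.fh

theorem Quad.disj {Δ : Tri H V} {h a b h' c d : H} (q : Quad Δ h a b h' c d) (y : H)
    (h1 : y = c ∨ y = h' ∨ y = b) (h2 : y = d ∨ y = a ∨ y = h) : False := by
  rcases h1 with rfl | rfl | rfl <;> rcases h2 with h2 | h2 | h2
  · exact q.cd h2
  · exact q.ac h2.symm
  · exact q.hc h2.symm
  · exact q.hd' h2
  · exact q.ah' h2.symm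
  · exact q.hh' h2.symm
  · exact q.bd h2
  · exact q.ab h2.symm
  · exact q.hb h2.symm

theorem flip_face {Δ : Tri H V} (hΔ : Δ.IsIdeal) {h a b h' c d : H} (q : Quad Δ h a b h' c d)
    (x y : H) : (Δ.flip h).face x = (Δ.flip h).face y ↔
      y = x ∨ y = (Δ.flip h).nxt x ∨ y = (Δ.flip h).nxt ((Δ.flip h).nxt x) := by
  have v := q.vals
  have e1 : Δ.edge h ≠ Δ.edge h' := fun k => q.hh' (hΔ.edge_inj _ _ k)
  have h8 := hΔ.edge_ne_face
  by_cases k1 : x = c ∨ x = h' ∨ x = b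
  · have hx : (y = x ∨ y = (Δ.flip h).nxt x ∨ y = (Δ.flip h).nxt ((Δ.flip h).nxt x)) ↔
        (y = c ∨ y = h' ∨ y = b) := by
      rcases k1 with rfl | rfl | rfl
      · rw [v.vc, v.vh']
      · rw [v.vh', v.vb]
        exact or_rot
      · rw [v.vb, v.vc]
        exact or_rot'
    rw [hx, v.f1 x k1]
    by_cases k2 : y = c ∨ y = h' ∨ y = b
    · rw [v.f1 y k2]
      exact ⟨fun _ => k2, fun _ => rfl⟩
    by_cases k3 : y = d ∨ y = a ∨ y = h
    · rw [v.f2 y k3]
      exact ⟨fun k => absurd k e1, fun k => absurd k k2⟩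
    rw [v.else2 (fun k => k.elim k2 k3)]
    exact ⟨fun k => absurd k (h8 _ _), fun k => absurd k k2⟩
  by_cases k1' : x = d ∨ x = a ∨ x = h
  · have hx : (y = x ∨ y = (Δ.flip h).nxt x ∨ y = (Δ.flip h).nxt ((Δ.flip h).nxt x)) ↔
        (y = d ∨ y = a ∨ y = h) := by
      rcases k1' with rfl | rfl | rfl
      · rw [v.vd, v.va]
      · rw [v.va, v.vh]
        exact or_rot
      · rw [v.vh, v.vd]
        exact or_rot'
    rw [hx, v.f2 x k1']
    by_cases k3 : y = d ∨ y = a ∨ y = h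
    · rw [v.f2 y k3]
      exact ⟨fun _ => k3, fun _ => rfl⟩
    by_cases k2 : y = c ∨ y = h' ∨ y = b
    · rw [v.f1 y k2]
      exact ⟨fun k => absurd k.symm e1, fun k => absurd k k3⟩
    rw [v.else2 (fun k => k.elim k2 k3)]
    exact ⟨fun k => absurd k (h8 _ _), fun k => absurd k k3⟩
  have o : ¬ InQ h a b h' c d x := fun k => k.elim k1 k1'
  have o1 := q.out hΔ o
  have o2 := q.out hΔ o1
  rw [v.else2 o, v.else1 o, v.else1 o1]
  by_cases k2 : InQ h a b h' c d y
  · have h9 : (Δ.flip h).face y = Δ.edge h ∨ (Δ.flip h).face y = Δ.edge h' := by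
      rcases k2 with k | k
      · exact Or.inl (v.f1 y k)
      · exact Or.inr (v.f2 y k)
    refine ⟨fun k => ?_, fun k => ?_⟩
    · rcases h9 with h9 | h9
      · rw [h9] at k
        exact absurd k.symm (h8 _ _)
      · rw [h9] at k
        exact absurd k.symm (h8 _ _)
    · rcases k with k | k | k
      · rw [k] at k2
        exact absurd k2 o
      · rw [k] at k2
        exact absurd k2 o1
      · rw [k] at k2
        exact absurd k2 o2
  · rw [v.else2 k2]
    exact hΔ.face_iff x y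

theorem flip_disj {Δ : Tri H V} (hΔ : Δ.IsIdeal) {h a b h' c d : H} (q : Quad Δ h a b h' c d)
    (x y : H) : (Δ.flip h).edge x ≠ (Δ.flip h).face y := by
  have v := q.vals
  have h6 := hΔ.edge_inj
  have h7 := hΔ.face_iff
  have h8 := hΔ.edge_ne_face
  have e1 : ∀ z, (Δ.flip h).edge z = Δ.face h ∨ (Δ.flip h).edge z = Δ.face h' ∨
      ((Δ.flip h).edge z = Δ.edge z ∧ z ≠ h ∧ z ≠ h') := by
    intro z
    by_cases k1 : z = h
    · left
      rw [k1, v.eh]
    by_cases k2 : z = h'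
    · right; left
      rw [k2, v.eh']
    exact Or.inr (Or.inr ⟨v.eelse z k1 k2, k1, k2⟩)
  have e2 : ∀ z, (Δ.flip h).face z = Δ.edge h ∨ (Δ.flip h).face z = Δ.edge h' ∨
      ((Δ.flip h).face z = Δ.face z ∧ Δ.face z ≠ Δ.face h ∧ Δ.face z ≠ Δ.face h') := by
    intro z
    by_cases k1 : z = c ∨ z = h' ∨ z = b
    · left
      exact v.f1 z k1
    by_cases k2 : z = d ∨ z = a ∨ z = h
    · right; left
      exact v.f2 z k2
    right; right
    refine ⟨v.else2 (fun k => k.elim k1 k2), ?_, ?_⟩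
    · intro k
      have k3 := (h7 h z).mp k.symm
      simp only [Tri.prv] at k3
      rw [q.nh, q.na] at k3
      rcases k3 with k3 | k3 | k3
      · exact k2 (Or.inr (Or.inr k3))
      · exact k2 (Or.inr (Or.inl k3))
      · exact k1 (Or.inr (Or.inr k3))
    · intro k
      have k3 := (h7 h' z).mp k.symm
      simp only [Tri.prv] at k3
      rw [q.nh', q.nc] at k3
      rcases k3 with k3 | k3 | k3
      · exact k1 (Or.inr (Or.inl k3))
      · exact k1 (Or.inl k3)
      · exact k2 (Or.inl k3)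
  rcases e1 x with k1 | k1 | ⟨k1, k1', k1''⟩ <;> rcases e2 y with k2 | k2 | ⟨k2, k2', k2''⟩ <;>
    rw [k1, k2]
  · exact (h8 _ _).symm
  · exact (h8 _ _).symm
  · exact k2'.symm
  · exact (h8 _ _).symm
  · exact (h8 _ _).symm
  · exact k2''.symm
  · exact fun k => k1' (h6 _ _ k)
  · exact fun k => k1'' (h6 _ _ k)
  · exact h8 _ _

theorem flip_node {Δ : Tri H V} (hΔ : Δ.IsIdeal) {h a b h' c d : H} (q : Quad Δ h a b h' c d)
    (v : V) : (∃ x, (Δ.flip h).edge x = v) ∨ (∃ x, (Δ.flip h).face x = v) := by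
  have w := q.vals
  have h7 := hΔ.face_iff
  rcases hΔ.node v with ⟨x, rfl⟩ | ⟨x, rfl⟩
  · by_cases k1 : x = h
    · right
      exact ⟨h', by rw [w.fh', k1]⟩
    by_cases k2 : x = h'
    · right
      exact ⟨h, by rw [w.fh, k2]⟩
    left
    exact ⟨x, w.eelse x k1 k2⟩
  · by_cases k1 : Δ.face x = Δ.face h
    · left
      exact ⟨h, by rw [w.eh, k1]⟩
    by_cases k2 : Δ.face x = Δ.face h'
    · left
      exact ⟨h', by rw [w.eh', k2]⟩
    right
    refine ⟨x, w.else2 ?_⟩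
    rintro ((rfl | rfl | rfl) | (rfl | rfl | rfl))
    · apply k2
      rw [h7]
      simp only [Tri.prv]
      rw [q.nc, q.nd]
      exact Or.inr (Or.inr rfl)
    · exact k2 rfl
    · apply k1
      rw [h7]
      simp only [Tri.prv]
      rw [q.nb, q.nh]
      exact Or.inr (Or.inl rfl)
    · apply k2
      rw [h7]
      simp only [Tri.prv]
      rw [q.nd, q.nh']
      exact Or.inr (Or.inl rfl)
    · apply k1
      rw [h7]
      simp only [Tri.prv]
      rw [q.na, q.nb]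
      exact Or.inr (Or.inr rfl)
    · exact k1 rfl

/-- A flip at a flippable edge gives an ideal triangulation. -/
theorem Tri.IsIdeal.flip {Δ : Tri H V} (hΔ : Δ.IsIdeal) {h : H} (hf : Δ.Flippable h) :
    (Δ.flip h).IsIdeal := by
  obtain ⟨hf1, hf2⟩ := hf
  have q := hΔ.quad h
  exact ⟨hΔ.nonempty, flip_three hΔ q, flip_ne hΔ q, hΔ.opp_opp, hΔ.opp_ne, flip_conn hΔ q,
    flip_self hΔ q hf1 hf2, flip_einj hΔ q, flip_face hΔ q, flip_disj hΔ q, flip_node hΔ q⟩

end

end Pool.Agent.H917R3.XC
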