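import Pool.Agent.H917R3.CoprimeLead

/-!
# The universal form of degree `d` in `n` variables
-/

open MvPolynomial

namespace Pool.Agent.H917R3

/-- The exponents of the monomials of degree `d` in `n` variables. -/
abbrev Expo (n d : ℕ) : Type := {α : Fin n →₀ ℕ // α.degree = d}

instance (n d : ℕ) : Finite (Expo n d) := by
  have hinj : Function.Injective
      (fun α : Expo n d => (fun i => (⟨α.1 i, by
        have h := Finsupp.le_degree i α.1
        have h2 := α.2
        omega⟩ : Fin (d + 1)) : Fin n → Fin (d + 1))) := by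
    intro α β h
    apply Subtype.ext
    ext i
    have := congrFun h i
    simpa using this
  exact Finite.of_injective _ hinj

noncomputable instance (n d : ℕ) : Fintype (Expo n d) := Fintype.ofFinite _

section

variable {n d : ℕ}

/-- The exponent of `z_j ^ d`. -/
noncomputable def pureE (j : Fin n) : Expo n d := ⟨Finsupp.single j d, by simp⟩

theorem pureE_injective (hd : 1 ≤ d) : Function.Injective (pureE : Fin n → Expo n d) := by
  intro i j h
  have h1 : Finsupp.single i d = Finsupp.single j d := congrArg Subtype.val h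
  have h2 := DFunLike.congr_fun h1 i
  by_contra hij
  rw [Finsupp.single_eq_same, Finsupp.single_eq_of_ne (fun h => hij h)] at h2
  omega

/-- The polynomial ring in the coefficients of the universal form and in the variables. -/
abbrev UR (n d : ℕ) : Type := MvPolynomial (Expo n d ⊕ Fin n) ℂ

/-- A polynomial which is linear in the coefficients. -/
noncomputable def lin (q : Expo n d → MvPolynomial (Fin n) ℂ) : UR n d :=
  ∑ α : Expo n d, X (Sum.inl α) * rename Sum.inr (q α)

variable (n d) in
/-- The universal form. -/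
noncomputable def univF : UR n d := lin (fun α => monomial α.1 1)

theorem pderiv_lin (i : Fin n) (q : Expo n d → MvPolynomial (Fin n) ℂ) :
    pderiv (Sum.inr i) (lin q) = lin (fun α => pderiv i (q α)) := by
  classical
  unfold lin
  rw [map_sum]
  refine Finset.sum_congr rfl fun α _ => ?_
  rw [Derivation.leibniz, pderiv_rename Sum.inr_injective, pderiv_X_of_ne (by simp)]
  simp

/-- no pure coefficient variable occurs -/
def NoPure (p : UR n d) : Prop := ∀ μ ∈ p.support, ∀ j : Fin n, μ (Sum.inl (pureE j)) = 0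

theorem NoPure.zero : NoPure (0 : UR n d) := by
  intro μ hμ
  simp at hμ

theorem NoPure.add {p q : UR n d} (hp : NoPure p) (hq : NoPure q) : NoPure (p + q) := by
  classical
  intro μ hμ j
  rcases Finset.mem_union.mp (support_add hμ) with h | h
  · exact hp μ h j
  · exact hq μ h j

theorem NoPure.sum {ι : Type*} (s : Finset ι) (p : ι → UR n d) (h : ∀ i ∈ s, NoPure (p i)) :
    NoPure (∑ i ∈ s, p i) := by
  classical
  induction s using Finset.induction_on with
  | empty => simpa using NoPure.zero
  | insert a s ha ih =>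
    rw [Finset.sum_insert ha]
    exact (h a (Finset.mem_insert_self _ _)).add
      (ih fun i hi => h i (Finset.mem_insert_of_mem hi))

theorem noPure_term (α : Expo n d) (hα : ∀ j, α ≠ pureE j) (q : MvPolynomial (Fin n) ℂ) :
    NoPure (X (Sum.inl α) * rename Sum.inr q : UR n d) := by
  classical
  intro μ hμ j
  rw [mem_support_iff, coeff_X_mul'] at hμ
  split_ifs at hμ with h
  · by_contra hcon
    apply hμ
    by_contra hne
    rw [coeff_rename_eq_zero] at hne
    · exact hne rfl
    · rintro u hu
      exfalso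
      have h1 := DFunLike.congr_fun hu (Sum.inl (pureE j))
      rw [Finsupp.mapDomain_of_notMem_range] at h1
      · rw [Finsupp.tsub_apply, Finsupp.single_eq_of_ne] at h1
        · omega
        · intro h2
          exact hα j (Sum.inl_injective h2).symm
      · simp
  · exact absurd rfl hμ

variable (m : MonomialOrder.{0, 0} (Expo n d ⊕ Fin n))

/-- The order puts the pure coefficient variables first. -/
def PureFirst : Prop := ∀ μ ν : (Expo n d ⊕ Fin n) →₀ ℕ,
  (∀ j : Fin n, μ (Sum.inl (pureE j)) = 0) → (∃ j : Fin n, ν (Sum.inl (pureE j)) ≠ 0) →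
    m.toSyn μ < m.toSyn ν

theorem exists_pureFirst (n d : ℕ) : ∃ m : MonomialOrder.{0, 0} (Expo n d ⊕ Fin n), PureFirst m := by
  obtain ⟨m, hm⟩ := exists_monomialOrder (σ := Expo n d ⊕ Fin n)
    (fun x => ∃ j : Fin n, x = Sum.inl (pureE j))
  refine ⟨m, fun μ ν h1 h2 => hm μ ν ?_ ?_⟩
  · rintro x ⟨j, rfl⟩
    exact h1 j
  · obtain ⟨j, hj⟩ := h2
    exact ⟨_, ⟨j, rfl⟩, hj⟩

variable {m}

theorem NoPure.degree_lt (hm : PureFirst m) {p : UR n d} (hp : NoPure p)
    {ν : (Expo n d ⊕ Fin n) →₀ ℕ} {j : Fin n} (hν : ν (Sum.inl (pureE j)) ≠ 0) :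
    m.toSyn (m.degree p) < m.toSyn ν := by
  refine hm _ _ ?_ ⟨j, hν⟩
  by_cases h0 : p = 0
  · subst h0
    intro j
    simp
  · exact hp _ (MonomialOrder.degree_mem_support h0)

/-- leading data of a linear polynomial involving exactly one pure coefficient variable -/
theorem lin_lead (hm : PureFirst m) (q : Expo n d → MvPolynomial (Fin n) ℂ) (i : Fin n)
    (ν : Fin n →₀ ℕ) (c : ℂ) (hc : c ≠ 0) (h1 : q (pureE i) = monomial ν c)
    (h2 : ∀ j, j ≠ i → q (pureE j) = 0) :
    lin q ≠ 0 ∧
      m.degree (lin q) = Finsupp.single (Sum.inl (pureE i)) 1 + ν.mapDomain Sum.inr := by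
  classical
  have hmain : (X (Sum.inl (pureE i)) * rename Sum.inr (q (pureE i)) : UR n d) =
      monomial (Finsupp.single (Sum.inl (pureE i)) 1 + ν.mapDomain Sum.inr) c := by
    rw [h1, rename_monomial, X, monomial_mul, one_mul]
  have hsplit : lin q = monomial (Finsupp.single (Sum.inl (pureE i)) 1 + ν.mapDomain Sum.inr) c +
      ∑ α ∈ Finset.univ.erase (pureE i), X (Sum.inl α) * rename Sum.inr (q α) := by
    rw [← hmain, lin]
    exact (Finset.add_sum_erase _ (fun α => X (Sum.inl α) * rename Sum.inr (q α))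
      (Finset.mem_univ _)).symm
  have hrest : NoPure (∑ α ∈ Finset.univ.erase (pureE i),
      X (Sum.inl α) * rename Sum.inr (q α) : UR n d) := by
    refine NoPure.sum _ _ fun α hα => ?_
    by_cases hp : ∃ j, α = pureE j
    · obtain ⟨j, rfl⟩ := hp
      have hji : j ≠ i := by
        rintro rfl
        exact (Finset.mem_erase.mp hα).1 rfl
      rw [h2 j hji, map_zero, mul_zero]
      exact NoPure.zero
    · exact noPure_term α (fun j hj => hp ⟨j, hj⟩) _
  have hdeg : m.degree (monomial (Finsupp.single (Sum.inl (pureE i)) 1 + ν.mapDomain Sum.inr) c :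
      UR n d) = Finsupp.single (Sum.inl (pureE i)) 1 + ν.mapDomain Sum.inr := by
    rw [MonomialOrder.degree_monomial, if_neg hc]
  have hlt := hrest.degree_lt hm (j := i)
    (ν := Finsupp.single (Sum.inl (pureE i)) 1 + ν.mapDomain Sum.inr) (by simp)
  rw [← hdeg] at hlt
  have hd' : m.degree (lin q) =
      Finsupp.single (Sum.inl (pureE i)) 1 + ν.mapDomain Sum.inr := by
    rw [hsplit, MonomialOrder.degree_add_of_lt hlt, hdeg]
  refine ⟨?_, hd'⟩
  apply MonomialOrder.ne_zero_of_degree_ne_zero (m := m)
  rw [hd']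
  intro h
  have := DFunLike.congr_fun h (Sum.inl (pureE i))
  simp at this

/-- partial derivative of the universal form -/
noncomputable def df (i : Fin n) : UR n d := pderiv (Sum.inr i) (univF n d)

/-- Hessian matrix of the universal form -/
noncomputable def hessMat (n d : ℕ) : Matrix (Fin n) (Fin n) (UR n d) :=
  Matrix.of fun i j => pderiv (Sum.inr i) (pderiv (Sum.inr j) (univF n d))

variable (n d) in
/-- Hessian determinant of the universal form -/
noncomputable def hess : UR n d := (hessMat n d).det

variable (n d) in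
/-- the ideal of the partial derivatives of the universal form -/
noncomputable def jac : Ideal (UR n d) := Ideal.span (Set.range (df : Fin n → UR n d))

theorem df_eq (i : Fin n) : (df i : UR n d) = lin (fun α => pderiv i (monomial α.1 1)) :=
  pderiv_lin i _

theorem hessMat_eq (i j : Fin n) :
    hessMat n d i j = lin (fun α => pderiv i (pderiv j (monomial α.1 1))) := by
  rw [hessMat, Matrix.of_apply, ← pderiv_lin, ← pderiv_lin]
  rfl

theorem df_lead (hm : PureFirst m) (hd : 1 ≤ d) (i : Fin n) :
    (df i : UR n d) ≠ 0 ∧ m.degree (df i : UR n d) =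
      Finsupp.single (Sum.inl (pureE i)) 1 + Finsupp.single (Sum.inr i) (d - 1) := by
  rw [df_eq, ← Finsupp.mapDomain_single (f := Sum.inr)]
  refine lin_lead hm _ i (Finsupp.single i (d - 1)) (d : ℂ) (by exact_mod_cast (by omega)) ?_ ?_
  · simp only [pureE, pderiv_monomial, one_mul, Finsupp.single_eq_same]
    rw [← Finsupp.single_tsub]
  · intro j hj
    simp only [pureE, pderiv_monomial, one_mul]
    rw [Finsupp.single_eq_of_ne hj.symm]
    simp

theorem hess_diag_lead (hm : PureFirst m) (hd : 2 ≤ d) (i : Fin n) :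
    hessMat n d i i ≠ 0 ∧ m.degree (hessMat n d i i) =
      Finsupp.single (Sum.inl (pureE i)) 1 + Finsupp.single (Sum.inr i) (d - 2) := by
  rw [hessMat_eq, ← Finsupp.mapDomain_single (f := Sum.inr)]
  refine lin_lead hm _ i (Finsupp.single i (d - 2)) ((d : ℂ) * ((d - 1 : ℕ) : ℂ)) ?_ ?_ ?_
  · apply mul_ne_zero
    · exact_mod_cast (by omega)
    · exact_mod_cast (by omega)
  · simp only [pureE, pderiv_monomial, one_mul, Finsupp.single_eq_same]
    rw [← Finsupp.single_tsub, ← Finsupp.single_tsub, Finsupp.single_eq_same]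
    congr 1
  · intro j hj
    simp only [pureE, pderiv_monomial, one_mul]
    rw [Finsupp.single_eq_of_ne hj.symm]
    simp

theorem hess_offdiag {i j : Fin n} (hij : i ≠ j) : NoPure (hessMat n d i j) := by
  rw [hessMat_eq, lin]
  refine NoPure.sum _ _ fun α _ => ?_
  by_cases hp : ∃ k, α = pureE k
  · obtain ⟨k, rfl⟩ := hp
    have : (pderiv i) ((pderiv j) ((monomial (pureE k : Expo n d).1) (1 : ℂ))) = 0 := by
      simp only [pureE, pderiv_monomial, one_mul]
      by_cases hjk : j = k
      · subst hjk
        rw [Finsupp.single_eq_same, ← Finsupp.single_tsub, Finsupp.single_eq_of_ne hij]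
        simp
      · rw [Finsupp.single_eq_of_ne hjk]
        simp
    rw [this, map_zero, mul_zero]
    exact NoPure.zero
  · exact noPure_term α (fun j hj => hp ⟨j, hj⟩) _

theorem hess_lead (hm : PureFirst m) (hd : 2 ≤ d) :
    hess n d ≠ 0 ∧ m.degree (hess n d) =
      ∑ i : Fin n, (Finsupp.single (Sum.inl (pureE i)) 1 + Finsupp.single (Sum.inr i) (d - 2)) := by
  classical
  set δ : (Expo n d ⊕ Fin n) →₀ ℕ :=
    ∑ i : Fin n, (Finsupp.single (Sum.inl (pureE i)) 1 + Finsupp.single (Sum.inr i) (d - 2)) with hδ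
  have hmain0 : (∏ i : Fin n, hessMat n d i i) ≠ 0 :=
    Finset.prod_ne_zero_iff.mpr fun i _ => (hess_diag_lead hm hd i).1
  have hmain : m.degree (∏ i : Fin n, hessMat n d i i) = δ := by
    rw [MonomialOrder.degree_prod (fun i _ => (hess_diag_lead hm hd i).1)]
    exact Finset.sum_congr rfl fun i _ => (hess_diag_lead hm hd i).2
  by_cases hn : n = 0
  · subst hn
    have : hess 0 d = 1 := by
      unfold hess
      exact Matrix.det_isEmpty
    rw [this]
    refine ⟨one_ne_zero, ?_⟩
    rw [hδ]
    simp
  have hδ0 : m.toSyn 0 < m.toSyn δ := by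
    rw [map_zero, MonomialOrder.toSyn_lt_iff_ne_zero, Ne, MonomialOrder.toSyn_eq_zero_iff]
    intro h
    have hpos : 0 < n := Nat.pos_of_ne_zero hn
    have h1 := DFunLike.congr_fun h (Sum.inl (pureE ⟨0, hpos⟩))
    rw [hδ, Finsupp.finsetSum_apply, Finsupp.zero_apply, Finset.sum_eq_zero_iff] at h1
    have h2 := h1 ⟨0, hpos⟩ (Finset.mem_univ _)
    simp at h2
  have hterm : ∀ π : Equiv.Perm (Fin n), π ≠ 1 →
      m.toSyn (m.degree (∏ i : Fin n, hessMat n d (π i) i)) < m.toSyn δ := by
    intro π hπ
    refine lt_of_le_of_lt (MonomialOrder.degree_prod_le) ?_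
    rw [hδ, map_sum, map_sum]
    have hstrict : ∀ i : Fin n, π i ≠ i → m.toSyn (m.degree (hessMat n d (π i) i)) <
        m.toSyn (Finsupp.single (Sum.inl (pureE i)) 1 + Finsupp.single (Sum.inr i) (d - 2)) := by
      intro i hi
      exact (hess_offdiag hi).degree_lt hm (j := i) (by simp)
    refine Finset.sum_lt_sum (fun i _ => ?_) ?_
    · by_cases hi : π i = i
      · rw [hi, (hess_diag_lead hm hd i).2]
      · exact (hstrict i hi).le
    · by_contra hcon
      apply hπ
      ext i
      by_contra hi
      exact hcon ⟨i, Finset.mem_univ _, hstrict i (fun h => hi (by simp [h]))⟩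
  have hsplit : hess n d = ∏ i : Fin n, hessMat n d i i +
      ∑ π ∈ Finset.univ.erase (1 : Equiv.Perm (Fin n)),
        Equiv.Perm.sign π • ∏ i : Fin n, hessMat n d (π i) i := by
    rw [hess, Matrix.det_apply, ← Finset.add_sum_erase _ _ (Finset.mem_univ (1 : Equiv.Perm (Fin n)))]
    simp
  have hrest : m.toSyn (m.degree (∑ π ∈ Finset.univ.erase (1 : Equiv.Perm (Fin n)),
        Equiv.Perm.sign π • ∏ i : Fin n, hessMat n d (π i) i)) < m.toSyn δ := by
    rw [MonomialOrder.degree_lt_iff hδ0]
    intro c hc
    rw [mem_support_iff, coeff_sum] at hc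
    obtain ⟨π, hπ, hcπ⟩ := Finset.exists_ne_zero_of_sum_ne_zero hc
    have hmem : c ∈ (∏ i : Fin n, hessMat n d (π i) i).support := by
      rw [mem_support_iff]
      intro h0
      apply hcπ
      rcases Int.units_eq_one_or (Equiv.Perm.sign π) with h | h
      · rw [h, one_smul, h0]
      · rw [h, Units.neg_smul, one_smul, coeff_neg, h0, neg_zero]
    exact lt_of_le_of_lt (MonomialOrder.le_degree hmem) (hterm π (Finset.mem_erase.mp hπ).1)
  rw [← hmain] at hrest
  have hd' : m.degree (hess n d) = δ := by
    rw [hsplit, MonomialOrder.degree_add_of_lt hrest, hmain]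
  refine ⟨?_, hd'⟩
  apply MonomialOrder.ne_zero_of_degree_ne_zero (m := m)
  rw [hd']
  intro h
  rw [h] at hδ0
  exact lt_irrefl _ hδ0

end

end Pool.Agent.H917R3
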