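import Pool.Agent.H917R3.Square

/-!
# Sequences of mutations at distinct nodes
-/

set_option linter.unusedSectionVars false
set_option linter.unusedSimpArgs false

namespace Pool.Agent.H917R3.XC

section

variable {V : Type} [Fintype V] [DecidableEq V] {K : Type} [Field K] [Algebra ℂ K]

/-- positive real complex numbers -/
def PosC (z : ℂ) : Prop := ∃ r : ℝ, 0 < r ∧ z = r

theorem PosC.mul {z w : ℂ} (hz : PosC z) (hw : PosC w) : PosC (z * w) := by
  obtain ⟨a, ha, rfl⟩ := hz
  obtain ⟨b, hb, rfl⟩ := hw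
  exact ⟨a * b, mul_pos ha hb, by push_cast; rfl⟩

theorem PosC.add {z w : ℂ} (hz : PosC z) (hw : PosC w) : PosC (z + w) := by
  obtain ⟨a, ha, rfl⟩ := hz
  obtain ⟨b, hb, rfl⟩ := hw
  exact ⟨a + b, add_pos ha hb, by push_cast; rfl⟩

theorem PosC.one : PosC 1 := ⟨1, one_pos, by simp⟩

theorem PosC.ne {z : ℂ} (hz : PosC z) : z ≠ 0 := by
  obtain ⟨a, ha, rfl⟩ := hz
  exact_mod_cast ha.ne'

/-- the point with `x_k = -1` and the other coordinates `1` -/
def pt (k : V) : V → ℂ := fun v => if v = k then -1 else 1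

theorem pt_ne (k v : V) : pt k v ≠ 0 := by
  unfold pt
  split_ifs <;> norm_num

/-- evaluation at the point -/
noncomputable def evpt (k : V) : Lau V →ₐ[ℂ] ℂ := ev (pt k) (pt_ne k)

theorem evpt_uj (k : V) : evpt k (uj k) = 0 := by
  unfold evpt
  rw [ev_uj]
  simp [pt]

theorem evpt_xv_ne {k l : V} (h : l ≠ k) : evpt k (xv l) = 1 := by
  unfold evpt
  rw [ev_xv]
  simp [pt, h]

theorem evpt_xv_self (k : V) : evpt k (xv k) = -1 := by
  unfold evpt
  rw [ev_xv]
  simp [pt]

theorem pij_ne_of_evpt {k : V} {q : Lau V} (h : evpt k q ≠ 0) : pij k q ≠ 0 := by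
  intro h0
  obtain ⟨g, rfl⟩ := uj_dvd_of_pij h0
  rw [map_mul, evpt_uj, zero_mul] at h
  exact h rfl

/-- elements of the field with a positive real value at the point -/
def Chart.Pos (c : Chart V K) (k : V) (x : K) : Prop :=
  ∃ p q : Lau V, PosC (evpt k p) ∧ PosC (evpt k q) ∧ x * ev c.X c.ne q = ev c.X c.ne p

theorem Chart.Pos.isU {c : Chart V K} {k : V} {x : K} (hx : c.Pos k x) : c.IsU k x := by
  obtain ⟨p, q, hp, hq, h⟩ := hx
  have hp' := pij_ne_of_evpt hp.ne
  have hq' := pij_ne_of_evpt hq.ne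
  have h1 := c.ev_ne_zero (ne_zero_of_pij hq')
  have h2 : x = ev c.X c.ne p * (ev c.X c.ne q)⁻¹ := by
    rw [← h, mul_assoc, mul_inv_cancel₀ h1, mul_one]
  rw [h2]
  exact (c.isU_ev hp').mul (c.isU_ev hq').inv

theorem Chart.Pos.mul {c : Chart V K} {k : V} {x y : K} (hx : c.Pos k x) (hy : c.Pos k y) :
    c.Pos k (x * y) := by
  obtain ⟨p, q, hp, hq, h⟩ := hx
  obtain ⟨p', q', hp', hq', h'⟩ := hy
  refine ⟨p * p', q * q', ?_, ?_, ?_⟩
  · rw [map_mul]
    exact hp.mul hp'
  · rw [map_mul]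
    exact hq.mul hq'
  · rw [map_mul, map_mul, ← h, ← h']
    ring

theorem Chart.Pos.one (c : Chart V K) (k : V) : c.Pos k 1 :=
  ⟨1, 1, by rw [map_one]; exact PosC.one, by rw [map_one]; exact PosC.one, by simp⟩

theorem Chart.Pos.inv {c : Chart V K} {k : V} {x : K} (hx : c.Pos k x) : c.Pos k x⁻¹ := by
  have h0 := hx.isU.1
  obtain ⟨p, q, hp, hq, h⟩ := hx
  refine ⟨q, p, hq, hp, ?_⟩
  rw [← h, ← mul_assoc, inv_mul_cancel₀ h0, one_mul]

theorem Chart.Pos.zpow {c : Chart V K} {k : V} {x : K} (hx : c.Pos k x) (e : ℤ) :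
    c.Pos k (x ^ e) := by
  have hn : ∀ n : ℕ, c.Pos k (x ^ n) := by
    intro n
    induction n with
    | zero => simpa using Chart.Pos.one c k
    | succ n ih =>
      rw [pow_succ]
      exact ih.mul hx
  rcases e with n | n
  · rw [Int.ofNat_eq_natCast, zpow_natCast]
    exact hn n
  · rw [zpow_negSucc]
    exact (hn (n + 1)).inv

theorem Chart.Pos.one_add {c : Chart V K} {k : V} {x : K} (hx : c.Pos k x) :
    c.Pos k (1 + x) := by
  obtain ⟨p, q, hp, hq, h⟩ := hx
  refine ⟨q + p, q, ?_, hq, ?_⟩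
  · rw [map_add]
    exact hq.add hp
  · rw [map_add, ← h]
    ring

/-- the invariant of sequences of mutations at nodes different from `k` -/
def Chart.Inv (c : Chart V K) (k : V) (t : Seed V K) : Prop :=
  (∀ i, i ≠ k → c.Pos k (t.X i)) ∧ c.Pos k (-(t.X k))

theorem Chart.Inv.mutate {c : Chart V K} {k : V} {t : Seed V K} (ht : c.Inv k t) {l : V}
    (hl : l ≠ k) : c.Inv k (t.mutate l) := by
  have hl0 := (ht.1 l hl).isU.1
  refine ⟨fun i hi => ?_, ?_⟩
  · by_cases hil : i = l
    · subst hil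
      rw [mutate_X_self]
      exact (ht.1 i hi).inv
    · rw [mutate_X_of_ne t hil hl0]
      exact (ht.1 i hi).mul (((ht.1 l hl).zpow _).mul ((ht.1 l hl).one_add.zpow _))
  · rw [mutate_X_of_ne t (Ne.symm hl) hl0, ← neg_mul]
    exact ht.2.mul (((ht.1 l hl).zpow _).mul ((ht.1 l hl).one_add.zpow _))

theorem Chart.Inv.foldl {c : Chart V K} {k : V} (ks : List V) : ∀ {t : Seed V K},
    c.Inv k t → k ∉ ks → c.Inv k (ks.foldl Seed.mutate t) := by
  induction ks with
  | nil => exact fun ht _ => ht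
  | cons l ks ih =>
    intro t ht hk
    rw [List.foldl_cons]
    have hl : l ≠ k := fun h => hk (h ▸ List.mem_cons_self)
    exact ih (ht.mutate hl) (fun h => hk (List.mem_cons_of_mem _ h))

theorem Seed.Good.inv_self {z : Seed V K} (hz : z.Good) (k : V) : hz.chart.Inv k z := by
  refine ⟨fun i hi => ?_, ?_⟩
  · refine ⟨xv i, 1, ?_, ?_, ?_⟩
    · rw [evpt_xv_ne hi]
      exact PosC.one
    · rw [map_one]
      exact PosC.one
    · rw [map_one, ev_xv, mul_one]
      rfl
  · refine ⟨-xv k, 1, ?_, ?_, ?_⟩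
    · rw [map_neg, evpt_xv_self, neg_neg]
      exact PosC.one
    · rw [map_one]
      exact PosC.one
    · rw [map_one, map_neg, ev_xv, mul_one]
      rfl

theorem Chart.Inv.mem_Loc {c : Chart V K} {k : V} {t : Seed V K} (ht : c.Inv k t) {f : K}
    (hf : t.Regular f) : f ∈ c.Loc k := by
  have hU : ∀ i, c.IsU k (t.X i) := by
    intro i
    by_cases hi : i = k
    · subst hi
      obtain ⟨h1, h2, h3⟩ := ht.2.isU
      refine ⟨fun h => h1 (by rw [h, neg_zero]), ?_, ?_⟩
      · have := (c.Loc i).neg_mem h2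
        rwa [neg_neg] at this
      · have := (c.Loc i).neg_mem h3
        rwa [inv_neg, neg_neg] at this
    · exact (ht.1 i hi).isU
  unfold Seed.Regular Reg at hf
  refine Algebra.adjoin_induction (p := fun x _ => x ∈ c.Loc k) ?_ ?_ ?_ ?_ hf
  · rintro x (⟨i, rfl⟩ | ⟨i, rfl⟩)
    · exact (hU i).2.1
    · exact (hU i).2.2
  · intro a
    have h6 : algebraMap ℂ K a = ev c.X c.ne (AddMonoidAlgebra.single 0 a) := by
      rw [ev_single, mon_zero, mul_one]
    rw [h6]
    exact c.ev_mem_Loc k _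
  · exact fun x y _ _ hx hy => (c.Loc k).add_mem hx hy
  · exact fun x y _ _ hx hy => (c.Loc k).mul_mem hx hy

/-- First step of a sequence of mutations at distinct nodes. -/
theorem regular_first {s : Seed V K} (hs : s.Good) {k : V} {ks : List V} (hk : k ∉ ks) {f : K}
    (h0 : s.Regular f) (h1 : (ks.foldl Seed.mutate (s.mutate k)).Regular f) :
    (s.mutate k).Regular f :=
  regular_of_mem_loc hs k h0 (Chart.Inv.mem_Loc (((hs.mutate k).inv_self k).foldl ks hk) h1)

/-- All the nodes of a sequence of mutations at distinct nodes. -/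
theorem regular_of_foldl (ks : List V) : ∀ {s : Seed V K}, s.Good → ks.Nodup → ∀ {f : K},
    s.Regular f → (ks.foldl Seed.mutate s).Regular f → ∀ k ∈ ks, (s.mutate k).Regular f := by
  induction ks with
  | nil => exact fun _ _ _ _ _ k hk => absurd hk List.not_mem_nil
  | cons l ks ih =>
    intro s hs hnd f h0 h1 k hk
    rw [List.nodup_cons] at hnd
    rw [List.foldl_cons] at h1
    have h2 := regular_first hs hnd.1 h0 h1
    rcases List.mem_cons.mp hk with rfl | hk
    · exact h2
    · have h3 := ih (hs.mutate l) hnd.2 h2 h1 k hk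
      have hkl : k ≠ l := fun h => hnd.1 (h ▸ hk)
      exact square hs hkl h0 h2 h3

/-- Transport of the regularity in a direction through a sequence of mutations at distinct nodes. -/
theorem regular_transport (ks : List V) : ∀ {s : Seed V K}, s.Good → ks.Nodup → ∀ {f : K},
    s.Regular f → (ks.foldl Seed.mutate s).Regular f → ∀ k, k ∉ ks →
    ((ks.foldl Seed.mutate s).mutate k).Regular f → (s.mutate k).Regular f := by
  induction ks with
  | nil => exact fun _ _ _ _ _ k _ h => h
  | cons l ks ih =>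
    intro s hs hnd f h0 h1 k hk h
    rw [List.nodup_cons] at hnd
    rw [List.foldl_cons] at h1 h
    have h2 := regular_first hs hnd.1 h0 h1
    have h3 := ih (hs.mutate l) hnd.2 h2 h1 k (fun h => hk (List.mem_cons_of_mem _ h)) h
    have hkl : k ≠ l := fun h => hk (h ▸ List.mem_cons_self)
    exact square hs hkl h0 h2 h3

theorem Seed.Good.foldl (ks : List V) : ∀ {s : Seed V K}, s.Good →
    (ks.foldl Seed.mutate s).Good := by
  induction ks with
  | nil => exact fun hs => hs
  | cons l ks ih => exact fun hs => ih (hs.mutate l)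

end

end Pool.Agent.H917R3.XC
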